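import Pool.Agent.Helper20.Rich.Lower

/-!
The fixed point `D` of the substitution `theta j` on letters `(side, index)`, `index ≤ j`:
`(σ, c) ↦ (σ, c+1)` for `c < j` and `(σ, j) ↦ (σ, j) (!σ, 0) (σ, j)`.
-/

namespace Pool.Agent.Helper20.Rich

variable {β γ : Type*}

/-- limit of a chain of lists. -/
def limit (L : ℕ → List β) (d : β) (r : ℕ) : β := ((L r)[r]?).getD d

theorem chain_isPre {L : ℕ → List β} (hpre : ∀ n, L n <+: L (n + 1)) {m n : ℕ} (h : m ≤ n) :
    L m <+: L n := by
  induction n, h using Nat.le_induction with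
  | base => exact List.prefix_refl _
  | succ n _ ih => exact ih.trans (hpre n)

theorem limit_spec {L : ℕ → List β} {d : β} (hpre : ∀ n, L n <+: L (n + 1))
    (hlen : ∀ n, n < (L n).length) (n r : ℕ) (h : r < (L n).length) :
    (L n)[r]? = some (limit L d r) := by
  have h1 : (L r)[r]? = some (limit L d r) := by
    rw [limit, List.getElem?_eq_getElem (hlen r)]
    rfl
  rcases Nat.le_total n r with hnr | hnr
  · obtain ⟨t, ht⟩ := chain_isPre hpre hnr
    rw [← h1, ← ht, List.getElem?_append_left h]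
  · obtain ⟨t, ht⟩ := chain_isPre hpre hnr
    rw [← h1, ← ht, List.getElem?_append_left (hlen r)]

theorem limit_factor {L : ℕ → List β} {d : β} (hpre : ∀ n, L n <+: L (n + 1))
    (hlen : ∀ n, n < (L n).length) (n : ℕ) : factor (limit L d) 0 (L n).length = L n := by
  apply List.ext_getElem?
  intro r
  by_cases hr : r < (L n).length
  · rw [getElem?_factor _ _ _ _ hr, limit_spec hpre hlen n r hr, zero_add]
  · rw [List.getElem?_eq_none (by simp; omega), List.getElem?_eq_none (by omega)]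

theorem flatMap_isPre {f : β → List γ} {l m : List β} (h : l <+: m) :
    l.flatMap f <+: m.flatMap f := by
  obtain ⟨t, rfl⟩ := h
  rw [List.flatMap_append]
  exact List.prefix_append _ _

theorem factor_isPre (u : ℕ → β) {m n : ℕ} (h : m ≤ n) : factor u 0 m <+: factor u 0 n := by
  obtain ⟨k, rfl⟩ := Nat.exists_eq_add_of_le h
  rw [factor_add]
  exact List.prefix_append _ _

theorem isPre_factor {u : ℕ → β} {l : List β} {n : ℕ} (h : l <+: factor u 0 n) :
    l = factor u 0 l.length := by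
  have hl : l.length ≤ n := by simpa using h.length_le
  have h2 := factor_isPre u hl
  exact List.IsPrefix.eq_of_length (List.prefix_of_prefix_length_le h h2 (by simp)) (by simp)

/-- A coding `φ` of `D` onto `u`: the image of every initial part of `D` is an initial part
of `u`. -/
theorem coding {D : ℕ → β} {u : ℕ → γ} {φ : β → List γ}
    (h : ∀ s, ∃ n m, s ≤ n ∧ (factor D 0 n).flatMap φ = factor u 0 m) (s : ℕ) :
    (factor D 0 s).flatMap φ = factor u 0 ((factor D 0 s).flatMap φ).length := by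
  obtain ⟨n, m, hsn, hnm⟩ := h s
  have := flatMap_isPre (f := φ) (factor_isPre D hsn)
  rw [hnm] at this
  exact isPre_factor this

/-- the block of `u` coded by the letter `D s`. -/
theorem coding_block {D : ℕ → β} {u : ℕ → γ} {φ : β → List γ}
    (h : ∀ s, ∃ n m, s ≤ n ∧ (factor D 0 n).flatMap φ = factor u 0 m) (s : ℕ) :
    factor u ((factor D 0 s).flatMap φ).length (φ (D s)).length = φ (D s) := by
  have h1 := coding h (s + 1)
  have h2 := coding h s
  rw [factor_succ, List.flatMap_append, List.length_append, factor_add, zero_add] at h1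
  have h3 := List.append_inj_right h1 (by simp)
  simp only [List.flatMap_cons, List.flatMap_nil, List.append_nil, zero_add] at h3
  exact h3.symm

theorem coding_len_succ (D : ℕ → β) (φ : β → List γ) (s : ℕ) :
    ((factor D 0 (s + 1)).flatMap φ).length =
      ((factor D 0 s).flatMap φ).length + (φ (D s)).length := by
  rw [factor_succ, List.flatMap_append, List.length_append]
  simp

/-- the substitution -/
def theta (j : ℕ) (a : Bool × ℕ) : List (Bool × ℕ) :=
  if a.2 < j then [(a.1, a.2 + 1)] else [(a.1, j), (!a.1, 0), (a.1, j)]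

theorem theta_lt {j : ℕ} {σ : Bool} {c : ℕ} (h : c < j) : theta j (σ, c) = [(σ, c + 1)] := by
  simp [theta, h]

theorem theta_hub (j : ℕ) (σ : Bool) : theta j (σ, j) = [(σ, j), (!σ, 0), (σ, j)] := by
  simp [theta]

/-- iterates of `theta` on the hub letter. -/
def vv (j : ℕ) : ℕ → List (Bool × ℕ)
  | 0 => [(false, j)]
  | n + 1 => (vv j n).flatMap (theta j)

theorem vv_isPre (j n : ℕ) : vv j n <+: vv j (n + 1) := by
  induction n with
  | zero => exact ⟨[(true, 0), (false, j)], by simp [vv, theta_hub]⟩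
  | succ n ih => exact flatMap_isPre ih

theorem length_flatMap_theta (j : ℕ) (l : List (Bool × ℕ)) :
    l.length ≤ (l.flatMap (theta j)).length := by
  induction l with
  | nil => simp
  | cons a l ih =>
    rw [List.flatMap_cons, List.length_append, List.length_cons]
    have : 1 ≤ (theta j a).length := by
      unfold theta; split_ifs <;> simp
    omega

theorem vv_len (j n : ℕ) : n < (vv j n).length := by
  induction n with
  | zero => simp [vv]
  | succ n ih =>
    obtain ⟨t, ht⟩ := chain_isPre (vv_isPre j) (Nat.zero_le n)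
    have h1 : vv j (n + 1) = theta j (false, j) ++ t.flatMap (theta j) := by
      rw [vv, ← ht]
      simp [vv]
    have h2 := length_flatMap_theta j t
    have h3 : (vv j n).length = 1 + t.length := by
      rw [← ht]; simp [vv]; omega
    rw [h1, List.length_append, theta_hub]
    simp only [List.length_cons, List.length_nil]
    omega

/-- the fixed point of `theta j`. -/
def DD (j : ℕ) : ℕ → Bool × ℕ := limit (vv j) (false, j)

theorem DD_factor (j n : ℕ) : factor (DD j) 0 (vv j n).length = vv j n :=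
  limit_factor (vv_isPre j) (vv_len j) n

theorem DD_coding (j : ℕ) : ∀ s, ∃ n m, s ≤ n ∧
    (factor (DD j) 0 n).flatMap (theta j) = factor (DD j) 0 m := by
  intro s
  refine ⟨(vv j s).length, (vv j (s + 1)).length, (vv_len j s).le, ?_⟩
  rw [DD_factor, DD_factor]
  rfl

/-- position in `D` where the image of the letter number `s` starts. -/
def ff (j s : ℕ) : ℕ := ((factor (DD j) 0 s).flatMap (theta j)).length

@[simp] theorem ff_zero (j : ℕ) : ff j 0 = 0 := by simp [ff, factor]

theorem ff_succ (j s : ℕ) : ff j (s + 1) = ff j s + (theta j (DD j s)).length :=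
  coding_len_succ _ _ _

theorem ff_block (j s : ℕ) :
    factor (DD j) (ff j s) (theta j (DD j s)).length = theta j (DD j s) :=
  coding_block (DD_coding j) s

theorem DD_zero (j : ℕ) : DD j 0 = (false, j) := by
  have := limit_spec (d := (false, j)) (vv_isPre j) (vv_len j) 0 0 (by simp [vv])
  simpa [vv, DD] using this.symm

theorem theta_len_pos (j : ℕ) (a : Bool × ℕ) : 1 ≤ (theta j a).length := by
  unfold theta; split_ifs <;> simp

theorem ff_lt_succ (j s : ℕ) : ff j s < ff j (s + 1) := by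
  rw [ff_succ]; have := theta_len_pos j (DD j s); omega

theorem ff_strictMono (j : ℕ) : StrictMono (ff j) := strictMono_nat_of_lt_succ (ff_lt_succ j)

theorem le_ff (j s : ℕ) : s ≤ ff j s := (ff_strictMono j).le_apply

/-- every position is in the image of a unique letter. -/
theorem ff_cover (j r : ℕ) : ∃ s i, s ≤ r ∧ i < (theta j (DD j s)).length ∧ r = ff j s + i := by
  induction r with
  | zero => exact ⟨0, 0, le_rfl, theta_len_pos _ _, by simp⟩
  | succ r ih =>
    obtain ⟨s, i, hs, hi, hr⟩ := ih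
    by_cases h : i + 1 < (theta j (DD j s)).length
    · exact ⟨s, i + 1, by omega, h, by omega⟩
    · refine ⟨s + 1, 0, by omega, theta_len_pos _ _, ?_⟩
      rw [ff_succ]; omega

theorem ff_lt {j s c : ℕ} {σ : Bool} (h : DD j s = (σ, c)) (hc : c < j) :
    DD j (ff j s) = (σ, c + 1) ∧ ff j (s + 1) = ff j s + 1 := by
  have h1 := ff_block j s
  have h2 := ff_succ j s
  rw [h, theta_lt hc] at h1 h2
  constructor
  · simpa [factor] using h1
  · simpa using h2

theorem ff_hub {j s : ℕ} {σ : Bool} (h : DD j s = (σ, j)) :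
    DD j (ff j s) = (σ, j) ∧ DD j (ff j s + 1) = (!σ, 0) ∧ DD j (ff j s + 2) = (σ, j) ∧
      ff j (s + 1) = ff j s + 3 := by
  have h1 := ff_block j s
  have h2 := ff_succ j s
  rw [h, theta_hub] at h1 h2
  simp only [factor, List.length_cons, List.length_nil] at h1
  have e0 := congrArg (fun l => l[0]?) h1
  have e1 := congrArg (fun l => l[1]?) h1
  have e2 := congrArg (fun l => l[2]?) h1
  simp at e0 e1 e2
  exact ⟨e0, e1, e2, by simpa using h2⟩

theorem DD_one (j : ℕ) : DD j 1 = (true, 0) := by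
  have := (ff_hub (DD_zero j)).2.1
  simpa using this

theorem ff_one (j : ℕ) : ff j 1 = 3 := by
  have := (ff_hub (DD_zero j)).2.2.2
  simpa using this

theorem ff_ge (j : ℕ) {s : ℕ} (hs : 1 ≤ s) : s + 2 ≤ ff j s := by
  obtain ⟨n, rfl⟩ := Nat.exists_eq_add_of_le hs
  induction n with
  | zero => rw [add_zero, ff_one]
  | succ n ih =>
    have h1 := ih (by omega)
    have h2 := ff_lt_succ j (1 + n)
    rw [show 1 + (n + 1) = 1 + n + 1 by omega]
    omega

/-- the four ways a position arises -/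
theorem cases_pos (j r : ℕ) :
    (∃ s σ c, c < j ∧ DD j s = (σ, c) ∧ r = ff j s ∧ DD j r = (σ, c + 1)) ∨
    (∃ s σ, DD j s = (σ, j) ∧ r = ff j s ∧ DD j r = (σ, j) ∧ DD j (r + 1) = (!σ, 0)) ∨
    (∃ s σ, DD j s = (σ, j) ∧ r = ff j s + 1 ∧ DD j r = (!σ, 0)) ∨
    (∃ s σ, DD j s = (σ, j) ∧ r = ff j s + 2 ∧ DD j r = (σ, j) ∧ DD j (ff j s + 1) = (!σ, 0)) := by
  induction r using Nat.strong_induction_on with
  | _ r ih =>
  obtain ⟨s, i, hs, hi, hr⟩ := ff_cover j r
  have hle : (DD j s).2 ≤ j := by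
    rcases Nat.eq_zero_or_pos s with h0 | h0
    · subst h0; rw [DD_zero]
    · have := ff_ge j h0
      rcases ih s (by omega) with ⟨s', σ, c, hc, _, _, h⟩ | ⟨s', σ, _, _, h, _⟩ |
          ⟨s', σ, _, _, h⟩ | ⟨s', σ, _, _, h, _⟩ <;> rw [h] <;> simp <;> omega
  rcases Nat.lt_or_ge (DD j s).2 j with hc | hc
  · left
    obtain ⟨h2, h3⟩ := ff_lt (σ := (DD j s).1) (c := (DD j s).2) rfl hc
    have hlen : (theta j (DD j s)).length = 1 := by
      have := theta_lt (σ := (DD j s).1) hc
      rw [show ((DD j s).1, (DD j s).2) = DD j s from rfl] at this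
      rw [this]; rfl
    have hi0 : i = 0 := by omega
    subst hi0
    rw [add_zero] at hr
    subst hr
    exact ⟨s, (DD j s).1, (DD j s).2, hc, rfl, rfl, h2⟩
  · right
    have hj : DD j s = ((DD j s).1, j) := by
      ext
      · rfl
      · simp; omega
    obtain ⟨h2, h3, h4, h5⟩ := ff_hub hj
    have hlen : (theta j (DD j s)).length = 3 := by
      rw [hj, theta_hub]; rfl
    have : i = 0 ∨ i = 1 ∨ i = 2 := by omega
    rcases this with rfl | rfl | rfl
    · left
      rw [add_zero] at hr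
      subst hr
      exact ⟨s, _, hj, rfl, h2, h3⟩
    · right; left
      subst hr
      exact ⟨s, _, hj, rfl, h3⟩
    · right; right
      subst hr
      exact ⟨s, _, hj, rfl, h4, h3⟩

theorem DD_le (j r : ℕ) : (DD j r).2 ≤ j := by
  rcases cases_pos j r with ⟨s', σ, c, hc, _, _, h⟩ | ⟨s', σ, _, _, h, _⟩ |
          ⟨s', σ, _, _, h⟩ | ⟨s', σ, _, _, h, _⟩ <;> rw [h] <;> simp <;> omega

/-- first letter of an image -/
theorem DD_ff (j s : ℕ) : DD j (ff j s) = ((DD j s).1, min ((DD j s).2 + 1) j) := by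
  have hle := DD_le j s
  rcases Nat.lt_or_ge (DD j s).2 j with hc | hc
  · obtain ⟨h2, h3⟩ := ff_lt (σ := (DD j s).1) (c := (DD j s).2) rfl hc
    rw [h2, min_eq_left (by omega)]
  · have hj : DD j s = ((DD j s).1, j) := by
      ext
      · rfl
      · simp; omega
    obtain ⟨h2, h3, h4, h5⟩ := ff_hub hj
    rw [h2, min_eq_right (by omega)]

/-- last letter of an image -/
theorem DD_ff_last (j s : ℕ) : DD j (ff j (s + 1) - 1) = ((DD j s).1, min ((DD j s).2 + 1) j) := by
  have hle := DD_le j s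
  rcases Nat.lt_or_ge (DD j s).2 j with hc | hc
  · obtain ⟨h2, h3⟩ := ff_lt (σ := (DD j s).1) (c := (DD j s).2) rfl hc
    rw [h3, Nat.add_sub_cancel, h2, min_eq_left (by omega)]
  · have hj : DD j s = ((DD j s).1, j) := by
      ext
      · rfl
      · simp; omega
    obtain ⟨h2, h3, h4, h5⟩ := ff_hub hj
    rw [h5, show ff j s + 3 - 1 = ff j s + 2 by omega, h4, min_eq_right (by omega)]

/-- contexts of letters in `D`. -/
def Ctx (j r : ℕ) : Prop :=
  (∃ σ c, c < j ∧ DD j r = (σ, c) ∧ DD j (r - 1) = (!σ, j) ∧ DD j (r + 1) = (!σ, j)) ∨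
  (∃ σ b c, DD j r = (σ, j) ∧ DD j (r - 1) = (!σ, b) ∧ DD j (r + 1) = (!σ, c) ∧
    ((b = 0 ∧ 1 ≤ c) ∨ (1 ≤ b ∧ c = 0) ∨
      (b = j ∧ c = j ∧ 2 ≤ r ∧ DD j (r - 2) = (σ, 0) ∧ DD j (r + 2) = (σ, 0))))

theorem ctx {j : ℕ} (hj : 1 ≤ j) : ∀ {r : ℕ}, 1 ≤ r → Ctx j r := by
  intro r
  induction r using Nat.strong_induction_on with
  | _ r ih =>
  intro hr
  rcases cases_pos j r with ⟨s, σ, c, hc, h1, h2, h3⟩ | ⟨s, σ, h1, h2, h3, h4⟩ |
          ⟨s, σ, h1, h2, h3⟩ | ⟨s, σ, h1, h2, h3, h4⟩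
  · -- r = ff s, D s = (σ, c), c < j
    have hs : 1 ≤ s := by
      rcases Nat.eq_zero_or_pos s with h0 | h0
      · subst h0; rw [DD_zero] at h1
        have := (Prod.mk.inj h1).2; omega
      · exact h0
    have hsr : s < r := by have := ff_ge j hs; omega
    have hctx := ih s hsr hs
    have hnb : DD j (s - 1) = (!σ, j) ∧ DD j (s + 1) = (!σ, j) := by
      rcases hctx with ⟨σ', c', hc', e1, e2, e3⟩ | ⟨σ', b, c', e1, _⟩
      · rw [h1] at e1
        obtain ⟨rfl, rfl⟩ := Prod.mk.inj e1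
        exact ⟨e2, e3⟩
      · rw [h1] at e1
        have := (Prod.mk.inj e1).2; omega
    obtain ⟨a1, a2, a3, a4⟩ := ff_hub hnb.1
    obtain ⟨b1, b2, b3, b4⟩ := ff_hub hnb.2
    obtain ⟨_, c2⟩ := ff_lt h1 hc
    rw [Nat.sub_add_cancel hs] at a4
    have f1 : DD j (r - 1) = (!σ, j) := by
      rw [h2, a4, show ff j (s - 1) + 3 - 1 = ff j (s - 1) + 2 by omega, a3]
    have f2 : DD j (r + 1) = (!σ, j) := by rw [h2, ← c2, b1]
    rcases Nat.lt_or_ge (c + 1) j with hcj | hcj
    · left
      exact ⟨σ, c + 1, hcj, h3, f1, f2⟩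
    · right
      have hcj' : c + 1 = j := by omega
      refine ⟨σ, j, j, by rw [h3, hcj'], f1, f2, Or.inr (Or.inr ⟨rfl, rfl, ?_, ?_, ?_⟩)⟩
      · have := ff_ge j hs; omega
      · rw [h2, a4, show ff j (s - 1) + 3 - 2 = ff j (s - 1) + 1 by omega, a2]; simp
      · rw [h2, show ff j s + 2 = ff j (s + 1) + 1 by omega, b2]; simp
  · -- first letter of a hub
    right
    have hs : 1 ≤ s := by
      rcases Nat.eq_zero_or_pos s with h0 | h0
      · subst h0; simp at h2; omega
      · exact h0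
    have hsr : s < r := by have := ff_ge j hs; omega
    have hside : (DD j (s - 1)).1 = !σ := by
      rcases ih s hsr hs with ⟨σ', c', hc', e1, e2, e3⟩ | ⟨σ', b, c', e1, e2, _⟩
      · rw [h1] at e1
        have := (Prod.mk.inj e1).2; omega
      · rw [h1] at e1
        obtain ⟨rfl, _⟩ := Prod.mk.inj e1
        rw [e2]
    have hl := DD_ff_last j (s - 1)
    rw [Nat.sub_add_cancel hs, hside, ← h2] at hl
    refine ⟨σ, _, 0, h3, hl, h4, Or.inr (Or.inl ⟨?_, rfl⟩)⟩
    rw [le_min_iff]; omega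
  · left
    obtain ⟨a1, a2, a3, a4⟩ := ff_hub h1
    refine ⟨!σ, 0, by omega, h3, ?_, ?_⟩
    · rw [h2, Nat.add_sub_cancel, a1]; simp
    · rw [h2, a3]; simp
  · right
    obtain ⟨a1, a2, a3, a4⟩ := ff_hub h1
    have hside : (DD j (s + 1)).1 = !σ := by
      rcases Nat.eq_zero_or_pos s with h0 | h0
      · subst h0
        rw [DD_zero] at h1
        obtain ⟨rfl, _⟩ := Prod.mk.inj h1
        rw [DD_one]; rfl
      · have hsr : s < r := by have := ff_ge j h0; omega
        rcases ih s hsr h0 with ⟨σ', c', hc', e1, e2, e3⟩ | ⟨σ', b, c', e1, e2, e3, _⟩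
        · rw [h1] at e1
          have := (Prod.mk.inj e1).2; omega
        · rw [h1] at e1
          obtain ⟨rfl, _⟩ := Prod.mk.inj e1
          rw [e3]
    have hl := DD_ff j (s + 1)
    rw [hside, a4] at hl
    refine ⟨σ, 0, min ((DD j (s + 1)).2 + 1) j, h3, ?_, ?_, Or.inl ⟨rfl, ?_⟩⟩
    · rw [h2, show ff j s + 2 - 1 = ff j s + 1 by omega, a2]
    · rw [h2, ← hl]
    · rw [le_min_iff]; omega

/-- hub followed by index 0 starts the image of a hub. -/
theorem hub_zero {j s : ℕ} {σ : Bool} (hj : 1 ≤ j) (h : DD j s = (σ, j))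
    (h' : DD j (s + 1) = (!σ, 0)) : ∃ s', DD j s' = (σ, j) ∧ ff j s' = s := by
  rcases cases_pos j s with ⟨t, τ, c, hc, h1, h2, h3⟩ | ⟨t, τ, h1, h2, h3, h4⟩ |
          ⟨t, τ, h1, h2, h3⟩ | ⟨t, τ, h1, h2, h3, h4⟩
  · exfalso
    have ht := DD_ff j (t + 1)
    have h5 := (ff_lt h1 hc).2
    rw [h5, ← h2, h'] at ht
    have := (Prod.mk.inj ht).2
    have : 1 ≤ min ((DD j (t + 1)).2 + 1) j := by rw [le_min_iff]; omega
    omega
  · rw [h] at h3
    obtain ⟨rfl, _⟩ := Prod.mk.inj h3
    exact ⟨t, h1, h2.symm⟩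
  · rw [h] at h3
    have := (Prod.mk.inj h3).2
    omega
  · exfalso
    have ht := DD_ff j (t + 1)
    have h5 := (ff_hub h1).2.2.2
    rw [h5, show ff j t + 3 = s + 1 by omega, h'] at ht
    have := (Prod.mk.inj ht).2
    have : 1 ≤ min ((DD j (t + 1)).2 + 1) j := by rw [le_min_iff]; omega
    omega

/-- hub with both neighbours hubs comes from index `j - 1`. -/
theorem hub_jj {j s : ℕ} {σ : Bool} (hj : 1 ≤ j) (hs : 1 ≤ s) (h : DD j s = (σ, j))
    (h' : DD j (s + 1) = (!σ, j)) (h'' : DD j (s - 1) = (!σ, j)) :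
    ∃ s', DD j s' = (σ, j - 1) ∧ ff j s' = s := by
  rcases cases_pos j s with ⟨t, τ, c, hc, h1, h2, h3⟩ | ⟨t, τ, h1, h2, h3, h4⟩ |
          ⟨t, τ, h1, h2, h3⟩ | ⟨t, τ, h1, h2, h3, h4⟩
  · rw [h] at h3
    obtain ⟨rfl, h4⟩ := Prod.mk.inj h3
    exact ⟨t, by rw [h1, show j - 1 = c by omega], h2.symm⟩
  · exfalso
    rw [h'] at h4
    have := (Prod.mk.inj h4).2
    omega
  · rw [h] at h3
    have := (Prod.mk.inj h3).2
    omega
  · exfalso
    rw [show ff j t + 1 = s - 1 by omega, h''] at h4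
    have := (Prod.mk.inj h4).2
    omega

theorem idx_succ {j s c : ℕ} {σ : Bool} (hc : c + 1 < j) (h : DD j s = (σ, c + 1)) :
    ∃ s', DD j s' = (σ, c) ∧ ff j s' = s := by
  rcases cases_pos j s with ⟨t, τ, c', hc', h1, h2, h3⟩ | ⟨t, τ, h1, h2, h3, h4⟩ |
          ⟨t, τ, h1, h2, h3⟩ | ⟨t, τ, h1, h2, h3, h4⟩
  · rw [h] at h3
    obtain ⟨rfl, h4⟩ := Prod.mk.inj h3
    exact ⟨t, by rw [h1, show c' = c by omega], h2.symm⟩
  all_goals
    rw [h] at h3
    have := (Prod.mk.inj h3).2
    omega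

theorem idx_zero {j s : ℕ} {σ : Bool} (hj : 1 ≤ j) (h : DD j s = (σ, 0)) :
    ∃ s', DD j s' = (!σ, j) ∧ ff j s' + 1 = s := by
  rcases cases_pos j s with ⟨t, τ, c', hc', h1, h2, h3⟩ | ⟨t, τ, h1, h2, h3, h4⟩ |
          ⟨t, τ, h1, h2, h3⟩ | ⟨t, τ, h1, h2, h3, h4⟩
  · rw [h] at h3
    have := (Prod.mk.inj h3).2
    omega
  · rw [h] at h3
    have := (Prod.mk.inj h3).2
    omega
  · rw [h] at h3
    obtain ⟨rfl, _⟩ := Prod.mk.inj h3
    exact ⟨t, by simpa using h1, h2.symm⟩
  · rw [h] at h3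
    have := (Prod.mk.inj h3).2
    omega

end Pool.Agent.Helper20.Rich
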