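import Mathlib

/-!
Definitions for the repetition threshold of rich recurrent sequences.
-/

open scoped ENNReal

namespace Pool.Agent.Helper20.Rich

variable {α : Type*}

/-- A finite word `w` is rich if it has exactly `|w| + 1` different palindromic factors,
the empty word included. -/
def IsRichWord (w : List α) : Prop :=
  {p : List α | p <:+: w ∧ p.reverse = p}.ncard = w.length + 1

/-- The factor of length `n` of the sequence `u` that starts at position `i`. -/
def factor (u : ℕ → α) (i n : ℕ) : List α := (List.range n).map (fun k => u (i + k))

/-- A sequence is rich if all its factors are rich. -/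
def IsRich (u : ℕ → α) : Prop := ∀ i n, IsRichWord (factor u i n)

/-- A sequence is recurrent if every factor of it occurs infinitely often. -/
def IsRecurrent (u : ℕ → α) : Prop := ∀ i n N, ∃ m, N ≤ m ∧ factor u m n = factor u i n

/-- The least period of a word: the least `p ≥ 1` with `w_i = w_{i+p}` whenever both letters
exist. -/
noncomputable def leastPeriod (w : List α) : ℕ :=
  sInf {p | 1 ≤ p ∧ ∀ i, i + p < w.length → w[i]? = w[i + p]?}

/-- The exponent of a word: its length divided by its least period. -/
noncomputable def expo (w : List α) : ℝ≥0∞ := (w.length : ℝ≥0∞) / (leastPeriod w : ℝ≥0∞)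

/-- The critical exponent of a sequence: the supremum of the exponents of its nonempty factors. -/
noncomputable def critExp (u : ℕ → α) : ℝ≥0∞ :=
  ⨆ (i : ℕ) (n : ℕ) (_ : 1 ≤ n), expo (factor u i n)

/-- The repetition threshold of the class of rich recurrent sequences over `Fin d` in which all
`d` letters occur: the infimum of their critical exponents. -/
noncomputable def RT (d : ℕ) : ℝ≥0∞ :=
  ⨅ (u : ℕ → Fin d) (_ : Function.Surjective u ∧ IsRich u ∧ IsRecurrent u), critExp u

end Pool.Agent.Helper20.Rich
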