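import Pool.Agent.Helper20.Rich.RichPart2

/-!
Repetitions in the limit word.
-/

namespace Pool.Agent.Helper20.Rich

/-- a maximal repetition with period `p` in the window `[i, i + n + p)` -/
structure MaxMatch {α : Type*} (u : ℕ → α) (i p n : ℕ) : Prop where
  m : ∀ t < n, u (i + t) = u (i + p + t)
  left : i = 0 ∨ u (i - 1) ≠ u (i - 1 + p)
  right : u (i + n) ≠ u (i + n + p)

theorem MaxMatch.ext {α : Type*} {u : ℕ → α} {i p n : ℕ} (h : MaxMatch u i p n) {a m : ℕ}
    (ha : a ≤ i + n) (hb : i ≤ a + m) (hm : ∀ t < m, u (a + t) = u (a + p + t)) :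
    i ≤ a ∧ a + m ≤ i + n := by
  constructor
  · by_contra hcon
    push Not at hcon
    rcases h.left with h0 | h0
    · omega
    · apply h0
      have := hm (i - 1 - a) (by omega)
      rw [show a + (i - 1 - a) = i - 1 by omega, show a + p + (i - 1 - a) = i - 1 + p by omega]
        at this
      exact this
  · by_contra hcon
    push Not at hcon
    apply h.right
    have := hm (i + n - a) (by omega)
    rw [show a + (i + n - a) = i + n by omega, show a + p + (i + n - a) = i + n + p by omega]
      at this
    exact this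

namespace Base

variable {α : Type*} {b : Base α} {x0 : α}

theorem side_alt (r : ℕ) : (DD b.j (r + 1)).1 = !(DD b.j r).1 := by
  rcases Nat.eq_zero_or_pos r with h0 | h0
  · subst h0; rw [DD_zero, DD_one]; rfl
  · rcases ctx b.hj1 h0 with ⟨σ', c', hc', e1, e2, e3⟩ | ⟨σ', c1, c2, e1, e2, e3, e4⟩
    · rw [e3, e1]
    · rw [e3, e1]

theorem pos_hub {k s : ℕ} {σ : Bool} (h : DD b.j s = (σ, b.j)) :
    b.pos k (s + 1) = b.pos k s + b.l (k + b.j) := by rw [pos_succ, h]

theorem pos_idx {k s c : ℕ} {σ : Bool} (h : DD b.j s = (σ, c)) :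
    b.pos k (s + 1) = b.pos k s + b.l (k + c) := by rw [pos_succ, h]

/-- the shift of a hub in the window is a hub. -/
theorem shift_hub (h0 : b.NatBase x0) {i p n k s : ℕ} {σ : Bool} (hp : 1 ≤ p)
    (hm : ∀ t < n, b.u x0 (i + t) = b.u x0 (i + p + t)) (hs : DD b.j s = (σ, b.j))
    (h1 : i ≤ b.pos k s) (h2 : b.pos k (s + 1) ≤ i + n) :
    ∃ s', s < s' ∧ DD b.j s' = (σ, b.j) ∧ b.pos k s' = b.pos k s + p := by
  rw [pos_hub hs] at h2
  have hocc : Occ (b.u x0) (b.pos k s) (b.W σ (k + b.j)) := by
    have := pos_block x0 (b := b) k s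
    rwa [hs] at this
  have hocc' : Occ (b.u x0) (b.pos k s + p) (b.W σ (k + b.j)) := by
    apply Occ.of_get
    intro t ht
    rw [hocc.get' ht]
    rw [length_W] at ht
    have := hm (b.pos k s - i + t) (by omega)
    rw [show i + (b.pos k s - i + t) = b.pos k s + t by omega,
      show i + p + (b.pos k s - i + t) = b.pos k s + p + t by omega] at this
    rw [this]
  obtain ⟨s', h3, h4⟩ := nat_occ h0 k σ _ hocc'
  refine ⟨s', ?_, h3, h4⟩
  by_contra hcon
  have := pos_mono (b := b) k (show s' ≤ s by omega)
  omega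

theorem pos_two_le (k s : ℕ) : b.pos k s + 1 ≤ b.pos k (s + 2) := by
  have h1 := pos_succ (b := b) k s
  have h2 := pos_succ (b := b) k (s + 1)
  have h3 := b.l_pos (n := k + b.j) (by omega)
  have hle := DD_le b.j s
  rcases Nat.lt_or_ge (DD b.j s).2 b.j with hc | hc
  · have := sep_right (b := b) (σ := (DD b.j s).1) hc rfl
    rw [this] at h2
    simp only at h2
    rw [show s + 2 = s + 1 + 1 by rfl]
    omega
  · rw [show (DD b.j s).2 = b.j by omega] at h1
    rw [show s + 2 = s + 1 + 1 by rfl]
    omega

theorem pos_ge (k m : ℕ) : m ≤ b.pos k (2 * m) := by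
  induction m with
  | zero => simp
  | succ m ih =>
    have := pos_two_le (b := b) k (2 * m)
    rw [show 2 * (m + 1) = 2 * m + 2 by ring]
    omega

/-- hubs far to the right -/
theorem far_hub (k i : ℕ) : ∃ s σ, DD b.j s = (σ, b.j) ∧ i ≤ b.pos k s := by
  have h1 := pos_ge (b := b) k i
  have hle := DD_le b.j (2 * i)
  rcases Nat.lt_or_ge (DD b.j (2 * i)).2 b.j with hc | hc
  · have := sep_right (b := b) (σ := (DD b.j (2 * i)).1) hc rfl
    exact ⟨2 * i + 1, _, this, h1.trans (pos_mono k (by omega))⟩
  · refine ⟨2 * i, (DD b.j (2 * i)).1, ?_, h1⟩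
    ext
    · rfl
    · simp; omega

theorem not_periodic (h0 : b.NatBase x0) {i p : ℕ} (hp : 1 ≤ p) :
    ¬ ∀ t, b.u x0 (i + t) = b.u x0 (i + p + t) := by
  intro h
  obtain ⟨s, σ, h1, h2⟩ := far_hub (b := b) p i
  obtain ⟨s', h3, h4, h5⟩ := shift_hub h0 (n := b.pos p (s + 1)) hp (fun t _ => h t) h1 h2
    (by omega)
  have h6 := pos_mono (b := b) p (show s + 1 ≤ s' by omega)
  rw [pos_hub h1] at h6
  have := b.l_gt p
  omega

theorem exists_max (h0 : b.NatBase x0) {p : ℕ} (hp : 1 ≤ p) : ∀ (i n : ℕ),
    (∀ t < n, b.u x0 (i + t) = b.u x0 (i + p + t)) →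
    ∃ i' n', n ≤ n' ∧ MaxMatch (b.u x0) i' p n' := by
  intro i
  induction i with
  | zero =>
    intro n hn
    have := not_periodic h0 (i := 0) hp
    push Not at this
    classical
    have hex : ∃ m, b.u x0 (0 + m) ≠ b.u x0 (0 + p + m) := this
    refine ⟨0, Nat.find hex, ?_, ?_, Or.inl rfl, ?_⟩
    · by_contra hcon
      exact Nat.find_spec hex (hn _ (by omega))
    · intro t ht
      have := Nat.find_min hex ht
      push Not at this
      exact this
    · have := Nat.find_spec hex
      rwa [show 0 + p + Nat.find hex = 0 + Nat.find hex + p by omega] at this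
  | succ i ih =>
    intro n hn
    by_cases hl : b.u x0 i = b.u x0 (i + p)
    · obtain ⟨i', n', h1, h2⟩ := ih (n + 1) (by
        intro t ht
        rcases Nat.eq_zero_or_pos t with h | h
        · subst h; simpa using hl
        · have := hn (t - 1) (by omega)
          rw [show i + 1 + (t - 1) = i + t by omega,
            show i + 1 + p + (t - 1) = i + p + t by omega] at this
          exact this)
      exact ⟨i', n', by omega, h2⟩
    · have := not_periodic h0 (i := i + 1) hp
      push Not at this
      classical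
      have hex : ∃ m, b.u x0 (i + 1 + m) ≠ b.u x0 (i + 1 + p + m) := this
      refine ⟨i + 1, Nat.find hex, ?_, ?_, Or.inr (by simpa using hl), ?_⟩
      · by_contra hcon
        exact Nat.find_spec hex (hn _ (by omega))
      · intro t ht
        have := Nat.find_min hex ht
        push Not at this
        exact this
      · have := Nat.find_spec hex
        rwa [show i + 1 + p + Nat.find hex = i + 1 + Nat.find hex + p by omega] at this

/-- a matched block that touches the window lies in it. -/
theorem block_in {i p n k r r' : ℕ} (h : MaxMatch (b.u x0) i p n) (hr : DD b.j r' = DD b.j r)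
    (hpos : b.pos k r' = b.pos k r + p) (h1 : b.pos k r ≤ i + n) (h2 : i ≤ b.pos k (r + 1)) :
    i ≤ b.pos k r ∧ b.pos k (r + 1) ≤ i + n := by
  have e1 := pos_block x0 (b := b) k r
  have e2 := pos_block x0 (b := b) k r'
  rw [hr, hpos] at e2
  have e3 := pos_succ (b := b) k r
  rw [e3] at h2 ⊢
  apply h.ext h1 h2
  intro t ht
  have f1 := e1.get' (t := t) (by rw [length_W]; exact ht)
  have f2 := e2.get' (t := t) (by rw [length_W]; exact ht)
  rw [f1] at f2
  exact Option.some.inj f2

/-- data of the matched hubs at level `k`, no hub of level `k + 1` in the window. -/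
structure HubPair (b : Base α) (x0 : α) (i p n k s s' : ℕ) (σ : Bool) : Prop where
  mm : MaxMatch (b.u x0) i p n
  hp : 1 ≤ p
  hs : DD b.j s = (σ, b.j)
  hs' : DD b.j s' = (σ, b.j)
  hpos : b.pos k s' = b.pos k s + p
  hl : i ≤ b.pos k s
  hr : b.pos k (s + 1) ≤ i + n
  hno : ∀ r τ, DD b.j r = (τ, b.j) → i ≤ b.pos (k + 1) r → b.pos (k + 1) (r + 1) ≤ i + n → False

namespace HubPair

variable {i p n k s s' : ℕ} {σ : Bool}

theorem lt (h : HubPair b x0 i p n k s s' σ) : s < s' := by
  by_contra hcon
  have := pos_mono (b := b) k (show s' ≤ s by omega)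
  have h1 := h.hpos
  have h2 := h.hp
  omega

theorem R0 (h : HubPair b x0 i p n k s s' σ) (h1 : DD b.j (s + 1) = (!σ, 0))
    (h2 : DD b.j (s' + 1) = (!σ, 0)) : False := by
  obtain ⟨r, e1, e2⟩ := hub_zero b.hj1 h.hs h1
  obtain ⟨r', e1', e2'⟩ := hub_zero b.hj1 h.hs' h2
  have f1 : b.pos (k + 1) r = b.pos k s := by rw [pos_ff, e2]
  have f2 : b.pos (k + 1) r' = b.pos k s' := by rw [pos_ff, e2']
  have f3 := pos_mono (b := b) (k + 1) (show r ≤ r + 1 by omega)
  have f4 := pos_mono (b := b) k (show s ≤ s + 1 by omega)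
  have hl := h.hl
  have hr := h.hr
  have hpos := h.hpos
  have := block_in h.mm (k := k + 1) (r := r) (r' := r') (by rw [e1, e1']) (by omega) (by omega)
    (by omega)
  exact h.hno r σ e1 this.1 this.2

theorem L0 (h : HubPair b x0 i p n k s s' σ) (hs1 : 1 ≤ s) (h1 : DD b.j (s - 1) = (!σ, 0))
    (h2 : DD b.j (s' - 1) = (!σ, 0)) : False := by
  have hj := b.hj
  have key : ∀ t, DD b.j (t - 1) = (!σ, 0) → 1 ≤ t →
      ∃ r, DD b.j r = (σ, b.j) ∧ b.pos (k + 1) (r + 1) = b.pos k (t + 1) := by
    intro t ht ht1
    obtain ⟨h3, h4⟩ := sep_left (b := b) (by omega) ht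
    rw [Bool.not_not] at h4
    obtain ⟨r, e1, e2⟩ := hub_zero b.hj1 h4 (by rw [Nat.sub_add_cancel h3]; exact ht)
    refine ⟨r, e1, ?_⟩
    rw [pos_ff, (ff_hub e1).2.2.2, e2]
    congr 1
    omega
  obtain ⟨r, e1, e2⟩ := key s h1 hs1
  have hlt := h.lt
  obtain ⟨r', e1', e2'⟩ := key s' h2 (by omega)
  have g1 := pos_hub (b := b) (k := k) h.hs
  have g2 := pos_hub (b := b) (k := k) h.hs'
  have g3 := pos_hub (b := b) (k := k + 1) e1
  have g4 := pos_hub (b := b) (k := k + 1) e1'
  have hl := h.hl
  have hr := h.hr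
  have hpos := h.hpos
  have := block_in h.mm (k := k + 1) (r := r) (r' := r') (by rw [e1, e1']) (by omega) (by omega)
    (by omega)
  exact h.hno r σ e1 this.1 this.2

theorem JJ (h : HubPair b x0 i p n k s s' σ) (hs1 : 1 ≤ s) (h1 : DD b.j (s - 1) = (!σ, b.j))
    (h2 : DD b.j (s' - 1) = (!σ, b.j)) (h3 : DD b.j (s + 1) = (!σ, b.j))
    (h4 : DD b.j (s' + 1) = (!σ, b.j)) : False := by
  have hj := b.hj
  have hlt := h.lt
  obtain ⟨r, e1, e2⟩ := hub_jj b.hj1 hs1 h.hs h3 h1
  obtain ⟨r', e1', e2'⟩ := hub_jj b.hj1 (by omega) h.hs' h4 h2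
  have f1 := sep_right (b := b) (by omega) e1
  have f1' := sep_right (b := b) (by omega) e1'
  have f2 := (ff_lt e1 (by omega)).2
  have f2' := (ff_lt e1' (by omega)).2
  have g1 : b.pos (k + 1) (r + 1) = b.pos k (s + 1) := by rw [pos_ff, f2, e2]
  have g1' : b.pos (k + 1) (r' + 1) = b.pos k (s' + 1) := by rw [pos_ff, f2', e2']
  have g2 := pos_hub (b := b) (k := k) h.hs
  have g3 := pos_hub (b := b) (k := k) h.hs'
  have g4 := pos_mono (b := b) (k + 1) (show r + 1 ≤ r + 1 + 1 by omega)
  have hl := h.hl
  have hr := h.hr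
  have hpos := h.hpos
  have := block_in h.mm (k := k + 1) (r := r + 1) (r' := r' + 1) (by rw [f1, f1']) (by omega)
    (by omega) (by omega)
  exact h.hno (r + 1) _ f1 this.1 this.2

/-- the right neighbour as a new pair, if it is a matched hub. -/
theorem right (h : HubPair b x0 i p n k s s' σ) (h1 : DD b.j (s + 1) = (!σ, b.j))
    (h2 : DD b.j (s' + 1) = (!σ, b.j)) : HubPair b x0 i p n k (s + 1) (s' + 1) (!σ) := by
  have g1 := pos_hub (b := b) (k := k) h.hs
  have g2 := pos_hub (b := b) (k := k) h.hs'
  have g4 := pos_mono (b := b) k (show s + 1 ≤ s + 1 + 1 by omega)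
  have hl := h.hl
  have hr := h.hr
  have hpos := h.hpos
  have := block_in h.mm (k := k) (r := s + 1) (r' := s' + 1) (by rw [h1, h2]) (by omega)
    (by omega) (by omega)
  exact ⟨h.mm, h.hp, h1, h2, by omega, this.1, this.2, h.hno⟩

theorem left (h : HubPair b x0 i p n k s s' σ) (hs1 : 1 ≤ s) (h1 : DD b.j (s - 1) = (!σ, b.j))
    (h2 : DD b.j (s' - 1) = (!σ, b.j)) : HubPair b x0 i p n k (s - 1) (s' - 1) (!σ) := by
  have hlt := h.lt
  have g1 := pos_hub (b := b) (k := k) h1
  have g2 := pos_hub (b := b) (k := k) h2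
  rw [Nat.sub_add_cancel hs1] at g1
  rw [Nat.sub_add_cancel (by omega)] at g2
  have g4 := pos_mono (b := b) k (show s ≤ s + 1 by omega)
  have hl := h.hl
  have hr := h.hr
  have hpos := h.hpos
  have := block_in h.mm (k := k) (r := s - 1) (r' := s' - 1) (by rw [h1, h2]) (by omega)
    (by omega) (by rw [Nat.sub_add_cancel hs1]; omega)
  exact ⟨h.mm, h.hp, h1, h2, by omega, this.1, this.2, h.hno⟩

theorem right_T (h : HubPair b x0 i p n k s s' σ) {c c' : ℕ} (h1 : DD b.j (s + 1) = (!σ, c))
    (h2 : DD b.j (s' + 1) = (!σ, c')) (hne : c ≠ c') :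
    i + n ≤ b.pos k (s + 1) + b.TT k (min c c') (max c c') := by
  have hc := DD_le b.j (s + 1)
  have hc' := DD_le b.j (s' + 1)
  rw [h1] at hc
  rw [h2] at hc'
  simp only at hc hc'
  have e1 := nw_right (x0 := x0) (k := k) h.hs h1
  have e2 := nw_right (x0 := x0) (k := k) h.hs' h2
  have g1 := pos_hub (b := b) (k := k) h.hs
  have hmis : Mis (b.nw k σ c) (b.nw k σ c') (b.TT k (min c c') (max c c')) := by
    rcases Nat.lt_or_gt_of_ne hne with hlt | hlt
    · rw [min_eq_left hlt.le, max_eq_right hlt.le]
      exact nw_mis k σ hlt hc'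
    · rw [min_eq_right hlt.le, max_eq_left hlt.le]
      exact (nw_mis k σ hlt hc).symm
  have hl := h.hl
  have hr := h.hr
  have hpos := h.hpos
  have := mis_bound e1 e2 hmis (n := i + n - b.pos k (s + 1)) (by
    intro t ht
    have := h.mm.m (b.pos k s + b.l (k + b.j) + t - i) (by omega)
    rw [show i + (b.pos k s + b.l (k + b.j) + t - i) = b.pos k s + b.l (k + b.j) + t by omega,
      show i + p + (b.pos k s + b.l (k + b.j) + t - i) = b.pos k s' + b.l (k + b.j) + t by omega]
      at this
    exact this)
  omega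

theorem left_T (h : HubPair b x0 i p n k s s' σ) (hs1 : 1 ≤ s) {c c' : ℕ}
    (h1 : DD b.j (s - 1) = (!σ, c)) (h2 : DD b.j (s' - 1) = (!σ, c')) (hne : c ≠ c') :
    b.pos k s ≤ i + b.TT k (min c c') (max c c') := by
  have hlt := h.lt
  have hc := DD_le b.j (s - 1)
  have hc' := DD_le b.j (s' - 1)
  rw [h1] at hc
  rw [h2] at hc'
  simp only at hc hc'
  have hmis : Mis (b.nw k σ c) (b.nw k σ c') (b.TT k (min c c') (max c c')) := by
    rcases Nat.lt_or_gt_of_ne hne with hlt | hlt
    · rw [min_eq_left hlt.le, max_eq_right hlt.le]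
      exact nw_mis k σ hlt hc'
    · rw [min_eq_right hlt.le, max_eq_left hlt.le]
      exact (nw_mis k σ hlt hc).symm
  obtain ⟨t, ht, a1, a2, e1, e2, e3⟩ := hmis
  have f1 := nw_left (x0 := x0) (k := k) (σ := σ) hs1 h1 e1
  have f2 := nw_left (x0 := x0) (k := k) (σ := σ) (s := s') (by omega) h2 e2
  by_contra hcon
  have hr := h.hr
  have hpos := h.hpos
  have g1 := pos_hub (b := b) (k := k) h.hs
  apply e3
  rw [← f1.2, ← f2.2]
  have := h.mm.m (b.pos k s - 1 - t - i) (by omega)
  rw [show i + (b.pos k s - 1 - t - i) = b.pos k s - 1 - t by omega,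
    show i + p + (b.pos k s - 1 - t - i) = b.pos k s' - 1 - t by omega] at this
  exact this

theorem dist (h : HubPair b x0 i p n k s s' σ) : s' = s + 2 ∨ s + 4 ≤ s' := by
  have hlt := h.lt
  have a0 : (DD b.j s).1 = σ := by rw [h.hs]
  have a1 := side_alt (b := b) s
  have a2 := side_alt (b := b) (s + 1)
  have a3 := side_alt (b := b) (s + 1 + 1)
  rw [a0] at a1
  rw [a1, Bool.not_not] at a2
  rw [a2] at a3
  by_contra hcon
  have : s' = s + 1 ∨ s' = s + 3 := by omega
  rcases this with rfl | rfl
  · rw [h.hs'] at a1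
    cases σ <;> simp at a1
  · rw [show s + 1 + 1 + 1 = s + 3 by rfl, h.hs'] at a3
    cases σ <;> simp at a3

end HubPair

/-- conditions on the lengths -/
structure ExpHyp (b : Base α) (x0 : α) (ε : ℝ) : Prop where
  h0 : b.NatBase x0
  eps : 0 ≤ ε
  hb : ∀ k c c', c < c' → c' ≤ b.j → 2 * (b.TT k c c' : ℝ) ≤ (1 + ε) * (b.l (k + b.j) + 1)
  hc : ∀ k, 2 * (b.S k : ℝ) ≤ (1 + ε) * (b.l (k + b.j) + b.l k)
  he : ∀ k c, 1 ≤ c → c ≤ b.j → 1 ≤ b.l k + b.l (k + c)
  hd1 : ∀ k c, 1 ≤ c → c ≤ b.j →
    (b.l (k + b.j) : ℝ) + 2 * b.TT k 0 c ≤ (1 + ε) * (b.l (k + b.j) + b.l (k + c))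
  hd0 : ∀ k x c, 1 ≤ x → x ≤ b.j → 1 ≤ c → c ≤ b.j → ¬ (x = 1 ∧ c = 1) →
    (b.l (k + b.j) : ℝ) + b.TT k 0 x + b.TT k 0 c ≤ (1 + ε) * (b.l (k + b.j) + b.l k)
  hn : ∀ i p n, 1 ≤ p → (∀ t < n, b.u x0 (i + t) = b.u x0 (i + p + t)) →
    (∀ r τ, DD b.j r = (τ, b.j) → i ≤ b.pos 0 r → b.pos 0 (r + 1) ≤ i + n → False) →
    (n : ℝ) ≤ (1 + ε) * p

theorem TT_zero_j (k : ℕ) : b.TT k 0 b.j = b.S k := by
  unfold TT
  rw [if_neg (by omega), add_zero]

theorem no11 {s : ℕ} {σ : Bool} (hs1 : 1 ≤ s) (hs : DD b.j s = (σ, b.j))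
    (h1 : DD b.j (s - 1) = (!σ, 1)) (h2 : DD b.j (s + 1) = (!σ, 0))
    (h3 : DD b.j (s + 3) = (!σ, 1)) : False := by
  have hj := b.hj
  obtain ⟨r, e1, e2⟩ := hub_zero b.hj1 hs h2
  have hr : 1 ≤ r := by
    rcases Nat.eq_zero_or_pos r with h | h
    · subst h; rw [ff_zero] at e2; omega
    · exact h
  obtain ⟨c, c', f1, f2, f3⟩ := side_hub (b := b) hr e1
  have g1 := DD_ff_last b.j (r - 1)
  rw [Nat.sub_add_cancel hr, e2, h1, f1] at g1
  have g2 := DD_ff b.j (r + 1)
  rw [(ff_hub e1).2.2.2, e2, h3, f2] at g2
  have g3 := (Prod.mk.inj g1).2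
  have g4 := (Prod.mk.inj g2).2
  simp only at g3 g4
  omega

theorem pos_four {s k : ℕ} {σ : Bool} (hs : DD b.j s = (σ, b.j))
    (he : ∀ k c, 1 ≤ c → c ≤ b.j → 1 ≤ b.l k + b.l (k + c)) :
    b.pos k s + 2 * b.l (k + b.j) + 1 ≤ b.pos k (s + 4) := by
  have hj := b.hj
  have hL := b.l_pos (n := k + b.j) (by omega)
  obtain ⟨c1, h1, h1'⟩ := side_right (b := b) hs
  have e0 := pos_hub (b := b) (k := k) hs
  have e1 := pos_idx (b := b) (k := k) h1
  have e3 := pos_succ (b := b) k (s + 1 + 1 + 1)
  rw [show s + 4 = s + 1 + 1 + 1 + 1 by rfl]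
  rcases Nat.lt_or_ge c1 b.j with h | h
  · have h2 := sep_right h h1
    rw [Bool.not_not] at h2
    have e2 := pos_hub (b := b) (k := k) h2
    obtain ⟨c, c', f1, f2, f3⟩ := side_hub (b := b) (by omega) h2
    rw [Nat.add_sub_cancel, h1] at f1
    have g1 := (Prod.mk.inj f1).2
    have hc' := DD_le b.j (s + 1 + 1 + 1)
    rw [f2] at e3 hc'
    simp only at e3 hc'
    rcases f3 with ⟨h4, h5⟩ | ⟨h4, h5⟩ | ⟨h4, _⟩
    · have := he k c' h5 hc'
      rw [g1, h4, add_zero] at e1
      omega
    · have := he k c1 (by omega) h.le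
      rw [h5, add_zero] at e3
      omega
    · omega
  · have hc1 : c1 = b.j := by omega
    subst hc1
    obtain ⟨c2, h2, h2'⟩ := side_right (b := b) h1
    have e2 := pos_idx (b := b) (k := k) h2
    rcases Nat.lt_or_ge c2 b.j with h' | h'
    · have h3 := sep_right h' h2
      rw [h3] at e3
      simp only at e3
      omega
    · have hc2 : c2 = b.j := by omega
      subst hc2
      omega

theorem HubPair.bound {ε : ℝ} (H : ExpHyp b x0 ε) {i p n k s s' : ℕ} {σ : Bool}
    (h : HubPair b x0 i p n k s s' σ) : (n : ℝ) ≤ (1 + ε) * p := by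
  have hj := b.hj
  have hlt := h.lt
  have hpos := h.hpos
  have heps := H.eps
  have hl := h.hl
  have hr := h.hr
  have hHub := pos_hub (b := b) (k := k) h.hs
  obtain ⟨c, hc, hcj⟩ := side_right (b := b) h.hs
  obtain ⟨c', hc', hcj'⟩ := side_right (b := b) h.hs'
  -- bound when the hubs are far apart
  have far : ∀ T1 T2 : ℕ, n ≤ b.l (k + b.j) + T1 + T2 → s + 4 ≤ s' →
      2 * (T1 : ℝ) ≤ (1 + ε) * (b.l (k + b.j) + 1) → 2 * (T2 : ℝ) ≤ (1 + ε) * (b.l (k + b.j) + 1) →
      (n : ℝ) ≤ (1 + ε) * p := by
    intro T1 T2 h1 h2 h3 h4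
    have h5 := pos_four (b := b) (k := k) h.hs H.he
    have h6 := pos_mono (b := b) k h2
    have h7 : 2 * b.l (k + b.j) + 1 ≤ p := by omega
    have h8 : (2 * b.l (k + b.j) + 1 : ℝ) ≤ p := by exact_mod_cast h7
    have h9 : (n : ℝ) ≤ b.l (k + b.j) + T1 + T2 := by exact_mod_cast h1
    have hL : (0 : ℝ) ≤ b.l (k + b.j) := by positivity
    nlinarith
  -- bound in the cases with two hubs
  have two : n ≤ 2 * b.l (k + b.j) + 2 * b.S k → 3 * b.l (k + b.j) + b.l k ≤ p →
      (n : ℝ) ≤ (1 + ε) * p := by
    intro h1 h2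
    have h3 := H.hc k
    have h4 : (n : ℝ) ≤ 2 * b.l (k + b.j) + 2 * b.S k := by exact_mod_cast h1
    have h5 : (3 * b.l (k + b.j) + b.l k : ℝ) ≤ p := by exact_mod_cast h2
    have hL : (0 : ℝ) ≤ b.l (k + b.j) := by positivity
    have hL' : (0 : ℝ) ≤ b.l k := by positivity
    nlinarith
  rcases Nat.eq_zero_or_pos s with hs0 | hs1
  · -- the first hub
    subst hs0
    have hs := h.hs
    rw [DD_zero] at hs
    obtain ⟨rfl, _⟩ := Prod.mk.inj hs
    rw [DD_one] at hc
    obtain ⟨_, rfl⟩ := Prod.mk.inj hc
    have hc0 : c' ≠ 0 := by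
      rintro rfl
      exact h.R0 (by rw [DD_one]; rfl) hc'
    have hT := h.right_T (c := 0) (c' := c') (by rw [DD_one]; rfl) hc' (by omega)
    rw [min_eq_left (by omega), max_eq_right (by omega)] at hT
    rw [pos_zero] at hl
    rw [zero_add, pos_one] at hT
    rcases h.dist with hd | hd
    · rw [zero_add] at hd
      subst hd
      rw [pos_two, pos_zero, zero_add] at hpos
      have h1 := H.hd0 k 2 c' (by omega) (by omega) (by omega) hcj' (by omega)
      have h2 : (n : ℝ) ≤ b.l (k + b.j) + b.TT k 0 c' := by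
        have : n ≤ b.l (k + b.j) + b.TT k 0 c' := by omega
        exact_mod_cast this
      have h3 : (0 : ℝ) ≤ b.TT k 0 2 := by positivity
      have h4 : (p : ℝ) = b.l (k + b.j) + b.l k := by exact_mod_cast hpos.symm
      rw [h4]
      linarith
    · exact far (b.TT k 0 c') 0 (by omega) hd (H.hb k 0 c' (by omega) hcj') (by simp; positivity)
  · obtain ⟨x, y, e1, e2, e3⟩ := side_hub (b := b) hs1 h.hs
    obtain ⟨x', y', e1', e2', e3'⟩ := side_hub (b := b) (by omega) h.hs'
    have hy : y = c := by rw [hc] at e2; exact ((Prod.mk.inj e2).2).symm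
    have hy' : y' = c' := by rw [hc'] at e2'; exact ((Prod.mk.inj e2').2).symm
    subst hy hy'
    have hxj := DD_le b.j (s - 1)
    have hxj' := DD_le b.j (s' - 1)
    rw [e1] at hxj
    rw [e1'] at hxj'
    simp only at hxj hxj'
    by_cases hcc : y = y'
    · subst hcc
      by_cases hy0 : y = 0
      · subst hy0
        exact (h.R0 hc hc').elim
      · by_cases hxx : x = x'
        · subst hxx
          by_cases hx0 : x = 0
          · subst hx0
            exact (h.L0 hs1 e1 e1').elim
          · have : x = b.j ∧ y = b.j := by omega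
            obtain ⟨rfl, rfl⟩ := this
            exact (h.JJ hs1 e1 e1' hc hc').elim
        · -- C2
          by_cases hx0 : x = 0
          · subst hx0
            obtain ⟨rfl, rfl, f1, f2, f3⟩ : x' = b.j ∧ y = b.j ∧ 2 ≤ s' ∧
                DD b.j (s' - 2) = (σ, 0) ∧ DD b.j (s' + 2) = (σ, 0) := by
              rcases e3' with h4 | h4 | h4
              · omega
              · omega
              · exact h4
            have hR := h.right hc hc'
            obtain ⟨d, g1, g1'⟩ := side_right (b := b) hR.hs
            have hd0 : d ≠ 0 := by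
              rintro rfl
              exact hR.R0 g1 (by rw [Bool.not_not]; exact f3)
            have hT := hR.right_T g1 (c' := 0) (by rw [Bool.not_not]; exact f3) hd0
            rw [min_eq_right (by omega), max_eq_left (by omega)] at hT
            have hT' := h.left_T hs1 e1 e1' (by omega)
            rw [min_eq_left (by omega), max_eq_right (by omega)] at hT'
            obtain ⟨z, w, k1, k2, k3⟩ := side_hub (b := b) (s := s + 1) (by omega) hR.hs
            rw [Nat.add_sub_cancel, h.hs] at k1
            rw [g1] at k2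
            have hz := (Prod.mk.inj k1).2
            have hw := (Prod.mk.inj k2).2
            subst hz hw
            obtain ⟨_, rfl, _, _, k5⟩ : b.j = b.j ∧ d = b.j ∧ 2 ≤ s + 1 ∧
                DD b.j (s + 1 - 2) = (!σ, 0) ∧ DD b.j (s + 1 + 2) = (!σ, 0) := by
              rcases k3 with h4 | h4 | h4
              · omega
              · omega
              · exact h4
            rw [TT_zero_j] at hT hT'
            have p1 := pos_hub (b := b) (k := k) hR.hs
            have p2 := pos_hub (b := b) (k := k) (s := s + 1 + 1) g1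
            have p3 := pos_idx (b := b) (k := k) (s := s + 1 + 1 + 1) k5
            rw [add_zero] at p3
            have hd := h.dist
            have hne : s' ≠ s + 2 := by
              rintro rfl
              have : DD b.j (s + 2 + 1) = (!σ, 0) := k5
              rw [hc'] at this
              have := (Prod.mk.inj this).2
              omega
            have hm := pos_mono (b := b) k (show s + 1 + 1 + 1 + 1 ≤ s' by omega)
            exact two (by omega) (by omega)
          · obtain ⟨rfl, rfl, f1, f2, f3⟩ : x = b.j ∧ y = b.j ∧ 2 ≤ s ∧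
                DD b.j (s - 2) = (σ, 0) ∧ DD b.j (s + 2) = (σ, 0) := by
              rcases e3 with h4 | h4 | h4
              · omega
              · omega
              · exact h4
            have hx0' : x' = 0 := by omega
            subst hx0'
            have hR := h.right hc hc'
            obtain ⟨d, g1, g1'⟩ := side_right (b := b) hR.hs'
            have hd0 : d ≠ 0 := by
              rintro rfl
              exact hR.R0 (by rw [Bool.not_not]; exact f3) g1
            have hT := hR.right_T (c := 0) (by rw [Bool.not_not]; exact f3) g1 (by omega)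
            rw [min_eq_left (by omega), max_eq_right (by omega)] at hT
            have hT' := h.left_T hs1 e1 e1' (by omega)
            rw [min_eq_right (by omega), max_eq_left (by omega)] at hT'
            obtain ⟨z, w, k1, k2, k3⟩ := side_hub (b := b) (s := s' + 1) (by omega) hR.hs'
            rw [Nat.add_sub_cancel, h.hs'] at k1
            rw [g1] at k2
            have hz := (Prod.mk.inj k1).2
            have hw := (Prod.mk.inj k2).2
            subst hz hw
            obtain rfl : d = b.j := by
              rcases k3 with h4 | h4 | h4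
              · omega
              · omega
              · exact h4.2.1
            rw [TT_zero_j] at hT hT'
            have p1 := pos_hub (b := b) (k := k) hR.hs
            have p2 := pos_idx (b := b) (k := k) (s := s + 1 + 1) f3
            have q3 := sep_right (b := b) (s := s + 2) (by omega) f3
            have p3 := pos_hub (b := b) (k := k) (s := s + 1 + 1 + 1) q3
            rw [add_zero] at p2
            have hd := h.dist
            have hne : s' ≠ s + 2 := by
              rintro rfl
              rw [h.hs'] at f3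
              have := (Prod.mk.inj f3).2
              omega
            have hm := pos_mono (b := b) k (show s + 1 + 1 + 1 + 1 ≤ s' by omega)
            exact two (by omega) (by omega)
    · by_cases hxx : x = x'
      · -- C3
        subst hxx
        have hx0 : x ≠ 0 := by
          rintro rfl
          exact h.L0 hs1 e1 e1'
        have hxj : x = b.j := by omega
        subst hxj
        have hR := h.left hs1 e1 e1'
        have hs2 : 2 ≤ s := by
          by_contra hcon
          have : s = 1 := by omega
          subst this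
          have := h.hs
          rw [DD_one] at this
          have := (Prod.mk.inj this).2
          omega
        have hT := h.right_T hc hc' hcc
        by_cases hy0 : y = 0
        · subst hy0
          obtain ⟨_, rfl, f1, f2, f3⟩ : b.j = b.j ∧ y' = b.j ∧ 2 ≤ s' ∧
              DD b.j (s' - 2) = (σ, 0) ∧ DD b.j (s' + 2) = (σ, 0) := by
            rcases e3' with h4 | h4 | h4
            · omega
            · omega
            · exact h4
          rw [min_eq_left (by omega), max_eq_right (by omega)] at hT
          obtain ⟨d, w, k1, k2, k3⟩ := side_hub (b := b) (s := s - 1) (by omega) hR.hs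
          rw [Nat.sub_add_cancel hs1, h.hs] at k2
          rw [Bool.not_not] at k1
          have hw := (Prod.mk.inj k2).2
          subst hw
          have hd0 : d ≠ 0 := by
            rintro rfl
            refine hR.L0 (by omega) (by rw [Bool.not_not]; exact k1) ?_
            rw [Bool.not_not, Nat.sub_sub]
            exact f2
          obtain rfl : d = b.j := by omega
          have hT' := hR.left_T (by omega) (c := b.j) (c' := 0) (by rw [Bool.not_not]; exact k1)
            (by rw [Bool.not_not, Nat.sub_sub]; exact f2) (by omega)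
          rw [min_eq_right (by omega), max_eq_left (by omega)] at hT'
          rw [TT_zero_j] at hT hT'
          have p1 := pos_hub (b := b) (k := k) (s := s - 1) hR.hs
          rw [Nat.sub_add_cancel hs1] at p1
          have hd := h.dist
          have hne : s' ≠ s + 2 := by
            rintro rfl
            rw [Nat.add_sub_cancel, h.hs] at f2
            have := (Prod.mk.inj f2).2
            omega
          obtain ⟨t, rfl⟩ : ∃ t, s' = t + 3 := ⟨s' - 3, by omega⟩
          have q1 : DD b.j (t + 1 + 1) = (!σ, b.j) := e1'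
          have q2 : DD b.j (t + 1) = (σ, 0) := f2
          have q3 := (sep_left (b := b) (by omega) q2).2
          rw [Nat.add_sub_cancel] at q3
          have r1 := pos_hub (b := b) (k := k) q1
          have r2 := pos_idx (b := b) (k := k) q2
          have r3 := pos_hub (b := b) (k := k) q3
          rw [add_zero] at r2
          have hm := pos_mono (b := b) k (show s + 1 ≤ t by omega)
          rw [show t + 3 = t + 1 + 1 + 1 by rfl] at hpos
          exact two (by omega) (by omega)
        · obtain ⟨_, rfl, f1, f2, f3⟩ : b.j = b.j ∧ y = b.j ∧ 2 ≤ s ∧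
              DD b.j (s - 2) = (σ, 0) ∧ DD b.j (s + 2) = (σ, 0) := by
            rcases e3 with h4 | h4 | h4
            · omega
            · omega
            · exact h4
          have hy0' : y' = 0 := by omega
          subst hy0'
          rw [min_eq_right (by omega), max_eq_left (by omega)] at hT
          obtain ⟨d, w, k1, k2, k3⟩ := side_hub (b := b) (s := s' - 1) (by omega) hR.hs'
          rw [Nat.sub_add_cancel (by omega), h.hs'] at k2
          rw [Bool.not_not] at k1
          have hw := (Prod.mk.inj k2).2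
          subst hw
          have hd0 : d ≠ 0 := by
            rintro rfl
            refine hR.L0 (by omega) ?_ (by rw [Bool.not_not]; exact k1)
            rw [Bool.not_not, Nat.sub_sub]
            exact f2
          obtain ⟨rfl, _, _, k4, _⟩ : d = b.j ∧ b.j = b.j ∧ 2 ≤ s' - 1 ∧
              DD b.j (s' - 1 - 2) = (!σ, 0) ∧ DD b.j (s' - 1 + 2) = (!σ, 0) := by
            rcases k3 with h4 | h4 | h4
            · omega
            · omega
            · exact h4
          have hT' := hR.left_T (by omega) (c := 0) (c' := b.j)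
            (by rw [Bool.not_not, Nat.sub_sub]; exact f2) (by rw [Bool.not_not]; exact k1)
            (by omega)
          rw [min_eq_left (by omega), max_eq_right (by omega)] at hT'
          rw [TT_zero_j] at hT hT'
          have p1 := pos_hub (b := b) (k := k) (s := s - 1) hR.hs
          rw [Nat.sub_add_cancel hs1] at p1
          have hd := h.dist
          have hne : s' ≠ s + 2 := by
            rintro rfl
            rw [h.hs'] at f3
            have := (Prod.mk.inj f3).2
            omega
          obtain ⟨t, rfl⟩ : ∃ t, s' = t + 3 := ⟨s' - 3, by omega⟩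
          have q1 : DD b.j (t + 1 + 1) = (!σ, b.j) := e1'
          have q2 : DD b.j (t + 1) = (σ, b.j) := k1
          have q3 : DD b.j t = (!σ, 0) := by
            rw [Nat.sub_sub] at k4
            exact k4
          have r1 := pos_hub (b := b) (k := k) q1
          have r2 := pos_hub (b := b) (k := k) q2
          have r3 := pos_idx (b := b) (k := k) q3
          rw [add_zero] at r3
          have hm := pos_mono (b := b) k (show s + 1 ≤ t by omega)
          rw [show t + 3 = t + 1 + 1 + 1 by rfl] at hpos
          exact two (by omega) (by omega)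
      · -- C1
        have hT := h.right_T hc hc' hcc
        have hT' := h.left_T hs1 e1 e1' hxx
        rcases h.dist with hd | hd
        · subst hd
          have hxc : x' = y := by
            have := e1'
            rw [show s + 2 - 1 = s + 1 by omega, hc] at this
            exact ((Prod.mk.inj this).2).symm
          subst hxc
          rcases Nat.eq_zero_or_pos x' with h0 | h0
          · subst h0
            rw [min_eq_left (by omega), max_eq_right (by omega)] at hT
            rw [min_eq_right (by omega), max_eq_left (by omega)] at hT'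
            have h1 := H.hd0 k x y' (by omega) hxj (by omega) hcj' (by
              rintro ⟨rfl, rfl⟩
              exact no11 hs1 h.hs e1 hc hc')
            have p1 := pos_idx (b := b) (k := k) hc
            rw [add_zero] at p1
            have h2 : n ≤ b.l (k + b.j) + b.TT k 0 x + b.TT k 0 y' := by omega
            have h3 : p = b.l (k + b.j) + b.l k := by
              rw [show s + 2 = s + 1 + 1 by rfl] at hpos
              omega
            have h4 : (n : ℝ) ≤ b.l (k + b.j) + b.TT k 0 x + b.TT k 0 y' := by exact_mod_cast h2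
            rw [h3]
            push_cast
            linarith
          · have hx0 : x = 0 := by omega
            have hy0 : y' = 0 := by omega
            subst hx0 hy0
            rw [min_eq_right (by omega), max_eq_left (by omega)] at hT
            rw [min_eq_left (by omega), max_eq_right (by omega)] at hT'
            have h1 := H.hd1 k x' (by omega) hxj'
            have p1 := pos_idx (b := b) (k := k) hc
            have h2 : n ≤ b.l (k + b.j) + 2 * b.TT k 0 x' := by omega
            have h3 : p = b.l (k + b.j) + b.l (k + x') := by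
              rw [show s + 2 = s + 1 + 1 by rfl] at hpos
              omega
            have h4 : (n : ℝ) ≤ b.l (k + b.j) + 2 * b.TT k 0 x' := by exact_mod_cast h2
            rw [h3]
            push_cast
            linarith
        · refine far (b.TT k (min x x') (max x x')) (b.TT k (min y y') (max y y')) (by omega) hd
            (H.hb k _ _ ?_ ?_) (H.hb k _ _ ?_ ?_)
          · rw [min_lt_max]; exact hxx
          · exact max_le hxj hxj'
          · rw [min_lt_max]; exact hcc
          · exact max_le hcj hcj'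

/-- the bound for all repetitions -/
theorem exp_bound {ε : ℝ} (H : ExpHyp b x0 ε) {i p n : ℕ} (hp : 1 ≤ p)
    (hm : ∀ t < n, b.u x0 (i + t) = b.u x0 (i + p + t)) : (n : ℝ) ≤ (1 + ε) * p := by
  obtain ⟨i, n', hn, hM⟩ := exists_max H.h0 hp i n hm
  have hn' : (n : ℝ) ≤ n' := by exact_mod_cast hn
  refine hn'.trans ?_
  clear hn' hm hn
  clear n
  rename' n' => n
  by_cases h0 : ∃ r τ, DD b.j r = (τ, b.j) ∧ i ≤ b.pos 0 r ∧ b.pos 0 (r + 1) ≤ i + n
  · let P : ℕ → Prop := fun k => ∃ r τ, DD b.j r = (τ, b.j) ∧ i ≤ b.pos k r ∧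
      b.pos k (r + 1) ≤ i + n
    have hex : ∃ k, P k ∧ ¬ P (k + 1) := by
      by_contra hcon
      push Not at hcon
      have hall : ∀ k, P k := by
        intro k
        induction k with
        | zero => exact h0
        | succ k ih => exact hcon k ih
      obtain ⟨r, τ, h1, h2, h3⟩ := hall n
      rw [pos_hub h1] at h3
      have := b.l_gt n
      omega
    obtain ⟨k, ⟨s, σ, h1, h2, h3⟩, hk⟩ := hex
    obtain ⟨s', h4, h5, h6⟩ := shift_hub H.h0 hp hM.m h1 h2 h3
    have : HubPair b x0 i p n k s s' σ :=
      ⟨hM, hp, h1, h5, h6, h2, h3, fun r τ e1 e2 e3 => hk ⟨r, τ, e1, e2, e3⟩⟩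
    exact this.bound H
  · push Not at h0
    exact H.hn i p n hp hM.m (fun r τ h1 h2 h3 => absurd h3 (by have := h0 r τ h1 h2; omega))

end Base

end Pool.Agent.Helper20.Rich
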