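import Pool.Agent.Helper20.Rich.PExp

/-!
Recurrence, critical exponent, threshold.
-/

open scoped ENNReal

namespace Pool.Agent.Helper20.Rich

variable {α : Type*}

namespace Base

variable {b : Base α} {x0 : α}

/-- hubs of side `false` far to the right -/
theorem far_false (k N : ℕ) : ∃ s, DD b.j s = (false, b.j) ∧ N ≤ b.pos k s := by
  have key : ∀ m, ∃ s, 2 * m ≤ s ∧ DD b.j s = (false, b.j) := by
    intro m
    induction m with
    | zero => exact ⟨0, le_rfl, DD_zero _⟩
    | succ m ih =>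
      obtain ⟨s, h1, h2⟩ := ih
      rcases Nat.eq_zero_or_pos s with h | h
      · refine ⟨2, by omega, ?_⟩
        have := (ff_hub (DD_zero b.j)).2.2.1
        simpa using this
      · exact ⟨ff b.j s, by have := ff_ge b.j h; omega, (ff_hub h2).1⟩
  obtain ⟨s, h1, h2⟩ := key N
  exact ⟨s, h2, (pos_ge (b := b) k N).trans (pos_mono k h1)⟩

theorem recurrent : IsRecurrent (b.u x0) := by
  intro i n N
  obtain ⟨s, h1, h2⟩ := far_false (b := b) (i + n) N
  have h3 := pos_block x0 (b := b) (i + n) s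
  rw [h1] at h3
  have h4 := u_occ (b := b) x0 (i + n)
  have h5 := b.l_gt (i + n)
  refine ⟨b.pos (i + n) s + i, by omega, ?_⟩
  apply factor_ext
  intro t ht
  have h6 := h3.get' (t := i + t) (by rw [length_W]; simp only; omega)
  have h7 := h4.get' (t := i + t) (by rw [length_W]; omega)
  rw [h6] at h7
  have h8 := Option.some.inj h7
  rw [zero_add, ← Nat.add_assoc] at h8
  exact h8

/-- every block type occurs -/
theorem exists_block (σ : Bool) {c : ℕ} (hc : c ≤ b.j) : ∃ s, DD b.j s = (σ, c) := by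
  have hj := b.hj
  have key : ∀ τ s0, DD b.j s0 = (τ, 0) → ∀ c, c ≤ b.j → ∃ s, DD b.j s = (τ, c) := by
    intro τ s0 hs0 c
    induction c with
    | zero => intro _; exact ⟨s0, hs0⟩
    | succ c ih =>
      intro hc
      obtain ⟨s, hs⟩ := ih (by omega)
      exact ⟨ff b.j s, (ff_lt hs (by omega)).1⟩
  cases σ with
  | true => exact key true 1 (DD_one _) c hc
  | false =>
    obtain ⟨s, hs⟩ := key true 1 (DD_one _) b.j le_rfl
    exact key false (ff b.j s + 1) (ff_hub hs).2.1 c hc

end Base

theorem critExp_le {u : ℕ → α} {ε : ℝ} (hε : 0 ≤ ε)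
    (h : ∀ i p n, 1 ≤ p → (∀ t < n, u (i + t) = u (i + p + t)) → (n : ℝ) ≤ (1 + ε) * p) :
    critExp u ≤ ENNReal.ofReal (2 + ε) := by
  apply iSup_le
  intro i
  apply iSup_le
  intro n
  apply iSup_le
  intro hn
  unfold expo
  rw [length_factor]
  have hmem : leastPeriod (factor u i n) ∈
      {p | 1 ≤ p ∧ ∀ k, k + p < (factor u i n).length →
        (factor u i n)[k]? = (factor u i n)[k + p]?} := by
    apply Nat.sInf_mem
    refine ⟨n, hn, ?_⟩
    intro k hk
    rw [length_factor] at hk
    omega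
  set p := leastPeriod (factor u i n) with hp
  obtain ⟨hp1, hper⟩ := hmem
  have h1 := h i p (n - p) hp1 (by
    intro t ht
    have h2 := hper t (by rw [length_factor]; omega)
    rw [getElem?_factor _ _ _ _ (by omega), getElem?_factor _ _ _ _ (by omega)] at h2
    have h3 := Option.some.inj h2
    rw [h3]
    congr 1
    omega)
  have h2 : (n : ℝ) ≤ (2 + ε) * p := by
    rcases le_total p n with h3 | h3
    · have : ((n - p : ℕ) : ℝ) = (n : ℝ) - p := by push_cast [h3]; ring
      rw [this] at h1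
      linarith
    · have h4 : (n : ℝ) ≤ p := by exact_mod_cast h3
      have h5 : (0 : ℝ) ≤ p := by positivity
      nlinarith
  have hp0 : (0 : ℝ) < p := by exact_mod_cast hp1
  rw [ENNReal.div_le_iff (by exact_mod_cast (by omega : p ≠ 0)) (by simp)]
  rw [← ENNReal.ofReal_natCast p, ← ENNReal.ofReal_mul (by linarith), ← ENNReal.ofReal_natCast n]
  exact ENNReal.ofReal_le_ofReal h2

theorem RT_le {d : ℕ} (b : Base (Fin d)) (x0 : Fin d) {ε : ℝ} (H : b.ExpHyp x0 ε)
    (hrich : IsRich (b.u x0)) (hsurj : Function.Surjective (b.u x0)) :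
    RT d ≤ ENNReal.ofReal (2 + ε) := by
  refine (iInf₂_le (b.u x0) ⟨hsurj, hrich, Base.recurrent⟩).trans ?_
  exact critExp_le H.eps (fun i p n hp hm => Base.exp_bound H hp hm)

/-- the letters of the power-type base -/
def lamF (s d : ℕ) (σ : Bool) (c : ℕ) : ℕ :=
  if d % 2 = 1 ∧ σ = true ∧ c = 1 then 2 * s
  else (if c < 2 * s - 1 then 2 * ((c + 1) / 2) else 0) + (if σ = true then 1 else 0)

theorem lamF_lt {s d : ℕ} (hs : 2 ≤ s) (hd : d = 2 * s ∨ d = 2 * s + 1) (σ : Bool) (c : ℕ) :
    lamF s d σ c < d := by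
  unfold lamF
  split_ifs <;> omega

/-- the base over `Fin d` -/
def PF (s d : ℕ) (hs : 2 ≤ s) (hd : d = 2 * s ∨ d = 2 * s + 1) : PB (Fin d) where
  j := 2 * s - 1
  lam σ c := ⟨lamF s d σ c, lamF_lt hs hd σ c⟩
  hj := by omega
  jodd := by omega
  hub := by
    intro σ τ c h1 h2 h3
    have h4 := Fin.mk.inj h3
    unfold lamF at h4
    cases σ <;> cases τ <;> simp at h4 ⊢ <;> (try split_ifs at h4) <;> omega
  small := by
    intro σ τ c e h1 h2 h3 h4
    have h5 := Fin.mk.inj h4
    unfold lamF at h5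
    cases σ <;> cases τ <;> simp at h5 ⊢ <;> (try split_ifs at h5) <;> omega

theorem PF_surj {s d : ℕ} (hs : 2 ≤ s) (hd : d = 2 * s ∨ d = 2 * s + 1) (x0 : Fin d) :
    Function.Surjective ((PF s d hs hd).toBase.u x0) := by
  intro v
  have key : ∀ σ c, 1 ≤ c → c ≤ 2 * s - 1 → lamF s d σ c = v →
      ∃ i, (PF s d hs hd).toBase.u x0 i = v := by
    intro σ c h1 h2 h3
    obtain ⟨r, hr⟩ := Base.exists_block (b := (PF s d hs hd).toBase) σ (c := c) h2
    have h4 := Base.pos_idx (b := (PF s d hs hd).toBase) (k := 0) hr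
    rw [zero_add, PB.l_small _ h2] at h4
    have h5 := mult_pos h1
    refine ⟨_, (PB.letter (P := PF s d hs hd) (x0 := x0) hr le_rfl (by omega)).1.trans ?_⟩
    exact Fin.ext h3
  have hv := v.2
  rcases Nat.lt_or_ge v (2 * s) with h | h
  · rcases Nat.lt_or_ge v 2 with h' | h'
    · rcases Nat.lt_or_ge v 1 with h'' | h''
      · apply key false (2 * s - 1) (by omega) le_rfl
        unfold lamF
        simp
        omega
      · apply key true (2 * s - 1) (by omega) le_rfl
        unfold lamF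
        rw [if_neg (by omega)]
        simp
        omega
    · rcases Nat.mod_two_eq_zero_or_one v with h'' | h''
      · apply key false (2 * (v / 2)) (by omega) (by omega)
        unfold lamF
        rw [if_neg (by simp)]
        rw [if_pos (by omega)]
        simp
        omega
      · apply key true (2 * (v / 2)) (by omega) (by omega)
        unfold lamF
        rw [if_neg (by omega)]
        rw [if_pos (by omega)]
        simp
        omega
  · apply key true 1 (by omega) (by omega)
    unfold lamF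
    rw [if_pos ⟨by omega, rfl, rfl⟩]
    omega

/-- crude upper bound -/
theorem RT_crude {d : ℕ} (hd : 4 ≤ d) :
    RT d ≤ ENNReal.ofReal (2 + 1 / (2 ^ (2 * (d / 2) - 1) - 1)) := by
  have hs : 2 ≤ d / 2 := by omega
  have hd' : d = 2 * (d / 2) ∨ d = 2 * (d / 2) + 1 := by omega
  have h1 : (1 : ℝ) < 2 ^ (2 * (d / 2) - 1) := one_lt_pow₀ (by norm_num) (by omega)
  apply RT_le (PF (d / 2) d hs hd').toBase ⟨0, by omega⟩
  · apply PB.expHyp_crude
    · apply div_nonneg zero_le_one; linarith
    · change 1 + 1 / ((2 : ℝ) ^ (2 * (d / 2) - 1) - 1) ≤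
        1 / (2 ^ (2 * (d / 2) - 1) - 1) * 2 ^ (2 * (d / 2) - 1)
      have h2 : (2 : ℝ) ^ (2 * (d / 2) - 1) - 1 ≠ 0 := by linarith
      rw [div_mul_eq_mul_div, one_mul, le_div_iff₀ (by linarith), add_mul, one_div,
        inv_mul_cancel₀ h2]
      linarith
  · exact PB.rich
  · exact PF_surj _ _ _

end Pool.Agent.Helper20.Rich
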