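import Mathlib

/-!
Square-free words in which complete returns of single letters are palindromes
have length bounded by Pell numbers.
-/

namespace Pool.Agent.Helper20.Rich

/-- Pell numbers `0, 1, 2, 5, 12, 29, ...`. -/
def pell : ℕ → ℕ
  | 0 => 0
  | 1 => 1
  | (n+2) => 2 * pell (n+1) + pell n

variable {β : Type*}

/-- Complete returns to letters satisfying `C` are palindromes. -/
def LCR (C : β → Prop) (w : List β) : Prop :=
  ∀ (a : β) (x : List β), C a → a ∉ x → (a :: (x ++ [a])) <:+: w → x.reverse = x

/-- No factor is a square. -/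
def SqFree (w : List β) : Prop := ∀ x : List β, x ≠ [] → ¬ (x ++ x) <:+: w

/-- the centre of a factor of length three with equal ends satisfies `C`. -/
def Cent (C : β → Prop) (w : List β) : Prop := ∀ a b : β, [a, b, a] <:+: w → C b

/-- every two adjacent letters contain one satisfying `C`. -/
def Adj (C : β → Prop) (w : List β) : Prop := ∀ a b : β, [a, b] <:+: w → C a ∨ C b

theorem LCR.mono {C : β → Prop} {v w : List β} (h : LCR C w) (hv : v <:+: w) : LCR C v :=
  fun a x hC hax hx => h a x hC hax (hx.trans hv)

theorem SqFree.mono {v w : List β} (h : SqFree w) (hv : v <:+: w) : SqFree v :=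
  fun x hx hxx => h x hx (hxx.trans hv)

theorem Cent.mono {C : β → Prop} {v w : List β} (h : Cent C w) (hv : v <:+: w) : Cent C v :=
  fun a b hab => h a b (hab.trans hv)

theorem Adj.mono {C : β → Prop} {v w : List β} (h : Adj C w) (hv : v <:+: w) : Adj C v :=
  fun a b hab => h a b (hab.trans hv)

/-- if `a ∉ P` and `P ++ a :: Q = S ++ a :: T` then `P` is an initial part of `S`. -/
theorem split_first {a : β} : ∀ {P Q S T : List β}, a ∉ P → P ++ a :: Q = S ++ a :: T →
    ∃ S', S = P ++ S'
  | [], _, S, _, _, _ => ⟨S, rfl⟩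
  | p :: P, Q, [], T, hP, h => by
      exfalso
      simp only [List.cons_append, List.nil_append, List.cons.injEq] at h
      exact hP (by rw [h.1]; exact List.mem_cons_self)
  | p :: P, Q, s :: S, T, hP, h => by
      simp only [List.cons_append, List.cons.injEq] at h
      obtain ⟨S', hS'⟩ := split_first (fun hh => hP (List.mem_cons_of_mem _ hh)) h.2
      exact ⟨S', by rw [h.1, hS']; rfl⟩

/-- the first occurrence of a letter. -/
theorem first_occ {a : β} : ∀ {l : List β}, a ∈ l → ∃ s t, l = s ++ a :: t ∧ a ∉ s := by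
  intro l h
  classical
  induction l with
  | nil => simp at h
  | cons b l ih =>
    by_cases hab : a = b
    · exact ⟨[], l, by simp [hab], by simp⟩
    · have : a ∈ l := by
        rcases List.mem_cons.1 h with h | h
        · exact absurd h hab
        · exact h
      obtain ⟨s, t, hst, hs⟩ := ih this
      exact ⟨b :: s, t, by simp [hst], by simp [hab, hs]⟩

theorem last_occ {a : β} {l : List β} (h : a ∈ l) : ∃ s t, l = s ++ a :: t ∧ a ∉ t := by
  obtain ⟨s, t, hst, hs⟩ := first_occ (List.mem_reverse.2 h)
  refine ⟨t.reverse, s.reverse, ?_, by simpa using hs⟩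
  have := congrArg List.reverse hst
  simpa using this

/-- A nonempty square-free palindrome has a centre letter. -/
theorem pal_centre {g : List β} (hp : g.Palindrome) (hne : g ≠ []) (hs : SqFree g) :
    ∃ h f, g = h ++ f :: h.reverse := by
  induction hp with
  | nil => exact absurd rfl hne
  | singleton x => exact ⟨[], x, rfl⟩
  | @cons_concat x l hl ih =>
    by_cases hl0 : l = []
    · subst hl0
      exact absurd (List.infix_refl _) (hs [x] (by simp))
    · have hs' : SqFree l := hs.mono ⟨[x], [x], by simp⟩
      obtain ⟨h, f, hf⟩ := ih hl0 hs'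
      exact ⟨x :: h, f, by simp [hf]⟩

/-- The centre letter of a square-free palindrome occurs only once. -/
theorem centre_notMem {C : β → Prop} {h : List β} {f : β} (hC : C f)
    (hL : LCR C (h ++ f :: h.reverse)) (hs : SqFree (h ++ f :: h.reverse)) : f ∉ h := by
  intro hf
  obtain ⟨s, r, hsr, hr⟩ := last_occ hf
  have e : h ++ f :: h.reverse = s ++ (f :: (r ++ [f])) ++ (r.reverse ++ f :: s.reverse) := by
    rw [hsr]; simp
  have hpal : r.reverse = r := hL f r hC hr ⟨s, r.reverse ++ f :: s.reverse, e.symm⟩
  apply hs (f :: r) (by simp)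
  refine ⟨s, f :: s.reverse, ?_⟩
  rw [e, hpal]; simp

/-- odd palindromes centred in `C`. -/
theorem centre_C {C : β → Prop} {a f : β} {h : List β}
    (hc : Cent C (a :: (h ++ f :: h.reverse) ++ [a])) : C f := by
  rcases List.eq_nil_or_concat h with rfl | ⟨h', b, rfl⟩
  · exact hc a f ⟨[], [], by simp⟩
  · exact hc b f ⟨a :: h', h'.reverse ++ [a], by simp⟩

theorem claim {C : β → Prop} : ∀ (n : ℕ) (z : List β), z.length = n → ∀ (a : β) (g r' : List β),
    LCR C (z.reverse ++ a :: (g ++ a :: r')) → SqFree (z.reverse ++ a :: (g ++ a :: r')) →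
    Cent C (z.reverse ++ a :: (g ++ a :: r')) → C a →
    a ∉ z → a ∉ g → (∀ y ∈ g, C y → y ∈ z) → (∀ y ∈ r', C y → y = a ∨ y ∈ z) →
    ∃ h f z2, z = h ++ f :: z2 ∧ g = h ++ f :: h.reverse ∧ C f ∧ f ∉ h ∧ f ∉ r' ∧
      (∀ y ∈ r', C y → y = a ∨ y ∈ h) := by
  intro n
  induction n using Nat.strong_induction_on with
  | _ n ih =>
  intro z hzn a g r' hL hS hCt hCa haz hag hgz hrz
  have hginf : (a :: (g ++ [a])) <:+: (z.reverse ++ a :: (g ++ a :: r')) :=
    ⟨z.reverse, r', by simp⟩
  have hgpal : g.reverse = g := hL a g hCa hag hginf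
  have hgne : g ≠ [] := by
    rintro rfl
    exact hS [a] (by simp) ⟨z.reverse, r', by simp⟩
  have hgS : SqFree g := hS.mono ⟨z.reverse ++ [a], a :: r', by simp⟩
  obtain ⟨h, f, hg⟩ := pal_centre (List.Palindrome.of_reverse_eq hgpal) hgne hgS
  have hCf : C f := by
    apply centre_C (a := a) (h := h)
    rw [← hg]
    exact hCt.mono ⟨z.reverse, r', by simp⟩
  have hfh : f ∉ h := by
    apply centre_notMem hCf
    · rw [← hg]; exact hL.mono ⟨z.reverse ++ [a], a :: r', by simp⟩
    · rw [← hg]; exact hgS
  have hfg : f ∈ g := by rw [hg]; simp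
  have hfz : f ∈ z := hgz f hfg hCf
  have hfa : f ≠ a := by rintro rfl; exact haz hfz
  have hah : a ∉ h := by
    intro h1; exact hag (by rw [hg]; simp [h1])
  obtain ⟨z1, z2, hz, hfz1⟩ := first_occ hfz
  have haz1 : a ∉ z1 := by intro h1; exact haz (by rw [hz]; simp [h1])
  -- z1 = h
  have hz1 : z1 = h := by
    have hinf : (f :: ((z1.reverse ++ a :: h) ++ [f])) <:+: (z.reverse ++ a :: (g ++ a :: r')) := by
      refine ⟨z2.reverse, h.reverse ++ a :: r', ?_⟩
      rw [hz, hg]; simp
    have hnot : f ∉ z1.reverse ++ a :: h := by simp [hfz1, hfa, hfh]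
    have := hL f _ hCf hnot hinf
    simp only [List.reverse_append, List.reverse_cons, List.reverse_reverse,
      List.append_assoc, List.cons_append, List.nil_append] at this
    -- h.reverse ++ a :: z1 = z1.reverse ++ a :: h
    obtain ⟨S1, hS1⟩ := split_first (by simpa using hah) this
    obtain ⟨S2, hS2⟩ := split_first (by simpa using haz1) this.symm
    have hl1 := congrArg List.length hS1
    have hl2 := congrArg List.length hS2
    simp at hl1 hl2
    have : S1 = [] := List.eq_nil_of_length_eq_zero (by omega)
    subst this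
    have := congrArg List.reverse hS1
    simpa using this
  subst hz1
  -- letters of an `f`-free initial part of r'
  have key : ∀ s t : List β, r' = s ++ t → f ∉ s → ∀ y ∈ s, C y → y = a ∨ y ∈ z1 := by
    intro s t hst hfs y hys hCy
    by_contra hcon
    push Not at hcon
    obtain ⟨hya, hyh⟩ := hcon
    have hyf : y ≠ f := by rintro rfl; exact hfs hys
    have hyz : y ∈ z := by
      rcases hrz y (by rw [hst]; simp [hys]) hCy with h1 | h1
      · exact absurd h1 hya
      · exact h1
    have hyz2 : y ∈ z2 := by
      rw [hz] at hyz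
      simp only [List.mem_append, List.mem_cons] at hyz
      rcases hyz with h1 | h1 | h1
      · exact absurd h1 hyh
      · exact absurd h1 hyf
      · exact h1
    obtain ⟨z3, z4, hz2, hyz3⟩ := first_occ hyz2
    obtain ⟨s1, s2, hs, hys1⟩ := first_occ hys
    have haz3 : a ∉ z3 := by intro h1; exact haz (by rw [hz, hz2]; simp [h1])
    have hfs1 : f ∉ s1 := by intro h1; exact hfs (by rw [hs]; simp [h1])
    have hinf : (y :: ((z3.reverse ++ f :: z1.reverse ++ a :: (z1 ++ f :: z1.reverse) ++ a :: s1)
        ++ [y])) <:+: (z.reverse ++ a :: (g ++ a :: r')) := by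
      refine ⟨z4.reverse, s2 ++ t, ?_⟩
      rw [hz, hz2, hg, hst, hs]; simp
    have hnot : y ∉ (z3.reverse ++ f :: z1.reverse ++ a :: (z1 ++ f :: z1.reverse) ++ a :: s1) := by
      simp [hyz3, hyf, hyh, hya, hys1]
    have hpal := hL y _ hCy hnot hinf
    simp only [List.reverse_append, List.reverse_cons, List.reverse_reverse,
      List.append_assoc, List.cons_append, List.nil_append] at hpal
    -- LHS: s1.reverse ++ a :: ...; RHS: z3.reverse ++ f :: (z1.reverse ++ a :: ...)
    have hpal' : (z3.reverse ++ f :: z1.reverse) ++ a :: (z1 ++ f :: (z1.reverse ++ a :: s1)) =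
        s1.reverse ++ a :: (z1 ++ f :: (z1.reverse ++ a :: (z1 ++ f :: z3))) := by
      rw [List.append_assoc, List.cons_append]
      exact hpal.symm
    obtain ⟨S', hS'⟩ := split_first (by simp [haz3, hfa.symm, hah]) hpal'
    apply hfs1
    have : f ∈ s1.reverse := by rw [hS']; simp
    simpa using this
  have hfr : f ∉ r' := by
    intro hfr
    obtain ⟨s, t, hst, hfs⟩ := first_occ hfr
    have hinf : (f :: ((z1.reverse ++ a :: s) ++ [f])) <:+: (z.reverse ++ a :: (g ++ a :: r')) := by
      refine ⟨z2.reverse ++ f :: (z1.reverse ++ a :: z1), t, ?_⟩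
      rw [hz, hg, hst]; simp
    have hnot : f ∉ z1.reverse ++ a :: s := by simp [hfh, hfa, hfs]
    have hpal := hL f _ hCf hnot hinf
    simp only [List.reverse_append, List.reverse_cons, List.reverse_reverse,
      List.append_assoc, List.cons_append, List.nil_append] at hpal
    -- s.reverse ++ a :: z1 = z1.reverse ++ a :: s
    obtain ⟨S', hS'⟩ := split_first (by simpa using hah) hpal.symm
    rw [hS', List.append_assoc, List.append_cancel_left_eq] at hpal
    -- S' ++ a :: z1 = a :: s
    cases S' with
    | nil =>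
      simp only [List.nil_append, List.cons.injEq, true_and] at hpal
      subst hpal
      -- s = z1 : square
      apply hS (f :: (z1.reverse ++ a :: z1)) (by simp)
      refine ⟨z2.reverse, f :: t, ?_⟩
      rw [hz, hg, hst]; simp
    | cons b S'' =>
      simp only [List.cons_append, List.cons.injEq] at hpal
      obtain ⟨hba, hs⟩ := hpal
      subst hba
      -- s = S'' ++ b :: z1, b = a
      have hsmem : b ∈ S'' ++ b :: z1 := by simp
      obtain ⟨g', ρ, hgρ, hbg'⟩ := first_occ hsmem
      have hsz := key s (f :: t) hst hfs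
      have hih := ih z1.length (by rw [← hzn, hz]; simp) z1 rfl b g' ρ
      have hinf2 : (z1.reverse ++ b :: (g' ++ b :: ρ)) <:+: (z.reverse ++ b :: (g ++ b :: r')) := by
        rw [← hgρ, hs]
        refine ⟨z2.reverse ++ f :: (z1.reverse ++ b :: (z1 ++ [f])), f :: t, ?_⟩
        rw [hz, hg, hst, ← hs]; simp
      obtain ⟨h2, f2, z2', e1, e2, e3, e4, e5, e6⟩ := hih (hL.mono hinf2) (hS.mono hinf2)
        (hCt.mono hinf2) hCa hah hbg'
        (by
          intro y hy hCy
          have hys : y ∈ s := by rw [← hs, hgρ]; simp [hy]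
          rcases hsz y hys hCy with h1 | h1
          · subst h1; exact absurd hy hbg'
          · exact h1)
        (by
          intro y hy hCy
          have hys : y ∈ s := by rw [← hs, hgρ]; simp [hy]
          exact hsz y hys hCy)
      apply e5
      -- z1 is an end part of ρ
      obtain ⟨S3, hS3⟩ := split_first hbg' hgρ.symm
      rw [hS3, List.append_assoc, List.append_cancel_left_eq] at hgρ
      have hf2 : f2 ∈ z1 := by rw [e1]; simp
      cases S3 with
      | nil =>
        simp only [List.nil_append, List.cons.injEq, true_and] at hgρ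
        rw [← hgρ]; exact hf2
      | cons c S4 =>
        simp only [List.cons_append, List.cons.injEq] at hgρ
        rw [← hgρ.2]; simp [hf2]
  exact ⟨z1, f, z2, hz, hg, hCf, hfh, hfr, key r' [] (by simp) hfr⟩

/-- number of different letters of `w` satisfying `C`. -/
noncomputable def kap (C : β → Prop) (w : List β) : ℕ := {y | y ∈ w ∧ C y}.ncard

theorem kap_finite (C : β → Prop) (w : List β) : {y | y ∈ w ∧ C y}.Finite :=
  (List.finite_toSet w).subset fun _ hy => hy.1

theorem kap_mono {C : β → Prop} {v w : List β} (h : ∀ y ∈ v, C y → y ∈ w) :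
    kap C v ≤ kap C w :=
  Set.ncard_le_ncard (fun y hy => ⟨h y hy.1 hy.2, hy.2⟩) (kap_finite C w)

theorem kap_lt {C : β → Prop} {v w : List β} {f : β} (h : ∀ y ∈ v, C y → y ∈ w) (hfw : f ∈ w)
    (hC : C f) (hfv : f ∉ v) : kap C v < kap C w :=
  Set.ncard_lt_ncard ⟨fun y hy => ⟨h y hy.1 hy.2, hy.2⟩, fun hh => hfv (hh ⟨hfw, hC⟩).1⟩
    (kap_finite C w)

theorem kap_zero {C : β → Prop} {w : List β} (h : kap C w = 0) : ∀ y ∈ w, ¬ C y := by
  intro y hy hC
  have := (Set.ncard_eq_zero (kap_finite C w)).1 h
  have h2 : y ∈ ({y | y ∈ w ∧ C y} : Set β) := ⟨hy, hC⟩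
  rw [this] at h2
  exact h2

/-- the last new letter. -/
theorem last_new {C : β → Prop} : ∀ (w : List β), (∃ y ∈ w, C y) →
    ∃ q a r, w = q ++ a :: r ∧ C a ∧ a ∉ q ∧ ∀ y ∈ r, C y → y = a ∨ y ∈ q := by
  intro w
  classical
  induction w using List.reverseRecOn with
  | nil => rintro ⟨y, hy, _⟩; simp at hy
  | append_singleton w x ih =>
    rintro ⟨y, hy, hCy⟩
    by_cases hw : ∃ y ∈ w, C y
    · obtain ⟨q, a, r, hw', hCa, haq, hr⟩ := ih hw
      by_cases hx : C x → x = a ∨ x ∈ q
      · refine ⟨q, a, r ++ [x], by simp [hw'], hCa, haq, ?_⟩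
        intro y hy hCy
        simp only [List.mem_append, List.mem_singleton] at hy
        rcases hy with hy | rfl
        · exact hr y hy hCy
        · exact hx hCy
      · push Not at hx
        obtain ⟨hCx, hxa, hxq⟩ := hx
        refine ⟨w, x, [], rfl, hCx, ?_, by simp⟩
        intro hxw
        rw [hw'] at hxw
        simp only [List.mem_append, List.mem_cons] at hxw
        rcases hxw with h1 | h1 | h1
        · exact hxq h1
        · exact hxa h1
        · rcases hr x h1 hCx with h2 | h2
          · exact hxa h2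
          · exact hxq h2
    · push Not at hw
      simp only [List.mem_append, List.mem_singleton] at hy
      rcases hy with hy | rfl
      · exact absurd hCy (hw y hy)
      · exact ⟨w, y, [], rfl, hCy, fun h => hw y h hCy, by simp⟩

theorem pell_mono (n : ℕ) : pell n ≤ pell (n+1) := by
  induction n with
  | zero => simp [pell]
  | succ n ih => rw [pell]; omega

theorem pell_pos (n : ℕ) : 1 ≤ pell (n+1) := by
  induction n with
  | zero => simp [pell]
  | succ n ih => exact ih.trans (pell_mono _)

theorem bound {C : β → Prop} : ∀ k : ℕ,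
    (∀ w : List β, LCR C w → SqFree w → Cent C w → Adj C w → kap C w ≤ k →
      w.length + 1 ≤ 2 * pell (k+1)) ∧
    (∀ (a : β) (z r : List β), LCR C (z.reverse ++ a :: r) → SqFree (z.reverse ++ a :: r) →
      Cent C (z.reverse ++ a :: r) → Adj C (z.reverse ++ a :: r) → C a → a ∉ z →
      (∀ y ∈ r, C y → y = a ∨ y ∈ z) → kap C z ≤ k →
      r.length + 1 ≤ 2 * (pell (k+1) + pell k)) := by
  have hF0 : ∀ w : List β, Adj C w → kap C w ≤ 0 → w.length + 1 ≤ 2 := by
    intro w hA hk
    have h0 := kap_zero (Nat.le_zero.1 hk)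
    match w, hA, h0 with
    | [], _, _ => simp
    | [x], _, _ => simp
    | x :: y :: w, hA, h0 =>
      rcases hA x y ⟨[], w, by simp⟩ with h | h
      · exact absurd h (h0 x (by simp))
      · exact absurd h (h0 y (by simp))
  intro k
  induction k with
  | zero =>
    refine ⟨fun w _ _ _ hA hk => by simpa [pell] using hF0 w hA hk, ?_⟩
    intro a z r hL hS hCt hA hCa haz hrz hk
    have h0 := kap_zero (Nat.le_zero.1 hk)
    have hr : ∀ y ∈ r, C y → y = a := fun y hy hCy => by
      rcases hrz y hy hCy with h | h
      · exact h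
      · exact absurd hCy (h0 y h)
    simp only [pell]
    match r, hS, hCt, hA, hr with
    | [], _, _, _, _ => simp
    | [x], _, _, _, _ => simp
    | x :: y :: r, hS, hCt, hA, hr =>
      exfalso
      have hx : ¬ C x := by
        intro hx
        have := hr x (by simp) hx
        subst this
        exact hS [x] (by simp) ⟨z.reverse, y :: r, by simp⟩
      have hy : C y := by
        rcases hA x y ⟨z.reverse ++ [a], r, by simp⟩ with h | h
        · exact absurd h hx
        · exact h
      have := hr y (by simp) hy
      subst this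
      exact hx (hCt y x ⟨z.reverse, r, by simp⟩)
  | succ k ih =>
    obtain ⟨ihF, ihS⟩ := ih
    have hF : ∀ w : List β, LCR C w → SqFree w → Cent C w → Adj C w → kap C w ≤ k + 1 →
        w.length + 1 ≤ 2 * pell (k+1+1) := by
      intro w hL hS hCt hA hk
      by_cases hw : ∃ y ∈ w, C y
      · obtain ⟨q, a, r, hw', hCa, haq, hr⟩ := last_new w hw
        have hqk : kap C q < kap C w :=
          kap_lt (fun y hy _ => by rw [hw']; simp [hy]) (by rw [hw']; simp) hCa haq
        have hqinf : q <:+: w := ⟨[], a :: r, by simp [hw']⟩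
        have h1 := ihF q (hL.mono hqinf) (hS.mono hqinf) (hCt.mono hqinf) (hA.mono hqinf) (by omega)
        have e : q.reverse.reverse ++ a :: r = w := by simp [hw']
        have hkq : kap C q.reverse ≤ k := by
          have : kap C q.reverse ≤ kap C q := kap_mono (fun y hy _ => by simpa using hy)
          omega
        have h2 := ihS a q.reverse r (by rw [e]; exact hL) (by rw [e]; exact hS)
          (by rw [e]; exact hCt) (by rw [e]; exact hA) hCa (by simpa using haq)
          (by simpa using hr) hkq
        have hlen : w.length = q.length + (r.length + 1) := by rw [hw']; simp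
        rw [pell]
        omega
      · push Not at hw
        have : kap C w ≤ 0 := by
          rw [Nat.le_zero, kap, Set.ncard_eq_zero (kap_finite C w)]
          apply Set.eq_empty_of_forall_notMem
          intro y hy
          exact hw y hy.1 hy.2
        have h1 := hF0 w hA this
        have h2 := pell_pos (k+1)
        omega
    refine ⟨hF, ?_⟩
    intro a z r hL hS hCt hA hCa haz hrz hk
    by_cases har : a ∈ r
    · obtain ⟨g, r', hr, hag⟩ := first_occ har
      subst hr
      have hgz : ∀ y ∈ g, C y → y ∈ z := by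
        intro y hy hCy
        rcases hrz y (by simp [hy]) hCy with h | h
        · subst h; exact absurd hy hag
        · exact h
      have hrz' : ∀ y ∈ r', C y → y = a ∨ y ∈ z := fun y hy hCy => hrz y (by simp [hy]) hCy
      obtain ⟨h, f, z2, hz, hg, hCf, hfh, hfr, hr'⟩ :=
        claim z.length z rfl a g r' hL hS hCt hCa haz hag hgz hrz'
      have hhk : kap C h < kap C z :=
        kap_lt (fun y hy _ => by rw [hz]; simp [hy]) (by rw [hz]; simp) hCf hfh
      have hhinf : h <:+: z.reverse ++ a :: (g ++ a :: r') :=
        ⟨z.reverse ++ [a], f :: h.reverse ++ a :: r', by rw [hg]; simp⟩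
      have h1 := ihF h (hL.mono hhinf) (hS.mono hhinf) (hCt.mono hhinf) (hA.mono hhinf) (by omega)
      have hinf2 : h.reverse ++ a :: r' <:+: z.reverse ++ a :: (g ++ a :: r') :=
        ⟨z.reverse ++ a :: (h ++ [f]), [], by rw [hg]; simp⟩
      have h2 := ihS a h r' (hL.mono hinf2) (hS.mono hinf2) (hCt.mono hinf2) (hA.mono hinf2) hCa
        (by intro h3; exact haz (by rw [hz]; simp [h3])) hr' (by omega)
      have hlen : (g ++ a :: r').length = 2 * h.length + 1 + (r'.length + 1) := by
        rw [hg]; simp; omega
      rw [pell]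
      omega
    · have hrk : kap C r ≤ kap C z := kap_mono (by
        intro y hy hCy
        rcases hrz y hy hCy with h | h
        · subst h; exact absurd hy har
        · exact h)
      have hrinf : r <:+: z.reverse ++ a :: r := ⟨z.reverse ++ [a], [], by simp⟩
      have h1 := hF r (hL.mono hrinf) (hS.mono hrinf) (hCt.mono hrinf) (hA.mono hrinf) (by omega)
      omega

end Pool.Agent.Helper20.Rich
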