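import Pool.Agent.Helper20.Rich.Defs
import Pool.Agent.Helper20.Rich.SqFree

/-!
Every rich word over `d` letters of length `pell (2 d + 1) + 1` contains an overlap.
-/

open scoped ENNReal

namespace Pool.Agent.Helper20.Rich

variable {α : Type*}

@[simp] theorem length_factor (u : ℕ → α) (i n : ℕ) : (factor u i n).length = n := by
  simp [factor]

theorem getElem_factor (u : ℕ → α) (i n k : ℕ) (h : k < (factor u i n).length) :
    (factor u i n)[k] = u (i + k) := by
  simp [factor]

theorem getElem?_factor (u : ℕ → α) (i n k : ℕ) (h : k < n) :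
    (factor u i n)[k]? = some (u (i + k)) := by
  simp [factor, h]

theorem factor_ext {u v : ℕ → α} {i j n : ℕ} (h : ∀ t < n, u (i + t) = v (j + t)) :
    factor u i n = factor v j n := by
  simp only [factor]
  apply List.map_congr_left
  intro t ht
  exact h t (List.mem_range.1 ht)

theorem factor_inj {u v : ℕ → α} {i j n : ℕ} (h : factor u i n = factor v j n) :
    ∀ t < n, u (i + t) = v (j + t) := by
  intro t ht
  have h1 := getElem?_factor u i n t ht
  rw [h, getElem?_factor v j n t ht] at h1
  exact (Option.some.inj h1).symm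

theorem factor_add (u : ℕ → α) (i m n : ℕ) :
    factor u i (m + n) = factor u i m ++ factor u (i + m) n := by
  simp only [factor, List.range_add, List.map_append, List.map_map]
  congr 1
  apply List.map_congr_left
  intro t _
  simp [add_assoc]

theorem factor_succ (u : ℕ → α) (i n : ℕ) :
    factor u i (n + 1) = factor u i n ++ [u (i + n)] := by
  rw [factor_add]; simp [factor]

theorem factor_isInfix {u : ℕ → α} {i n j m : ℕ} (h1 : i ≤ j) (h2 : j + m ≤ i + n) :
    factor u j m <:+: factor u i n := by
  refine ⟨factor u i (j - i), factor u (j + m) (i + n - (j + m)), ?_⟩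
  have e1 : n = (j - i) + (m + (i + n - (j + m))) := by omega
  conv_rhs => rw [e1, factor_add, factor_add]
  have e2 : i + (j - i) = j := by omega
  rw [e2]; simp

theorem isInfix_factor {u : ℕ → α} {i n : ℕ} {v : List α} (h : v <:+: factor u i n) :
    ∃ j, i ≤ j ∧ j + v.length ≤ i + n ∧ v = factor u j v.length := by
  obtain ⟨s, t, hst⟩ := h
  have hlen := congrArg List.length hst
  simp at hlen
  refine ⟨i + s.length, by omega, by omega, ?_⟩
  apply List.ext_getElem?
  intro k
  by_cases hk : k < v.length
  · rw [getElem?_factor _ _ _ _ hk]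
    have h1 : (factor u i n)[s.length + k]? = some (u (i + (s.length + k))) :=
      getElem?_factor _ _ _ _ (by omega)
    rw [← hst, List.append_assoc, List.getElem?_append_right (by omega)] at h1
    rw [List.getElem?_append_left (by omega)] at h1
    have e : s.length + k - s.length = k := by omega
    rw [e] at h1
    rw [h1, add_assoc]
  · rw [List.getElem?_eq_none (by omega), List.getElem?_eq_none (by simp; omega)]

theorem factor_reverse_iff {u : ℕ → α} {i n : ℕ} :
    (factor u i n).reverse = factor u i n ↔ ∀ t < n, u (i + t) = u (i + n - 1 - t) := by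
  constructor
  · intro h t ht
    have h1 : (factor u i n).reverse[t]? = (factor u i n)[t]? := by rw [h]
    rw [List.getElem?_reverse (by simpa using ht), length_factor,
      getElem?_factor _ _ _ _ (by omega), getElem?_factor _ _ _ _ ht] at h1
    have h2 := Option.some.inj h1
    rw [← h2]
    congr 1
    omega
  · intro h
    apply List.ext_getElem?
    intro t
    by_cases ht : t < n
    · rw [List.getElem?_reverse (by simpa using ht), length_factor,
        getElem?_factor _ _ _ _ (by omega), getElem?_factor _ _ _ _ ht, h t ht]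
      congr 2
      omega
    · rw [List.getElem?_eq_none (by simp; omega), List.getElem?_eq_none (by simp; omega)]

theorem finite_pals (w : List α) : {p : List α | p <:+: w ∧ p.reverse = p}.Finite := by
  classical
  apply (List.finite_toSet w.sublists).subset
  intro p hp
  exact List.mem_sublists.2 hp.1.sublist

/-- In a rich sequence complete returns to palindromes are palindromes (with positions). -/
theorem cr {u : ℕ → α} (hu : IsRich u) {i j m : ℕ} (hm : 1 ≤ m) (hij : i < j)
    (hpal : ∀ t < m, u (i + t) = u (i + m - 1 - t)) (hocc : ∀ t < m, u (j + t) = u (i + t))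
    (hno : ∀ k, i < k → k < j → ∃ t < m, u (k + t) ≠ u (i + t)) :
    ∀ t < j - i + m, u (i + t) = u (j + m - 1 - t) := by
  obtain ⟨n, hn⟩ : ∃ n, j - i + m = n + 1 := ⟨j - i + m - 1, by omega⟩
  have h1 := hu i (n + 1)
  have h2 := hu i n
  rw [IsRichWord, length_factor] at h1 h2
  have h3 : {p : List α | p <:+: factor u i n ∧ p.reverse = p}.ncard <
      {p : List α | p <:+: factor u i (n+1) ∧ p.reverse = p}.ncard := by omega
  obtain ⟨s, hs, hs'⟩ := Set.exists_mem_notMem_of_ncard_lt_ncard h3 (finite_pals _)
  have hs1 : s <:+: factor u i (n+1) := hs.1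
  have hspal : s.reverse = s := hs.2
  have hs2 : ¬ s <:+: factor u i n := fun h => hs' ⟨h, hspal⟩
  obtain ⟨k, hk1, hk2, hk3⟩ := isInfix_factor hs1
  have hk4 : k + s.length = i + n + 1 := by
    by_contra hne
    apply hs2
    rw [hk3]
    exact factor_isInfix hk1 (by omega)
  have hsne : s.length ≠ 0 := by
    intro h0
    have : s = [] := List.eq_nil_of_length_eq_zero h0
    subst this
    exact hs2 (List.nil_infix)
  have hrefl : ∀ t < s.length, u (k + t) = u (k + s.length - 1 - t) := by
    apply factor_reverse_iff.1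
    rw [← hk3]; exact hspal
  have hjm : k + s.length = j + m := by omega
  by_cases hkj : j ≤ k
  · exfalso
    apply hs2
    have e : s = factor u (i + (k - j)) s.length := by
      conv_lhs => rw [hk3]
      apply factor_ext
      intro t ht
      have := hocc (k - j + t) (by omega)
      have e1 : j + (k - j + t) = k + t := by omega
      rw [e1] at this
      rw [this, add_assoc]
    rw [e]
    exact factor_isInfix (by omega) (by omega)
  · push Not at hkj
    have hkocc : ∀ t < m, u (k + t) = u (i + t) := by
      intro t ht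
      rw [hrefl t (by omega)]
      have e1 : k + s.length - 1 - t = j + (m - 1 - t) := by omega
      rw [e1, hocc _ (by omega), hpal t ht]
      congr 1
      omega
    have hki : k = i := by
      by_contra hne
      obtain ⟨t, ht, hne'⟩ := hno k (by omega) hkj
      exact hne' (hkocc t ht)
    subst hki
    intro t ht
    rw [hrefl t (by omega), hjm]

/-- letters and unordered pairs of consecutive letters, interleaved. -/
def hat (u : ℕ → α) (n : ℕ) : α ⊕ Sym2 α :=
  if n % 2 = 0 then Sum.inl (u (n / 2)) else Sum.inr s(u (n / 2), u (n / 2 + 1))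

theorem hat_even (u : ℕ → α) (i : ℕ) : hat u (2 * i) = Sum.inl (u i) := by
  simp [hat]

theorem hat_odd (u : ℕ → α) (i : ℕ) : hat u (2 * i + 1) = Sum.inr s(u i, u (i + 1)) := by
  have h1 : (2 * i + 1) % 2 = 1 := by omega
  have h2 : (2 * i + 1) / 2 = i := by omega
  simp [hat, h1, h2]

/-- the letters that can be centres of palindromes. -/
def CC : α ⊕ Sym2 α → Prop
  | Sum.inl _ => True
  | Sum.inr s => s.IsDiag

theorem hat_reflect {u : ℕ → α} {c n : ℕ} (h : ∀ t ≤ c, ∀ t' ≤ c, t + t' = c →
    u (n + t) = u (n + t')) : ∀ t t', t + t' = 2 * c → hat u (2 * n + t) = hat u (2 * n + t') := by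
  intro t t' htt
  rcases Nat.even_or_odd' t with ⟨s, hs | hs⟩
  · obtain ⟨s', hs'⟩ : ∃ s', t' = 2 * s' := ⟨c - s, by omega⟩
    rw [hs, hs', ← mul_add, ← mul_add, hat_even, hat_even, h s (by omega) s' (by omega) (by omega)]
  · obtain ⟨s', hs'⟩ : ∃ s', t' = 2 * s' + 1 := ⟨c - s - 1, by omega⟩
    have e1 : 2 * n + t = 2 * (n + s) + 1 := by omega
    have e2 : 2 * n + t' = 2 * (n + s') + 1 := by omega
    rw [e1, e2, hat_odd, hat_odd]
    have h1 := h s (by omega) (s' + 1) (by omega) (by omega)
    have h2 := h (s + 1) (by omega) s' (by omega) (by omega)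
    rw [add_assoc, add_assoc, h1, h2, Sym2.eq_swap]

theorem hat_LCR {u : ℕ → α} (hu : IsRich u) (M : ℕ) : LCR CC (factor (hat u) 0 M) := by
  intro A X hCA hAX hinf
  obtain ⟨p, _, hp2, hp3⟩ := isInfix_factor hinf
  simp only [List.length_cons, List.length_append, List.length_nil] at hp2 hp3
  -- positions
  have hfac : ∀ t < X.length + 2, (A :: (X ++ [A]))[t]? = some (hat u (p + t)) := by
    intro t ht
    rw [hp3, getElem?_factor _ _ _ _ (by omega)]
  have hA0 : hat u p = A := by
    have := hfac 0 (by omega)
    simpa using this.symm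
  have hA1 : hat u (p + (X.length + 1)) = A := by
    have := hfac (X.length + 1) (by omega)
    simpa using this.symm
  have hXt : ∀ t < X.length, X[t]? = some (hat u (p + (t + 1))) := by
    intro t ht
    have := hfac (t + 1) (by omega)
    rw [List.getElem?_cons_succ, List.getElem?_append_left ht] at this
    exact this
  have hXne : ∀ t < X.length, hat u (p + (t + 1)) ≠ A := by
    intro t ht he
    apply hAX
    have := hXt t ht
    rw [he] at this
    exact List.mem_of_getElem? this
  -- it is enough to reflect
  suffices hmain : ∀ t t', t + t' = X.length + 1 → hat u (p + t) = hat u (p + t') by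
    apply List.ext_getElem?
    intro t
    by_cases ht : t < X.length
    · rw [List.getElem?_reverse ht, hXt _ (by omega), hXt _ ht]
      congr 1
      apply hmain
      omega
    · rw [List.getElem?_eq_none (by simp; omega), List.getElem?_eq_none (by omega)]
  rcases Nat.even_or_odd' p with ⟨i, hi | hi⟩
  · -- letter
    subst hi
    rw [hat_even] at hA0
    have hpar : (X.length + 1) % 2 = 0 := by
      by_contra hne
      obtain ⟨s, hs⟩ : ∃ s, X.length + 1 = 2 * s + 1 := ⟨(X.length + 1) / 2, by omega⟩
      have e1 : 2 * i + (X.length + 1) = 2 * (i + s) + 1 := by omega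
      rw [e1, hat_odd, ← hA0] at hA1
      exact absurd hA1 (by simp)
    obtain ⟨c, hc⟩ : ∃ c, X.length + 1 = 2 * c := ⟨(X.length + 1) / 2, by omega⟩
    rw [hc, ← mul_add, hat_even, ← hA0] at hA1
    have hA1' : u (i + c) = u i := Sum.inl.inj hA1
    have hcr := cr hu (i := i) (j := i + c) (m := 1) le_rfl (by omega)
      (by intro t ht; congr 1; omega)
      (by intro t ht; have : t = 0 := by omega
          subst this; simpa using hA1')
      (by
        intro k hk1 hk2
        refine ⟨0, by omega, ?_⟩
        intro he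
        apply hXne (2 * (k - i) - 1) (by omega)
        have e1 : 2 * i + (2 * (k - i) - 1 + 1) = 2 * k := by omega
        rw [e1, hat_even, ← hA0]
        simpa using he)
    have hrefl := hat_reflect (u := u) (c := c) (n := i) (by
      intro t ht t' ht' htt
      rw [hcr t (by omega)]
      congr 1
      omega)
    intro t t' htt
    exact hrefl t t' (by omega)
  · -- pair
    subst hi
    rw [hat_odd] at hA0
    have hpar : (X.length + 1) % 2 = 0 := by
      by_contra hne
      obtain ⟨s, hs⟩ : ∃ s, X.length + 1 = 2 * s + 1 := ⟨(X.length + 1) / 2, by omega⟩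
      have e1 : 2 * i + 1 + (X.length + 1) = 2 * (i + s + 1) := by omega
      rw [e1, hat_even, ← hA0] at hA1
      exact absurd hA1 (by simp)
    obtain ⟨c, hc⟩ : ∃ c, X.length + 1 = 2 * c := ⟨(X.length + 1) / 2, by omega⟩
    have e1 : 2 * i + 1 + (X.length + 1) = 2 * (i + c) + 1 := by omega
    rw [e1, hat_odd, ← hA0] at hA1
    have hdiag : u i = u (i + 1) := by
      rw [← hA0] at hCA
      simpa [CC] using hCA
    have hA1' : s(u (i + c), u (i + c + 1)) = s(u i, u (i + 1)) := Sum.inr.inj hA1
    have hb : u (i + c) = u i ∧ u (i + c + 1) = u (i + 1) := by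
      rw [Sym2.eq_iff] at hA1'
      rcases hA1' with h | h
      · exact h
      · exact ⟨h.1.trans hdiag.symm, h.2.trans hdiag⟩
    have hcr := cr hu (i := i) (j := i + c) (m := 2) (by omega) (by omega)
      (by
        intro t ht
        interval_cases t
        · simpa using hdiag
        · simpa using hdiag.symm)
      (by
        intro t ht
        interval_cases t
        · simpa using hb.1
        · exact hb.2)
      (by
        intro k hk1 hk2
        by_contra hcon
        push Not at hcon
        have h0 := hcon 0 (by omega)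
        have h1 := hcon 1 (by omega)
        apply hXne (2 * (k - i) - 1) (by omega)
        have e1 : 2 * i + 1 + (2 * (k - i) - 1 + 1) = 2 * k + 1 := by omega
        rw [e1, hat_odd, ← hA0]
        simp only [add_zero] at h0
        rw [h0, h1])
    have hrefl := hat_reflect (u := u) (c := c + 1) (n := i) (by
      intro t ht t' ht' htt
      rw [hcr t (by omega)]
      congr 1
      omega)
    intro t t' htt
    have := hrefl (t + 1) (t' + 1) (by omega)
    have e1 : 2 * i + 1 + t = 2 * i + (t + 1) := by omega
    have e2 : 2 * i + 1 + t' = 2 * i + (t' + 1) := by omega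
    rw [e1, e2]; exact this

/-- `u` has an overlap of period `m` at position `i`. -/
def OvAt (u : ℕ → α) (i m : ℕ) : Prop := ∀ t ≤ m, u (i + t) = u (i + m + t)

theorem hat_SqFree {u : ℕ → α} {N : ℕ} (hN : 1 ≤ N)
    (hov : ∀ i m, 1 ≤ m → i + 2 * m < N → ¬ OvAt u i m) :
    SqFree (factor (hat u) 0 (2 * N - 1)) := by
  intro x hx hinf
  obtain ⟨p, _, hp2, hp3⟩ := isInfix_factor hinf
  simp only [List.length_append] at hp2 hp3
  have hl : 1 ≤ x.length := by
    rcases Nat.eq_zero_or_pos x.length with h | h
    · exact absurd (List.eq_nil_of_length_eq_zero h) hx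
    · exact h
  have hx1 : ∀ t < x.length, x[t]? = some (hat u (p + t)) := by
    intro t ht
    have : (x ++ x)[t]? = some (hat u (p + t)) := by
      rw [hp3, getElem?_factor _ _ _ _ (by omega)]
    rwa [List.getElem?_append_left ht] at this
  have hx2 : ∀ t < x.length, x[t]? = some (hat u (p + (x.length + t))) := by
    intro t ht
    have : (x ++ x)[x.length + t]? = some (hat u (p + (x.length + t))) := by
      rw [hp3, getElem?_factor _ _ _ _ (by omega)]
    rw [List.getElem?_append_right (by omega)] at this
    rwa [show x.length + t - x.length = t by omega] at this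
  have hper : ∀ t < x.length, hat u (p + t) = hat u (p + (x.length + t)) := by
    intro t ht
    have h1 := hx1 t ht
    rw [hx2 t ht] at h1
    exact (Option.some.inj h1).symm
  have hpar : x.length % 2 = 0 := by
    by_contra hne
    have h0 := hper 0 (by omega)
    rcases Nat.even_or_odd' p with ⟨i, hi | hi⟩
    · have e1 : p + 0 = 2 * i := by omega
      have e2 : p + (x.length + 0) = 2 * (i + x.length / 2) + 1 := by omega
      rw [e1, e2, hat_even, hat_odd] at h0
      exact absurd h0 (by simp)
    · have e1 : p + 0 = 2 * i + 1 := by omega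
      have e2 : p + (x.length + 0) = 2 * (i + x.length / 2 + 1) := by omega
      rw [e1, e2, hat_even, hat_odd] at h0
      exact absurd h0 (by simp)
  obtain ⟨m, hm⟩ : ∃ m, x.length = 2 * m := ⟨x.length / 2, by omega⟩
  rcases Nat.even_or_odd' p with ⟨i, hi | hi⟩
  · apply hov i m (by omega) (by omega)
    have hlt : ∀ t < m, u (i + t) = u (i + m + t) := by
      intro t ht
      have h0 := hper (2 * t) (by omega)
      have e1 : p + 2 * t = 2 * (i + t) := by omega
      have e2 : p + (x.length + 2 * t) = 2 * (i + m + t) := by omega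
      rw [e1, e2, hat_even, hat_even] at h0
      exact Sum.inl.inj h0
    intro t ht
    rcases Nat.lt_or_ge t m with h | h
    · exact hlt t h
    · have htm : t = m := by omega
      subst htm
      have h0 := hper (2 * (t - 1) + 1) (by omega)
      have e1 : p + (2 * (t - 1) + 1) = 2 * (i + (t - 1)) + 1 := by omega
      have e2 : p + (x.length + (2 * (t - 1) + 1)) = 2 * (i + t + (t - 1)) + 1 := by omega
      rw [e1, e2, hat_odd, hat_odd] at h0
      have h1 := Sum.inr.inj h0
      rw [hlt (t - 1) (by omega)] at h1
      have h2 := (Sym2.congr_right).1 h1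
      have e3 : i + (t - 1) + 1 = i + t := by omega
      have e4 : i + t + (t - 1) + 1 = i + t + t := by omega
      rw [e3, e4] at h2
      exact h2
  · apply hov i m (by omega) (by omega)
    have hlt : ∀ t < m, u (i + (t + 1)) = u (i + m + (t + 1)) := by
      intro t ht
      have h0 := hper (2 * t + 1) (by omega)
      have e1 : p + (2 * t + 1) = 2 * (i + (t + 1)) := by omega
      have e2 : p + (x.length + (2 * t + 1)) = 2 * (i + m + (t + 1)) := by omega
      rw [e1, e2, hat_even, hat_even] at h0
      exact Sum.inl.inj h0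
    intro t ht
    rcases Nat.eq_zero_or_pos t with h | h
    · subst h
      have h0 := hper 0 (by omega)
      have e1 : p + 0 = 2 * i + 1 := by omega
      have e2 : p + (x.length + 0) = 2 * (i + m) + 1 := by omega
      rw [e1, e2, hat_odd, hat_odd] at h0
      have h1 := Sum.inr.inj h0
      have h3 := hlt 0 (by omega)
      simp only [zero_add] at h3
      rw [h3] at h1
      have h2 := (Sym2.congr_left).1 h1
      simpa using h2
    · have := hlt (t - 1) (by omega)
      rwa [show t - 1 + 1 = t by omega] at this

theorem hat_Cent (u : ℕ → α) (M : ℕ) : Cent CC (factor (hat u) 0 M) := by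
  intro A B hinf
  obtain ⟨p, _, _, hp3⟩ := isInfix_factor hinf
  simp only [List.length_cons, List.length_nil] at hp3
  have h0 : hat u (p + 0) = A := by
    have := getElem?_factor (hat u) p 3 0 (by omega)
    rw [show (3 : ℕ) = 0 + 1 + 1 + 1 by rfl, ← hp3] at this
    simpa using this.symm
  have h1 : hat u (p + 1) = B := by
    have := getElem?_factor (hat u) p 3 1 (by omega)
    rw [show (3 : ℕ) = 0 + 1 + 1 + 1 by rfl, ← hp3] at this
    simpa using this.symm
  have h2 : hat u (p + 2) = A := by
    have := getElem?_factor (hat u) p 3 2 (by omega)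
    rw [show (3 : ℕ) = 0 + 1 + 1 + 1 by rfl, ← hp3] at this
    simpa using this.symm
  rcases Nat.even_or_odd' p with ⟨i, hi | hi⟩
  · have e0 : p + 0 = 2 * i := by omega
    have e1 : p + 1 = 2 * i + 1 := by omega
    have e2 : p + 2 = 2 * (i + 1) := by omega
    rw [e0, hat_even] at h0
    rw [e2, hat_even] at h2
    rw [e1, hat_odd] at h1
    rw [← h0] at h2
    have := Sum.inl.inj h2
    rw [← h1]
    simp [CC, this]
  · have e1 : p + 1 = 2 * (i + 1) := by omega
    rw [e1, hat_even] at h1
    rw [← h1]
    simp [CC]

theorem hat_Adj (u : ℕ → α) (M : ℕ) : Adj CC (factor (hat u) 0 M) := by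
  intro A B hinf
  obtain ⟨p, _, _, hp3⟩ := isInfix_factor hinf
  simp only [List.length_cons, List.length_nil] at hp3
  have h0 : hat u (p + 0) = A := by
    have := getElem?_factor (hat u) p 2 0 (by omega)
    rw [show (2 : ℕ) = 0 + 1 + 1 by rfl, ← hp3] at this
    simpa using this.symm
  have h1 : hat u (p + 1) = B := by
    have := getElem?_factor (hat u) p 2 1 (by omega)
    rw [show (2 : ℕ) = 0 + 1 + 1 by rfl, ← hp3] at this
    simpa using this.symm
  rcases Nat.even_or_odd' p with ⟨i, hi | hi⟩
  · left
    have e0 : p + 0 = 2 * i := by omega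
    rw [e0, hat_even] at h0
    rw [← h0]; simp [CC]
  · right
    have e1 : p + 1 = 2 * (i + 1) := by omega
    rw [e1, hat_even] at h1
    rw [← h1]; simp [CC]

theorem kap_hat {d : ℕ} (w : List (Fin d ⊕ Sym2 (Fin d))) : kap CC w ≤ 2 * d := by
  have h1 : {y | y ∈ w ∧ CC y} ⊆
      Set.range (Sum.elim (fun a : Fin d => (Sum.inl a : Fin d ⊕ Sym2 (Fin d)))
        (fun a : Fin d => Sum.inr s(a, a))) := by
    rintro (a | s) ⟨_, hy⟩
    · exact ⟨Sum.inl a, rfl⟩
    · induction s using Sym2.ind with
      | _ x y =>
      have hxy : x = y := by simpa [CC] using hy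
      exact ⟨Sum.inr x, by simp [hxy]⟩
  calc kap CC w ≤ (Set.range (Sum.elim (fun a : Fin d => (Sum.inl a : Fin d ⊕ Sym2 (Fin d)))
        (fun a : Fin d => Sum.inr s(a, a)))).ncard :=
        Set.ncard_le_ncard h1 (Set.finite_range _)
    _ ≤ Nat.card (Fin d ⊕ Fin d) := by
        rw [← Set.image_univ, ← Set.ncard_univ]
        exact Set.ncard_image_le Set.finite_univ
    _ = 2 * d := by simp; omega

/-- Every rich word of length `pell (2 d + 1) + 1` over `d` letters contains an overlap. -/
theorem exists_overlap {d : ℕ} {u : ℕ → Fin d} (hu : IsRich u) :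
    ∃ i m, 1 ≤ m ∧ i + 2 * m < pell (2 * d + 1) + 1 ∧ OvAt u i m := by
  by_contra hcon
  push Not at hcon
  have hS := hat_SqFree (u := u) (N := pell (2 * d + 1) + 1) (by omega)
    (fun i m h1 h2 => hcon i m h1 h2)
  have h := (bound (C := CC) (2 * d)).1 _ (hat_LCR hu _) hS (hat_Cent u _) (hat_Adj u _) (kap_hat _)
  rw [length_factor] at h
  omega

theorem leastPeriod_le {w : List α} {p : ℕ} (hp : 1 ≤ p)
    (h : ∀ i, i + p < w.length → w[i]? = w[i + p]?) : leastPeriod w ≤ p :=
  Nat.sInf_le ⟨hp, h⟩

theorem leastPeriod_mem (w : List α) :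
    1 ≤ leastPeriod w ∧ ∀ i, i + leastPeriod w < w.length → w[i]? = w[i + leastPeriod w]? := by
  have : leastPeriod w ∈ {p | 1 ≤ p ∧ ∀ i, i + p < w.length → w[i]? = w[i + p]?} := by
    apply Nat.sInf_mem
    exact ⟨w.length + 1, by omega, fun i hi => by omega⟩
  exact this

theorem critExp_ge_of_ov {u : ℕ → α} {i m : ℕ} (hm : 1 ≤ m) (h : OvAt u i m) :
    2 + 1 / (m : ℝ≥0∞) ≤ critExp u := by
  have h1 : expo (factor u i (2 * m + 1)) ≤ critExp u := by
    refine le_iSup_of_le i (le_iSup_of_le (2 * m + 1) (le_iSup_of_le (by omega) le_rfl))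
  refine le_trans ?_ h1
  have hlp : leastPeriod (factor u i (2 * m + 1)) ≤ m := by
    apply leastPeriod_le hm
    intro t ht
    rw [length_factor] at ht
    rw [getElem?_factor _ _ _ _ (by omega), getElem?_factor _ _ _ _ (by omega), h t (by omega)]
    congr 2
    omega
  rw [expo, length_factor]
  have hm0 : (m : ℝ≥0∞) ≠ 0 := by simp; omega
  have hmt : (m : ℝ≥0∞) ≠ ⊤ := ENNReal.natCast_ne_top m
  calc 2 + 1 / (m : ℝ≥0∞) = (2 * m + 1 : ℝ≥0∞) / m := by
        rw [ENNReal.add_div, ENNReal.mul_div_cancel_right hm0 hmt]
    _ ≤ ((2 * m + 1 : ℕ) : ℝ≥0∞) / (leastPeriod (factor u i (2 * m + 1)) : ℝ≥0∞) := by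
        push_cast
        exact ENNReal.div_le_div_left (by exact_mod_cast hlp) _

/-- Lower bound for the critical exponent of rich sequences. -/
theorem critExp_ge {d : ℕ} {u : ℕ → Fin d} (hu : IsRich u) :
    2 + 2 / (pell (2 * d + 1) : ℝ≥0∞) ≤ critExp u := by
  obtain ⟨i, m, hm, hlt, hov⟩ := exists_overlap hu
  refine le_trans ?_ (critExp_ge_of_ov hm hov)
  refine add_le_add le_rfl ?_
  have hm0 : (m : ℝ≥0∞) ≠ 0 := by simp; omega
  have hmt : (m : ℝ≥0∞) ≠ ⊤ := ENNReal.natCast_ne_top m
  calc 2 / (pell (2 * d + 1) : ℝ≥0∞) ≤ 2 / ((2 * m : ℕ) : ℝ≥0∞) := by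
        apply ENNReal.div_le_div_left
        exact_mod_cast (show 2 * m ≤ pell (2 * d + 1) by omega)
    _ = 1 / (m : ℝ≥0∞) := by
        push_cast
        have := ENNReal.mul_div_mul_left (1 : ℝ≥0∞) (m : ℝ≥0∞) (c := 2) (by simp) (by simp)
        rwa [mul_one] at this

end Pool.Agent.Helper20.Rich
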