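import Pool.Agent.Helper20.Rich.Exp

/-!
The base in which every small word is a power of a letter.
-/

namespace Pool.Agent.Helper20.Rich

variable {α : Type*}

/-- Letters `lam σ c`, `1 ≤ c ≤ j`; the base word number `c` is empty for `c = 0`, the letter
`lam σ c` for odd `c` and its square for even `c > 0`. -/
structure PB (α : Type*) where
  j : ℕ
  lam : Bool → ℕ → α
  hj : 2 ≤ j
  jodd : j % 2 = 1
  hub : ∀ σ τ c, 1 ≤ c → c ≤ j → lam σ c = lam τ j → σ = τ ∧ c = j
  small : ∀ σ τ c d, 1 ≤ c → c ≤ d → d < j → lam σ c = lam τ d →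
    σ = τ ∧ (d = c ∨ (d = c + 1 ∧ c % 2 = 1))

/-- multiplicity -/
def mult (c : ℕ) : ℕ := if c = 0 then 0 else if c % 2 = 1 then 1 else 2

theorem mult_pos {c : ℕ} (h : 1 ≤ c) : 1 ≤ mult c := by
  unfold mult; split_ifs <;> omega

theorem mult_le (c : ℕ) : mult c ≤ 2 := by
  unfold mult; split_ifs <;> omega

theorem mult_odd {c : ℕ} (h : c % 2 = 1) : mult c = 1 := by
  unfold mult; split_ifs <;> omega

theorem mult_even {c : ℕ} (h : c % 2 = 0) (h' : 1 ≤ c) : mult c = 2 := by
  unfold mult; split_ifs <;> omega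

namespace PB

variable (P : PB α)

theorem hubne (σ : Bool) : P.lam σ P.j ≠ P.lam (!σ) P.j := by
  intro h
  have := (P.hub σ (!σ) P.j (by have := P.hj; omega) le_rfl h).1
  cases σ <;> simp at this

/-- the base of towers -/
def toBase : Base α where
  j := P.j
  w σ c := List.replicate (mult c) (P.lam σ c)
  e _ := 0
  hj := P.hj
  pal σ n _ := by simp
  len n _ := by simp
  hub σ := by
    rw [mult_odd P.jodd]
    simp
  bm σ r hr := by
    rw [mult_odd P.jodd]
    rcases Nat.eq_zero_or_pos r with h | h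
    · subst h
      exact ⟨0, le_rfl, P.lam σ P.j, P.lam (!σ) P.j, by simp, by simp [mult], P.hubne σ⟩
    · refine ⟨0, le_rfl, P.lam σ P.j, P.lam σ r, by simp, ?_, ?_⟩
      · rw [List.getElem?_append_left (by simp; exact mult_pos h),
          List.getElem?_replicate_of_lt (mult_pos h)]
      · intro h'
        have := (P.hub σ σ r h hr.le h'.symm).2
        omega
  sm σ n m hnm hmj := by
    rw [mult_odd P.jodd]
    rcases Nat.eq_zero_or_pos n with h | h
    · subst h
      refine ⟨0, by omega, P.lam (!σ) P.j, P.lam σ m, by simp [mult], ?_, ?_⟩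
      · rw [List.getElem?_append_left (by simp; exact mult_pos (by omega)),
          List.getElem?_replicate_of_lt (mult_pos (by omega))]
      · intro h'
        have := (P.hub σ (!σ) m (by omega) (by omega) h'.symm).1
        cases σ <;> simp at this
    · by_cases hne : P.lam σ n = P.lam σ m
      · obtain ⟨_, h2⟩ := P.small σ σ n m h hnm.le hmj hne
        have h3 : m = n + 1 ∧ n % 2 = 1 := by omega
        rw [if_pos ⟨h3.2, h3.1⟩]
        refine ⟨1, le_rfl, P.lam (!σ) P.j, P.lam σ m, ?_, ?_, ?_⟩
        · rw [mult_odd h3.2]; simp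
        · rw [mult_even (by omega) (by omega)]; simp
        · intro h'
          have := (P.hub σ (!σ) m (by omega) (by omega) h'.symm).1
          cases σ <;> simp at this
      · refine ⟨0, by omega, P.lam σ n, P.lam σ m, ?_, ?_, hne⟩
        · rw [List.getElem?_append_left (by simp; exact mult_pos h),
            List.getElem?_replicate_of_lt (mult_pos h)]
        · rw [List.getElem?_append_left (by simp; exact mult_pos (by omega)),
            List.getElem?_replicate_of_lt (mult_pos (by omega))]

@[simp] theorem toBase_j : P.toBase.j = P.j := rfl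

theorem W_small (σ : Bool) {c : ℕ} (h : c ≤ P.j) :
    P.toBase.W σ c = List.replicate (mult c) (P.lam σ c) := P.toBase.W_le h

theorem l_small {c : ℕ} (h : c ≤ P.j) : P.toBase.l c = mult c := by
  rw [Base.l, P.W_small false h]; simp

theorem l_hub : P.toBase.l P.j = 1 := by rw [P.l_small le_rfl, mult_odd P.jodd]

theorem l_pos' {n : ℕ} (h : 1 ≤ n) : 1 ≤ P.toBase.l n := by
  rcases Nat.lt_or_ge P.j n with h' | h'
  · exact P.toBase.l_pos h'.le
  · rw [P.l_small h']; exact mult_pos h

theorem S_small {n : ℕ} (h : n < P.j) : P.toBase.S n = 0 := Base.S_lt h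

/-- every position lies in a block of level `0`. -/
theorem block_of (i : ℕ) : ∃ s, P.toBase.pos 0 s ≤ i ∧ i < P.toBase.pos 0 (s + 1) := by
  by_contra hcon
  push Not at hcon
  have : ∀ s, P.toBase.pos 0 s ≤ i := by
    intro s
    induction s with
    | zero => simp
    | succ s ih => exact hcon s ih
  have h1 := this (2 * (i + 1))
  have h2 := Base.pos_ge (b := P.toBase) 0 (i + 1)
  omega

variable {P} {x0 : α}

theorem letter {i s c : ℕ} {σ : Bool} (h : DD P.j s = (σ, c)) (h1 : P.toBase.pos 0 s ≤ i)
    (h2 : i < P.toBase.pos 0 (s + 1)) : P.toBase.u x0 i = P.lam σ c ∧ 1 ≤ c ∧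
      i < P.toBase.pos 0 s + mult c := by
  have hc := DD_le P.j s
  rw [h] at hc
  simp only at hc
  have h3 := Base.pos_idx (b := P.toBase) (k := 0) h
  rw [zero_add, P.l_small hc] at h3
  have h4 := Base.pos_block x0 (b := P.toBase) 0 s
  rw [toBase_j, h] at h4
  simp only [zero_add] at h4
  rw [P.W_small σ hc] at h4
  refine ⟨?_, ?_, by omega⟩
  · have h5 := h4.get (t := i - P.toBase.pos 0 s) (a := P.lam σ c)
      (by rw [List.getElem?_replicate_of_lt (by omega)])
    rwa [show P.toBase.pos 0 s + (i - P.toBase.pos 0 s) = i by omega] at h5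
  · by_contra hcon
    have : c = 0 := by omega
    subst this
    simp only [mult, if_true] at h3
    omega

theorem letter' (i : ℕ) : ∃ s σ c, DD P.j s = (σ, c) ∧ P.toBase.pos 0 s ≤ i ∧
    i < P.toBase.pos 0 (s + 1) ∧ P.toBase.u x0 i = P.lam σ c ∧ 1 ≤ c ∧ c ≤ P.j := by
  obtain ⟨s, h1, h2⟩ := P.block_of i
  have h3 := letter (x0 := x0) (s := s) (σ := (DD P.j s).1) (c := (DD P.j s).2) rfl h1 h2
  exact ⟨s, _, _, rfl, h1, h2, h3.1, h3.2.1, DD_le P.j s⟩

theorem natBase : P.toBase.NatBase x0 := by
  intro σ i hocc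
  change Occ _ i (List.replicate (mult P.j) (P.lam σ P.j)) at hocc
  rw [mult_odd P.jodd] at hocc
  have h1 := hocc.get (t := 0) (a := P.lam σ P.j) (by simp)
  rw [add_zero] at h1
  obtain ⟨s, τ, c, e1, e2, e3, e4, e5, e6⟩ := letter' (P := P) (x0 := x0) i
  rw [h1] at e4
  obtain ⟨rfl, rfl⟩ := P.hub τ σ c e5 e6 e4.symm
  refine ⟨s, e1, ?_⟩
  have := (letter (x0 := x0) e1 e2 e3).2.2
  rw [mult_odd P.jodd] at this
  omega

/-- first occurrences of small words -/
theorem first_t {K z : ℕ} (h1 : 1 ≤ K) (hK : K < P.j) (hz : z < P.toBase.l (K + P.j)) :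
    ¬ Occ (P.toBase.u x0) z (P.toBase.W true K) := by
  intro hocc
  rw [P.W_small true hK.le] at hocc
  have hm := mult_pos h1
  have g1 := hocc.get (t := 0) (a := P.lam true K) (by rw [List.getElem?_replicate_of_lt (by omega)])
  rw [add_zero] at g1
  obtain ⟨s, τ, c, e1, e2, e3, e4, e5, e6⟩ := letter' (P := P) (x0 := x0) z
  rw [g1] at e4
  have hcj : c < P.j := by
    rcases Nat.lt_or_ge c P.j with h | h
    · exact h
    · have : c = P.j := by omega
      subst this
      have := (P.hub true τ K h1 hK.le e4).2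
      omega
  rcases Nat.lt_or_ge c K with h | h
  · obtain ⟨rfl, h3⟩ := P.small τ true c K e5 h.le hK e4.symm
    have h4 : K = c + 1 ∧ c % 2 = 1 := by omega
    have hm2 := mult_even (c := K) (by omega) h1
    have hm1 := mult_odd h4.2
    have h5 := (letter (x0 := x0) e1 e2 e3).2.2
    have h6 := Base.sep_right (b := P.toBase) (s := s) hcj e1
    have h7 := Base.pos_idx (b := P.toBase) (k := 0) e1
    rw [zero_add, P.l_small e6, hm1] at h7
    have h8 := Base.pos_hub (b := P.toBase) (k := 0) (s := s + 1) h6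
    rw [zero_add, toBase_j, P.l_hub] at h8
    have g2 := hocc.get (t := 1) (a := P.lam true K)
      (by rw [List.getElem?_replicate_of_lt (by omega)])
    have g3 := (letter (x0 := x0) (i := z + 1) (s := s + 1) h6 (by omega) (by omega)).1
    rw [g2] at g3
    have := (P.hub true (!true) K h1 hK.le g3).1
    simp at this
  · obtain ⟨rfl, h3⟩ := P.small true τ K c h1 h hcj e4
    have := Base.FO_tc (b := P.toBase) c 0 s hcj e1
    rw [zero_add] at this
    have h4 := P.toBase.l_mono (m := K + P.j) (n := c + P.j) (by simp) (by omega)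
    simp only [toBase_j] at this
    omega

theorem first_f {K z : ℕ} (h1 : 1 ≤ K) (hK : K < P.j)
    (hz : z < P.toBase.l (K + P.j + 1 + P.j) + P.toBase.l (K + P.j)) :
    ¬ Occ (P.toBase.u x0) z (P.toBase.W false K) := by
  intro hocc
  rw [P.W_small false hK.le] at hocc
  have hm := mult_pos h1
  have g1 := hocc.get (t := 0) (a := P.lam false K) (by rw [List.getElem?_replicate_of_lt (by omega)])
  rw [add_zero] at g1
  obtain ⟨s, τ, c, e1, e2, e3, e4, e5, e6⟩ := letter' (P := P) (x0 := x0) z
  rw [g1] at e4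
  have hcj : c < P.j := by
    rcases Nat.lt_or_ge c P.j with h | h
    · exact h
    · have : c = P.j := by omega
      subst this
      have := (P.hub false τ K h1 hK.le e4).2
      omega
  rcases Nat.lt_or_ge c K with h | h
  · obtain ⟨rfl, h3⟩ := P.small τ false c K e5 h.le hK e4.symm
    have h4 : K = c + 1 ∧ c % 2 = 1 := by omega
    have hm2 := mult_even (c := K) (by omega) h1
    have hm1 := mult_odd h4.2
    have h5 := (letter (x0 := x0) e1 e2 e3).2.2
    have h6 := Base.sep_right (b := P.toBase) (s := s) hcj e1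
    have h7 := Base.pos_idx (b := P.toBase) (k := 0) e1
    rw [zero_add, P.l_small e6, hm1] at h7
    have h8 := Base.pos_hub (b := P.toBase) (k := 0) (s := s + 1) h6
    rw [zero_add, toBase_j, P.l_hub] at h8
    have g2 := hocc.get (t := 1) (a := P.lam false K)
      (by rw [List.getElem?_replicate_of_lt (by omega)])
    have g3 := (letter (x0 := x0) (i := z + 1) (s := s + 1) h6 (by omega) (by omega)).1
    rw [g2] at g3
    have := (P.hub false (!false) K h1 hK.le g3).1
    simp at this
  · obtain ⟨rfl, h3⟩ := P.small false τ K c h1 h hcj e4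
    have := Base.FO_fc (b := P.toBase) c 0 s hcj e1
    rw [zero_add] at this
    have h4 := P.toBase.l_mono (m := K + P.j) (n := c + P.j) (by simp) (by omega)
    have h5 := P.toBase.l_mono (m := K + P.j + 1 + P.j) (n := c + 1 + P.j + P.j)
      (by simp) (by omega)
    simp only [toBase_j] at this
    omega

end PB

namespace Base

variable {b : Base α} {x0 : α}

theorem new_ct {k x : ℕ} (hx : x ≤ b.l (k + b.j)) (hpos : 1 ≤ b.l k + x)
    (hL : b.l (k + 1 + b.j) = 2 * b.l (k + b.j) + b.l k)
    (hfirst : ∀ z < b.l (k + b.j), ¬ Occ (b.u x0) z (b.W true k)) :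
    New (b.u x0) (b.l (k + b.j) + b.l k + x) := by
  refine ⟨b.l (k + b.j) - x, by omega, ?_, ?_⟩
  · intro t ht
    apply u_reflect x0 (k + 1)
    rw [hL]
    omega
  · intro a' ha' hmatch
    have hocc1 : Occ (b.u x0) (b.l (k + b.j)) (b.W true k) := by
      have h1 := pos_block x0 (b := b) k 1
      rw [DD_one, pos_one] at h1
      simpa using h1
    apply hfirst (a' + x) (by omega)
    apply Occ.of_get
    intro t ht
    rw [length_W] at ht
    rw [hocc1.get' (by rw [length_W]; exact ht)]
    have := hmatch (x + t) (by omega)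
    rw [show a' + x + t = a' + (x + t) by omega, this]
    congr 2
    omega

/-- the block of the first separator at level `r + j + 1`. -/
theorem blk_f (r : ℕ) : Occ (b.u x0) (b.l (r + b.j + 1 + b.j))
    (b.W true (r + b.j) ++ b.W false r ++ b.W true (r + b.j)) ∧
    b.l (r + b.j + 1) = 2 * b.l (r + b.j) + b.l r := by
  have h1 := pos_block x0 (b := b) (r + b.j + 1) 1
  rw [DD_one, pos_one, add_zero] at h1
  have h2 := b.W_succ (σ := true) (n := r + b.j) (by omega)
  have h3 := b.l_succ (n := r + b.j) (by omega)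
  rw [Nat.add_sub_cancel] at h2 h3
  rw [h2] at h1
  exact ⟨h1, h3⟩

theorem refl_f (r : ℕ) {y z : ℕ} (hyz : y + z + 1 = b.l (r + b.j + 1)) :
    b.u x0 (b.l (r + b.j + 1 + b.j) + y) = b.u x0 (b.l (r + b.j + 1 + b.j) + z) := by
  have h1 := pos_block x0 (b := b) (r + b.j + 1) 1
  rw [DD_one, pos_one, add_zero] at h1
  have hpal : (factor (b.u x0) (b.l (r + b.j + 1 + b.j)) (b.l (r + b.j + 1))).reverse =
      factor (b.u x0) (b.l (r + b.j + 1 + b.j)) (b.l (r + b.j + 1)) := by
    unfold Occ at h1
    rw [length_W] at h1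
    rw [h1, b.W_pal]
  have := factor_reverse_iff.1 hpal y (by omega)
  rw [this]
  congr 1
  omega

theorem new_cf {r x : ℕ} (hx : x ≤ b.l (r + b.j)) (hpos : 1 ≤ b.l r + x)
    (hfirst : ∀ z < b.l (r + b.j + 1 + b.j) + b.l (r + b.j), ¬ Occ (b.u x0) z (b.W false r)) :
    New (b.u x0) (b.l (r + b.j + 1 + b.j) + b.l (r + b.j) + b.l r + x) := by
  obtain ⟨hblk, hl⟩ := blk_f (b := b) (x0 := x0) r
  set P := b.l (r + b.j + 1 + b.j) with hP
  set A := b.l (r + b.j) with hA
  refine ⟨P + A - x, by omega, ?_, ?_⟩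
  · intro t ht
    have := refl_f (b := b) (x0 := x0) r (y := A - x + t) (z := A + b.l r + x - 1 - t) (by omega)
    rw [← hP] at this
    rw [show P + A - x + t = P + (A - x + t) by omega, this]
    congr 1
    omega
  · intro a' ha' hmatch
    have hocc1 : Occ (b.u x0) (P + A) (b.W false r) := by
      have h3 := (occ_append.1 (occ_append.1 hblk).1).2
      rwa [length_W] at h3
    apply hfirst (a' + x) (by omega)
    apply Occ.of_get
    intro t ht
    rw [length_W] at ht
    rw [hocc1.get' (by rw [length_W]; exact ht)]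
    have := hmatch (x + t) (by omega)
    rw [show a' + x + t = a' + (x + t) by omega, this]
    congr 2
    omega

end Base

end Pool.Agent.Helper20.Rich
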