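import Pool.Agent.Helper20.Rich.PRich

/-!
Lengths over a power-type base.
-/

namespace Pool.Agent.Helper20.Rich

variable {α : Type*} {P : PB α} {x0 : α}

namespace Base

theorem l_pow {b : Base α} {n : ℕ} (h : b.j ≤ n) (m : ℕ) : 2 ^ m * b.l n ≤ b.l (n + m) := by
  induction m with
  | zero => simp
  | succ m ih =>
    have := b.l_two (n := n + m) (by omega)
    rw [pow_succ, ← Nat.add_assoc]
    calc 2 ^ m * 2 * b.l n = 2 * (2 ^ m * b.l n) := by ring
      _ ≤ 2 * b.l (n + m) := by omega
      _ ≤ _ := this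

end Base

namespace PB

/-- a window without hub letters is short. -/
theorem short {i p n : ℕ} (hp : 1 ≤ p)
    (hm : ∀ t < n, P.toBase.u x0 (i + t) = P.toBase.u x0 (i + p + t))
    (hno : ∀ r τ, DD P.j r = (τ, P.j) → i ≤ P.toBase.pos 0 r → P.toBase.pos 0 (r + 1) ≤ i + n →
      False) : n ≤ p := by
  rcases Nat.eq_zero_or_pos n with h0 | h0
  · omega
  obtain ⟨s, σ, c, e1, e2, e3, e4, e5, e6⟩ := letter' (P := P) (x0 := x0) i
  have hb := (letter (x0 := x0) e1 e2 e3).2.2
  have hpos := Base.pos_idx (b := P.toBase) (k := 0) e1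
  rw [zero_add, P.l_small e6] at hpos
  have hcj : c < P.j := by
    rcases Nat.lt_or_ge c P.j with h | h
    · exact h
    · exfalso
      have : c = P.j := by omega
      subst this
      rw [mult_odd P.jodd] at hb hpos
      exact hno s σ e1 (by omega) (by omega)
  have h1 := Base.sep_right (b := P.toBase) hcj e1
  have h2 := Base.pos_hub (b := P.toBase) (k := 0) h1
  rw [zero_add, toBase_j, P.l_hub] at h2
  have h3 : i + n < P.toBase.pos 0 (s + 1 + 1) := by
    by_contra hcon
    exact hno (s + 1) _ h1 (by omega) (by omega)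
  have hm2 := mult_le c
  by_contra hcon
  have hn : n = 2 ∧ p = 1 := by omega
  obtain ⟨rfl, rfl⟩ := hn
  have h4 := hm 1 (by omega)
  have h5 := (letter (x0 := x0) (i := i + 1) e1 (by omega) (by omega)).1
  have h6 := (letter (x0 := x0) (i := i + 1 + 1) h1 (by omega) (by omega)).1
  rw [h5, h6] at h4
  have := (P.hub σ (!σ) c e5 e6 h4).2
  omega

theorem TT_small {k c c' : ℕ} (h : k + c' < P.j) : P.toBase.TT k c c' ≤ 1 := by
  unfold Base.TT
  rw [toBase_j, if_pos h]
  split_ifs <;> omega

theorem TT_zero {k c : ℕ} (hc : 1 ≤ c) (hk : k < P.j) :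
    P.toBase.TT k 0 c = 0 ∨ (P.toBase.TT k 0 c = 1 ∧ c = 1 ∧ k % 2 = 1 ∧ k + 1 < P.j) := by
  unfold Base.TT
  rw [toBase_j]
  split_ifs with h1 h2
  · right
    omega
  · left; rfl
  · left
    rw [add_zero, P.S_small hk]

theorem TT_large {k c : ℕ} (hk : P.j ≤ k) : P.toBase.TT k 0 c = P.toBase.S k := by
  unfold Base.TT
  rw [toBase_j, if_neg (by omega), add_zero]

theorem expHyp {ε : ℝ} (hε : 0 ≤ ε)
    (A1 : ∀ k, P.j ≤ k → (P.toBase.l (k + P.j) : ℝ) + 2 * P.toBase.S k ≤
      (1 + ε) * (P.toBase.l (k + P.j) + P.toBase.l k))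
    (A2 : ∀ n, P.j ≤ n → 2 * (P.toBase.S n : ℝ) ≤ (1 + ε) * P.toBase.l (n + 1)) :
    P.toBase.ExpHyp x0 ε := by
  have hj := P.hj
  have hmono : ∀ k c, P.j ≤ k → (P.toBase.l k : ℝ) ≤ P.toBase.l (k + c) := by
    intro k c hk
    exact_mod_cast P.toBase.l_mono hk (by omega)
  have hLpos : ∀ k, (1 : ℝ) ≤ P.toBase.l (k + P.j) := by
    intro k
    exact_mod_cast P.l_pos' (n := k + P.j) (by omega)
  have hlnn : ∀ n, (0 : ℝ) ≤ P.toBase.l n := by intro n; positivity
  refine ⟨natBase, hε, ?_, ?_, ?_, ?_, ?_, ?_⟩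
  · intro k c c' hcc hc'
    rw [toBase_j] at hc' ⊢
    have hL := hLpos k
    rcases Nat.lt_or_ge (k + c') P.j with h | h
    · have h1 : (P.toBase.TT k c c' : ℝ) ≤ 1 := by exact_mod_cast TT_small h
      nlinarith
    · have h1 : P.toBase.TT k c c' = P.toBase.S (k + c) := by
        unfold Base.TT
        rw [toBase_j, if_neg (by omega)]
      rw [h1]
      rcases Nat.lt_or_ge (k + c) P.j with h2 | h2
      · rw [P.S_small h2]
        simp only [CharP.cast_eq_zero, mul_zero]
        positivity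
      · have h3 := A2 (k + c) h2
        have h4 : (P.toBase.l (k + c + 1) : ℝ) ≤ P.toBase.l (k + P.j) := by
          exact_mod_cast P.toBase.l_mono (show P.toBase.j ≤ k + c + 1 by rw [toBase_j]; omega)
            (show k + c + 1 ≤ k + P.j by omega)
        nlinarith
  · intro k
    rw [toBase_j]
    have hL := hLpos k
    have hl := hlnn k
    rcases Nat.lt_or_ge k P.j with h | h
    · rw [P.S_small h]
      simp only [CharP.cast_eq_zero, mul_zero]
      positivity
    · have := A1 k h
      linarith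
  · intro k c hc _
    have := P.l_pos' (n := k + c) (by omega)
    omega
  · intro k c hc hcj
    rw [toBase_j]
    have hL := hLpos k
    have hl := hlnn (k + c)
    rcases Nat.lt_or_ge k P.j with h | h
    · rcases TT_zero hc h with h1 | ⟨h1, h2, h3, h4⟩
      · rw [h1]
        simp only [CharP.cast_eq_zero, mul_zero]
        nlinarith
      · rw [h1]
        subst h2
        have : P.toBase.l (k + 1) = 2 := by
          rw [P.l_small (by omega), mult_even (by omega) (by omega)]
        rw [this]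
        push_cast
        nlinarith
    · rw [TT_large h]
      have h1 := A1 k h
      have h2 := hmono k c h
      nlinarith
  · intro k x c hx hxj hc hcj hne
    rw [toBase_j]
    have hL := hLpos k
    have hl := hlnn k
    rcases Nat.lt_or_ge k P.j with h | h
    · have h1 : (P.toBase.TT k 0 x : ℝ) + P.toBase.TT k 0 c ≤ P.toBase.l k := by
        have hlk : k % 2 = 1 → 1 ≤ P.toBase.l k := by
          intro h'
          exact P.l_pos' (by omega)
        have : P.toBase.TT k 0 x + P.toBase.TT k 0 c ≤ P.toBase.l k := by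
          rcases TT_zero hx h with h1 | ⟨h1, h2, h3, h4⟩ <;>
          rcases TT_zero hc h with h5 | ⟨h5, h6, h7, h8⟩ <;> omega
        exact_mod_cast this
      nlinarith
    · rw [TT_large h, TT_large h]
      have h1 := A1 k h
      linarith
  · intro i p n hp hm hno
    have h1 : n ≤ p := short hp hm hno
    have h2 : (n : ℝ) ≤ p := by exact_mod_cast h1
    have h3 : (0 : ℝ) ≤ p := by positivity
    nlinarith

/-- the simple value of `ε` -/
theorem S_crude {ε : ℝ} (hε : 0 ≤ ε) (h : (1 + ε) ≤ ε * 2 ^ P.j) :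
    ∀ k, P.j ≤ k → (P.toBase.S k : ℝ) ≤ (1 + ε) * P.toBase.l k := by
  intro k
  induction k using Nat.strong_induction_on with
  | _ k ih =>
  intro hk
  have hj := P.hj
  rw [Base.S_ge (b := P.toBase) hk, toBase_j]
  push_cast
  rcases Nat.lt_or_ge (k - P.j) P.j with h1 | h1
  · rw [P.S_small h1]
    have : (0 : ℝ) ≤ P.toBase.l k := by positivity
    simp only [CharP.cast_eq_zero, add_zero]
    nlinarith
  · have h2 := ih (k - P.j) (by omega) h1
    have h3 := Base.l_pow (b := P.toBase) (n := k - P.j) h1 P.j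
    rw [Nat.sub_add_cancel hk] at h3
    have h4 : (2 : ℝ) ^ P.j * P.toBase.l (k - P.j) ≤ P.toBase.l k := by exact_mod_cast h3
    have h5 : (0 : ℝ) ≤ P.toBase.l (k - P.j) := by positivity
    nlinarith

theorem expHyp_crude {ε : ℝ} (hε : 0 ≤ ε) (h : (1 + ε) ≤ ε * 2 ^ P.j) :
    P.toBase.ExpHyp x0 ε := by
  apply expHyp hε
  · intro k hk
    have h1 := S_crude hε h k hk
    have h2 : (2 : ℝ) ^ P.j * P.toBase.l k ≤ P.toBase.l (k + P.j) := by
      exact_mod_cast Base.l_pow (b := P.toBase) (n := k) hk P.j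
    have h5 : (0 : ℝ) ≤ P.toBase.l k := by positivity
    nlinarith
  · intro n hn
    have h1 := S_crude hε h n hn
    have h2 : (2 : ℝ) * P.toBase.l n ≤ P.toBase.l (n + 1) := by
      exact_mod_cast P.toBase.l_two hn
    nlinarith

end PB

end Pool.Agent.Helper20.Rich
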