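import Pool.Agent.Helper20.Rich.PBase

/-!
The limit word over a power-type base is rich.
-/

namespace Pool.Agent.Helper20.Rich

variable {α : Type*} {P : PB α} {x0 : α}

theorem new_one_letter {u : ℕ → α} {N : ℕ} (h : ∀ z < N, u z ≠ u N) : New u (N + 1) := by
  refine ⟨N, by omega, ?_, ?_⟩
  · intro t ht
    congr 1
    omega
  · intro a' ha' hm
    exact h a' ha' (hm 0 (by omega))

namespace PB

/-- the small letter `lam true K`, `K` even, if it does not occur as `lam true (K-1)`. -/
theorem letter_t {K z : ℕ} (h1 : 2 ≤ K) (hK : K < P.j) (hKe : K % 2 = 0)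
    (hne : P.lam true (K - 1) ≠ P.lam true K)
    (hz : z < P.toBase.l (K + P.j)) : P.toBase.u x0 z ≠ P.lam true K := by
  intro g1
  obtain ⟨s, τ, c, e1, e2, e3, e4, e5, e6⟩ := letter' (P := P) (x0 := x0) z
  rw [g1] at e4
  have hcj : c < P.j := by
    rcases Nat.lt_or_ge c P.j with h | h
    · exact h
    · have : c = P.j := by omega
      subst this
      have := (P.hub true τ K (by omega) hK.le e4).2
      omega
  rcases Nat.lt_or_ge c K with h | h
  · obtain ⟨rfl, h3⟩ := P.small τ true c K e5 h.le hK e4.symm
    have h4 : K = c + 1 ∧ c % 2 = 1 := by omega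
    apply hne
    rw [show K - 1 = c by omega]
    exact e4.symm
  · obtain ⟨rfl, h3⟩ := P.small true τ K c (by omega) h hcj e4
    have := Base.FO_tc (b := P.toBase) c 0 s hcj e1
    rw [zero_add] at this
    have h4 := P.toBase.l_mono (m := K + P.j) (n := c + P.j) (by simp) (by omega)
    simp only [toBase_j] at this
    omega

theorem letter_f {K z : ℕ} (h1 : 2 ≤ K) (hK : K < P.j) (hKe : K % 2 = 0)
    (hne : P.lam false (K - 1) ≠ P.lam false K)
    (hz : z < P.toBase.l (K + P.j + 1 + P.j) + P.toBase.l (K + P.j)) :
    P.toBase.u x0 z ≠ P.lam false K := by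
  intro g1
  obtain ⟨s, τ, c, e1, e2, e3, e4, e5, e6⟩ := letter' (P := P) (x0 := x0) z
  rw [g1] at e4
  have hcj : c < P.j := by
    rcases Nat.lt_or_ge c P.j with h | h
    · exact h
    · have : c = P.j := by omega
      subst this
      have := (P.hub false τ K (by omega) hK.le e4).2
      omega
  rcases Nat.lt_or_ge c K with h | h
  · obtain ⟨rfl, h3⟩ := P.small τ false c K e5 h.le hK e4.symm
    have h4 : K = c + 1 ∧ c % 2 = 1 := by omega
    apply hne
    rw [show K - 1 = c by omega]
    exact e4.symm
  · obtain ⟨rfl, h3⟩ := P.small false τ K c (by omega) h hcj e4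
    have := Base.FO_fc (b := P.toBase) c 0 s hcj e1
    rw [zero_add] at this
    have h4 := P.toBase.l_mono (m := K + P.j) (n := c + P.j) (by simp) (by omega)
    have h5 := P.toBase.l_mono (m := K + P.j + 1 + P.j) (n := c + 1 + P.j + P.j)
      (by simp) (by omega)
    simp only [toBase_j] at this
    omega

theorem rich_t {K N : ℕ} (hK : K < P.j) (hN : P.toBase.l (K + P.j) < N)
    (hN' : N ≤ P.toBase.l (K + 1 + P.j)) : New (P.toBase.u x0) N := by
  have hL : P.toBase.l (K + 1 + P.j) = 2 * P.toBase.l (K + P.j) + P.toBase.l K := by
    have := P.toBase.l_succ (n := K + P.j) (by simp)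
    rw [toBase_j, Nat.add_sub_cancel] at this
    rw [← this]
    congr 1
    omega
  rcases Nat.lt_or_ge N (P.toBase.l (K + P.j) + P.toBase.l K) with h1 | h1
  · -- inside a double
    have hl2 : P.toBase.l K = 2 := by
      have := mult_le K
      rw [P.l_small hK.le] at h1 ⊢
      omega
    have hKe : K % 2 = 0 ∧ 1 ≤ K := by
      rw [P.l_small hK.le] at hl2
      unfold mult at hl2
      split_ifs at hl2 <;> omega
    obtain rfl : N = P.toBase.l (K + P.j) + 1 := by omega
    obtain ⟨K, rfl⟩ : ∃ K', K = K' + 1 := ⟨K - 1, by omega⟩
    by_cases hne : P.lam true K = P.lam true (K + 1)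
    · have := Base.new_B1 (b := P.toBase) (x0 := x0) natBase (k := K) (v := 1) le_rfl
        (by omega) (by
          rw [P.W_small true hK.le, P.W_small true (by omega), mult_even (by omega) (by omega),
            mult_odd (c := K) (by omega), hne]
          simp)
      exact this
    · apply new_one_letter
      intro z hz
      have h3 := Base.pos_block x0 (b := P.toBase) (K + 1) 1
      rw [DD_one, Base.pos_one, add_zero, P.W_small true hK.le] at h3
      have h4 := h3.get (t := 0) (a := P.lam true (K + 1))
        (by rw [List.getElem?_replicate_of_lt (mult_pos (by omega))])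
      rw [add_zero, toBase_j] at h4
      rw [h4]
      exact letter_t (by omega) hK (by omega) (by simpa using hne) hz
  · obtain ⟨x, rfl⟩ : ∃ x, N = P.toBase.l (K + P.j) + P.toBase.l K + x :=
      ⟨N - (P.toBase.l (K + P.j) + P.toBase.l K), by omega⟩
    rcases Nat.eq_zero_or_pos K with h0 | h0
    · subst h0
      have e1 : P.toBase.l 0 = 0 := by rw [P.l_small (by omega)]; rfl
      have e2 : P.toBase.l (0 + P.j) = 1 := by rw [zero_add, P.l_hub]
      obtain rfl : x = 1 := by omega
      have hL' : P.toBase.l (0 + 1 + P.j) = 2 := by omega
      rw [e1, e2]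
      refine ⟨0, by omega, ?_, fun a' ha' => by omega⟩
      intro t ht
      apply Base.u_reflect x0 (0 + 1)
      rw [toBase_j, hL']
      omega
    · apply Base.new_ct (b := P.toBase) (by rw [toBase_j]; omega)
        (by have := P.l_pos' h0; omega) hL
      intro z hz
      exact first_t h0 hK hz

/-- first letter next to a hub -/
theorem nw_first {κ x : ℕ} {a : α} (hκ : κ % 2 = 1) (hκj : κ + 1 < P.j)
    (h : a = P.lam false (κ + 1))
    (hu : ∀ a', (P.toBase.nw κ true x)[0]? = some a' → a = a') :
    x = 0 ∨ x = 1 := by
  rcases Nat.lt_or_ge (κ + x) P.j with h2 | h2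
  · have h3 := hu (P.lam false (κ + x)) (by
      unfold Base.nw
      rw [Bool.not_true, P.W_small false h2.le, List.getElem?_append_left
        (by simp; exact mult_pos (by omega)),
        List.getElem?_replicate_of_lt (mult_pos (by omega))])
    rw [h] at h3
    rcases Nat.lt_or_ge x 1 with h4 | h4
    · omega
    · have := (P.small false false (κ + 1) (κ + x) (by omega) (by omega) h2 h3).2
      omega
  · exfalso
    have h4 := hu (P.lam false P.j) (by
      unfold Base.nw
      apply getElem?_of_isPre (List.prefix_append _ _)
      apply getElem?_of_isPre (P.toBase.W_isPre (σ := false) le_rfl h2)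
      rw [toBase_j, P.W_small false le_rfl, mult_odd P.jodd]
      simp)
    rw [h] at h4
    have := (P.hub false false (κ + 1) (by omega) (by omega) h4).2
    omega

theorem rich_f {r M : ℕ} (hr : r < P.j)
    (hM : P.toBase.l (r + P.j + 1 + P.j) + P.toBase.l (r + P.j) < M)
    (hM' : M < P.toBase.l (r + P.j + 1 + P.j) + P.toBase.l (r + P.j + 1)) :
    New (P.toBase.u x0) M := by
  obtain ⟨hblk, hl⟩ := Base.blk_f (b := P.toBase) (x0 := x0) r
  rw [toBase_j] at hblk hl
  rcases Nat.eq_zero_or_pos r with h0 | h0
  · subst h0
    have e1 : P.toBase.l 0 = 0 := by rw [P.l_small (by omega)]; rfl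
    have e2 : P.toBase.l (0 + P.j) = 1 := by rw [zero_add, P.l_hub]
    omega
  have hj := P.hj
  obtain ⟨r, rfl⟩ : ∃ r', r = r' + 1 := ⟨r - 1, by omega⟩
  set Q := P.toBase.l (r + 1 + P.j + 1 + P.j) with hQ
  set A := P.toBase.l (r + 1 + P.j) with hA
  have hmid : Occ (P.toBase.u x0) (Q + A) (P.toBase.W false (r + 1)) := by
    have h3 := (occ_append.1 (occ_append.1 hblk).1).2
    rwa [Base.length_W] at h3
  rcases Nat.lt_or_ge M (Q + A + P.toBase.l (r + 1)) with h1 | h1
  · -- inside a double
    have hl2 : P.toBase.l (r + 1) = 2 := by
      have := mult_le (r + 1)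
      rw [P.l_small hr.le] at h1 ⊢
      omega
    have hKe : (r + 1) % 2 = 0 := by
      rw [P.l_small hr.le] at hl2
      unfold mult at hl2
      split_ifs at hl2 <;> omega
    obtain rfl : M = Q + A + 1 := by omega
    have hc : P.toBase.u x0 (Q + A) = P.lam false (r + 1) := by
      rw [P.W_small false hr.le] at hmid
      exact hmid.get (t := 0) (a := P.lam false (r + 1))
        (by rw [List.getElem?_replicate_of_lt (mult_pos (by omega))])
    by_cases hne : P.lam false r = P.lam false (r + 1)
    · -- the palindrome `c W c`
      have hA' : A = 2 * P.toBase.l (r + P.j) + P.toBase.l r := by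
        have := P.toBase.l_succ (n := r + P.j) (by simp)
        rw [toBase_j, Nat.add_sub_cancel] at this
        rw [hA, ← this]
        congr 1
        omega
      have hlr : P.toBase.l r = 1 := by rw [P.l_small (by omega), mult_odd (by omega)]
      have hW1 : P.toBase.W true (r + 1 + P.j) =
          P.toBase.W true (r + P.j) ++ P.toBase.W false r ++ P.toBase.W true (r + P.j) := by
        have := P.toBase.W_succ (σ := true) (n := r + P.j) (by simp)
        rw [toBase_j, Nat.add_sub_cancel] at this
        rw [show r + 1 + P.j = r + P.j + 1 by omega, this]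
        rfl
      have hfirst := (occ_append.1 (occ_append.1 hblk).1).1
      rw [hW1] at hfirst
      set B := P.toBase.l (r + P.j) with hB
      have hcl : P.toBase.u x0 (Q + B) = P.lam false (r + 1) := by
        have h3 := (occ_append.1 (occ_append.1 hfirst).1).2
        rw [Base.length_W, P.W_small false (by omega), mult_odd (c := r) (by omega)] at h3
        have h4 := h3.get (t := 0) (a := P.lam false r) (by simp)
        rw [← hne]
        simpa using h4
      have hin : Occ (P.toBase.u x0) (Q + B + 1) (P.toBase.W true (r + P.j)) := by
        have h3 := (occ_append.1 hfirst).2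
        rw [List.length_append, Base.length_W, Base.length_W, hlr] at h3
        rw [show Q + B + 1 = Q + (P.toBase.l (r + P.j) + 1) by omega]
        exact h3
      refine ⟨Q + B, by omega, ?_, ?_⟩
      · intro t ht
        have hrefl : ∀ y z, y + z + 1 = B → P.toBase.u x0 (Q + B + 1 + y) =
            P.toBase.u x0 (Q + B + 1 + z) := by
          intro y z hyz
          have hpal : (factor (P.toBase.u x0) (Q + B + 1) B).reverse =
              factor (P.toBase.u x0) (Q + B + 1) B := by
            unfold Occ at hin
            rw [Base.length_W] at hin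
            rw [hB, hin, P.toBase.W_pal]
          have := factor_reverse_iff.1 hpal y (by omega)
          rw [this]
          congr 1
          omega
        rcases Nat.eq_zero_or_pos t with h2 | h2
        · subst h2
          rw [add_zero, hcl, show Q + A + 1 - 1 - 0 = Q + A by omega, hc]
        · rcases Nat.lt_or_ge t (B + 1) with h3 | h3
          · have := hrefl (t - 1) (B - t) (by omega)
            rw [show Q + B + t = Q + B + 1 + (t - 1) by omega, this]
            congr 1
            omega
          · have : t = B + 1 := by omega
            subst this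
            rw [show Q + B + (B + 1) = Q + A by omega, hc,
              show Q + A + 1 - 1 - (B + 1) = Q + B by omega, hcl]
      · intro a' ha' hmatch
        have hocc : Occ (P.toBase.u x0) (a' + 1) (P.toBase.W true (r + P.j)) := by
          apply Occ.of_get
          intro t ht
          rw [Base.length_W] at ht
          rw [hin.get' (by rw [Base.length_W]; exact ht)]
          have := hmatch (1 + t) (by omega)
          rw [show a' + 1 + t = a' + (1 + t) by omega, this]
          congr 2
          omega
        obtain ⟨s, hs, hpos⟩ := Base.nat_occ (b := P.toBase) natBase r true _ hocc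
        rw [toBase_j] at hs
        have hs1 : 1 ≤ s := by
          rcases Nat.eq_zero_or_pos s with h | h
          · subst h; rw [Base.pos_zero] at hpos; omega
          · exact h
        obtain ⟨x, y, e1, e2, e3⟩ := Base.side_hub (b := P.toBase) hs1 hs
        rw [toBase_j] at e1 e2 e3
        have hL : P.toBase.u x0 a' = P.lam false (r + 1) := by
          have := hmatch 0 (by omega)
          rw [add_zero, add_zero, hcl] at this
          exact this
        have hR : P.toBase.u x0 (a' + 1 + B) = P.lam false (r + 1) := by
          have := hmatch (B + 1) (by omega)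
          rw [show a' + (B + 1) = a' + 1 + B by omega, show Q + B + (B + 1) = Q + A by omega, hc]
            at this
          exact this
        have hx := nw_first (P := P) (x := x) (by omega) hr hL (by
          intro a'' h''
          have h4 := (Base.nw_left (b := P.toBase) (x0 := x0) hs1 e1 h'').2
          rw [hpos] at h4
          rw [← h4]
          congr 1)
        have hy := nw_first (P := P) (x := y) (by omega) hr hR (by
          intro a'' h''
          have h4 := (Base.nw_right (b := P.toBase) (x0 := x0) (k := r) hs e2).get h''
          rw [hpos] at h4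
          rw [← h4]
          rfl)
        have hxy : (x = 1 ∧ y = 0) ∨ (x = 0 ∧ y = 1) := by omega
        rcases hxy with ⟨rfl, rfl⟩ | ⟨rfl, rfl⟩
        · have h5 := Base.FO_fc (b := P.toBase) 1 r (s - 1) (by rw [toBase_j]; omega) e1
          have h6 := Base.pos_mono (b := P.toBase) r (show s - 1 ≤ s by omega)
          rw [toBase_j, show r + 1 + 1 + P.j + P.j = r + 1 + P.j + 1 + P.j by omega] at h5
          omega
        · have h5 := Base.FO_fc (b := P.toBase) 1 r (s + 1) (by rw [toBase_j]; omega) e2
          have h6 := Base.pos_hub (b := P.toBase) (k := r) hs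
          rw [toBase_j, show r + 1 + 1 + P.j + P.j = r + 1 + P.j + 1 + P.j by omega] at h5
          rw [toBase_j] at h6
          omega
    · apply new_one_letter
      intro z hz
      rw [hc]
      exact letter_f (by omega) hr (by omega) (by simpa using hne) hz
  · obtain ⟨x, rfl⟩ : ∃ x, M = Q + A + P.toBase.l (r + 1) + x :=
      ⟨M - (Q + A + P.toBase.l (r + 1)), by omega⟩
    apply Base.new_cf (b := P.toBase) (by rw [toBase_j]; omega)
      (by have := P.l_pos' h0; omega)
    intro z hz
    exact first_f h0 hr hz

/-- the limit word is rich -/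
theorem rich : IsRich (P.toBase.u x0) := by
  apply isRich_of_new
  have key : ∀ K N, 1 ≤ N → N ≤ P.toBase.l (K + P.j) → New (P.toBase.u x0) N := by
    intro K
    induction K with
    | zero =>
      intro N h1 h2
      rw [zero_add, P.l_hub] at h2
      obtain rfl : N = 1 := by omega
      exact new_one_letter (N := 0) (by intro z hz; omega)
    | succ K ih =>
      intro N h1 h2
      rcases Nat.lt_or_ge (P.toBase.l (K + P.j)) N with h3 | h3
      · rcases Nat.lt_or_ge K P.j with h4 | h4
        · exact rich_t h4 h3 h2
        · apply Base.new_step (b := P.toBase) natBase h4 h3 h2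
          · intro M h5 h6
            rw [toBase_j, P.l_hub] at h6
            rw [toBase_j] at h5
            omega
          · intro r hr M h5 h6
            exact rich_f hr h5 h6
      · exact ih N h1 h3
  intro N h1
  exact key N N h1 (P.toBase.l_gt N).le

end PB

end Pool.Agent.Helper20.Rich
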