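import Pool.Agent.Helper20.Rich.Tower

/-!
Richness of the limit word: every initial part ends with a new palindrome.
-/

namespace Pool.Agent.Helper20.Rich

variable {α : Type*}

/-- number of palindromic factors -/
noncomputable def npal (w : List α) : ℕ := {p : List α | p <:+: w ∧ p.reverse = p}.ncard

theorem npal_reverse (w : List α) : npal w.reverse = npal w := by
  unfold npal
  congr 1
  ext p
  constructor
  · rintro ⟨h1, h2⟩
    refine ⟨?_, h2⟩
    rw [← h2]
    rw [← List.reverse_infix] at h1
    simpa using h1
  · rintro ⟨h1, h2⟩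
    refine ⟨?_, h2⟩
    rw [← h2, List.reverse_infix]
    exact h1

theorem npal_concat_le (w : List α) (x : α) : npal (w ++ [x]) ≤ npal w + 1 := by
  unfold npal
  by_cases h : ∃ s, s ∈ {p : List α | p <:+: w ++ [x] ∧ p.reverse = p} ∧
      s ∉ {p : List α | p <:+: w ∧ p.reverse = p}
  · obtain ⟨s0, ⟨hs0, hs0p⟩, hs0'⟩ := h
    have hs0n : ¬ s0 <:+: w := fun hh => hs0' ⟨hh, hs0p⟩
    have hsuf0 : s0 <:+ w ++ [x] := by
      rcases List.infix_concat_iff.1 hs0 with hh | hh
      · exact hh
      · exact absurd hh hs0n
    -- two palindromic end parts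
    have key : ∀ s t : List α, s.reverse = s → t.reverse = t → s <:+ w ++ [x] → t <:+ w ++ [x] →
        ¬ s <:+: w → s.length ≤ t.length → s = t := by
      intro s t hs ht hsw htw hsn hle
      have h1 : s <:+ t := List.suffix_of_suffix_length_le hsw htw hle
      have h2 : s <+: t := by
        have := List.reverse_prefix.2 h1
        rwa [hs, ht] at this
      obtain ⟨r, hr⟩ := h2
      rcases List.eq_nil_or_concat r with rfl | ⟨r', y, rfl⟩
      · simpa using hr
      · exfalso
        apply hsn
        obtain ⟨q, hq⟩ := htw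
        rw [← hr] at hq
        have h3 : (q ++ (s ++ r')) ++ [y] = w ++ [x] := by rw [← hq]; simp
        have h4 := (List.append_inj' h3 rfl).1
        exact ⟨q, r', by rw [← h4]; simp⟩
    calc _ ≤ (insert s0 {p : List α | p <:+: w ∧ p.reverse = p}).ncard := by
          apply Set.ncard_le_ncard _ ((finite_pals w).insert s0)
          rintro s ⟨hs, hsp⟩
          by_cases hsw : s <:+: w
          · exact Or.inr ⟨hsw, hsp⟩
          · left
            have hsuf : s <:+ w ++ [x] := by
              rcases List.infix_concat_iff.1 hs with hh | hh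
              · exact hh
              · exact absurd hh hsw
            rcases le_total s.length s0.length with hle | hle
            · exact key s s0 hsp hs0p hsuf hsuf0 hsw hle
            · exact (key s0 s hs0p hsp hsuf0 hsuf hs0n hle).symm
      _ ≤ _ := Set.ncard_insert_le _ _
  · push Not at h
    have : {p : List α | p <:+: w ++ [x] ∧ p.reverse = p} ⊆
        {p : List α | p <:+: w ∧ p.reverse = p} := fun s hs => h s hs
    have := Set.ncard_le_ncard this (finite_pals w)
    omega

theorem npal_cons_le (w : List α) (x : α) : npal (x :: w) ≤ npal w + 1 := by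
  rw [← npal_reverse, ← npal_reverse w, List.reverse_cons]
  exact npal_concat_le _ _

theorem npal_le (w : List α) : npal w ≤ w.length + 1 := by
  induction w with
  | nil =>
    have : {p : List α | p <:+: [] ∧ p.reverse = p} ⊆ {[]} := by
      rintro p ⟨hp, _⟩
      simpa using hp
    have := Set.ncard_le_ncard this (Set.finite_singleton _)
    simpa [npal] using this
  | cons x w ih =>
    have := npal_cons_le w x
    simp only [List.length_cons]
    omega

theorem npal_append_le (v w : List α) : npal (v ++ w) ≤ v.length + npal w := by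
  induction v with
  | nil => simp
  | cons x v ih =>
    have := npal_cons_le (v ++ w) x
    simp only [List.length_cons, List.cons_append] at *
    omega

/-- the initial part of length `N` ends with a palindrome that does not occur before. -/
def New (u : ℕ → α) (N : ℕ) : Prop :=
  ∃ a, a < N ∧ (∀ t < N - a, u (a + t) = u (N - 1 - t)) ∧
    ∀ a' < a, ¬ (∀ t < N - a, u (a' + t) = u (a + t))

theorem npal_ge {u : ℕ → α} (h : ∀ N, 1 ≤ N → New u N) (N : ℕ) :
    N + 1 ≤ npal (factor u 0 N) := by
  induction N with
  | zero =>
    have : ({[]} : Set (List α)) ⊆ {p : List α | p <:+: factor u 0 0 ∧ p.reverse = p} := by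
      rintro p rfl
      exact ⟨List.nil_infix, rfl⟩
    have := Set.ncard_le_ncard this (finite_pals _)
    simpa [npal] using this
  | succ N ih =>
    obtain ⟨a, ha, hpal, hnew⟩ := h (N + 1) (by omega)
    have hp : (factor u a (N + 1 - a)).reverse = factor u a (N + 1 - a) := by
      apply factor_reverse_iff.2
      intro t ht
      rw [hpal t ht]
      congr 1
      omega
    have hnot : ¬ factor u a (N + 1 - a) <:+: factor u 0 N := by
      intro hinf
      obtain ⟨a', _, h2, h3⟩ := isInfix_factor hinf
      rw [length_factor] at h2 h3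
      exact hnew a' (by omega) (fun t ht => (factor_inj h3 t ht).symm)
    have hsub : insert (factor u a (N + 1 - a)) {p : List α | p <:+: factor u 0 N ∧ p.reverse = p} ⊆
        {p : List α | p <:+: factor u 0 (N + 1) ∧ p.reverse = p} := by
      rintro s (rfl | ⟨hs, hsp⟩)
      · exact ⟨factor_isInfix (by omega) (by omega), hp⟩
      · exact ⟨hs.trans (factor_isInfix (by omega) (by omega)), hsp⟩
    have h1 := Set.ncard_le_ncard hsub (finite_pals _)
    rw [Set.ncard_insert_of_notMem (fun hh => hnot hh.1) (finite_pals _)] at h1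
    change npal (factor u 0 N) + 1 ≤ npal (factor u 0 (N + 1)) at h1
    omega

theorem isRich_of_new {u : ℕ → α} (h : ∀ N, 1 ≤ N → New u N) : IsRich u := by
  intro i n
  change npal (factor u i n) = (factor u i n).length + 1
  have h1 := npal_ge h (i + n)
  rw [factor_add, zero_add] at h1
  have h2 := npal_append_le (factor u 0 i) (factor u i n)
  have h3 := npal_le (factor u i n)
  rw [length_factor] at *
  omega

namespace Base

variable {b : Base α}

theorem u_occ (x0 : α) (k : ℕ) : Occ (b.u x0) 0 (b.W false (k + b.j)) := by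
  have := u_factor (b := b) x0 k
  unfold Occ
  rwa [length_W]

/-- reflection of the initial palindromes -/
theorem u_reflect (x0 : α) (k : ℕ) {y z : ℕ} (h : y + z + 1 = b.l (k + b.j)) :
    b.u x0 y = b.u x0 z := by
  have h1 := u_occ (b := b) x0 k
  have h2 := b.W_pal (k + b.j) false
  have h3 : (factor (b.u x0) 0 (b.l (k + b.j))).reverse = factor (b.u x0) 0 (b.l (k + b.j)) := by
    rw [u_factor, h2]
  have := factor_reverse_iff.1 h3 y (by omega)
  rw [zero_add, zero_add] at this
  rw [this]
  congr 1
  omega

theorem pos_one (k : ℕ) : b.pos k 1 = b.l (k + b.j) := by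
  rw [show 1 = 0 + 1 by rfl, pos_succ, DD_zero]; simp

theorem pos_two (k : ℕ) : b.pos k 2 = b.l (k + b.j) + b.l k := by
  rw [show 2 = 1 + 1 by rfl, pos_succ, DD_one, pos_one]; simp

theorem pos_ff_one {k s : ℕ} {σ : Bool} (h : DD b.j s = (σ, b.j)) :
    b.pos k (ff b.j s + 1) = b.pos (k + 1) s + b.l (k + b.j) := by
  rw [pos_succ, (ff_hub h).1, pos_ff]

theorem FO_tc (c : ℕ) : ∀ k s, c < b.j → DD b.j s = (true, c) → b.l (k + c + b.j) ≤ b.pos k s := by
  induction c with
  | zero =>
    intro k s hc h
    obtain ⟨s', h1, h2⟩ := idx_zero b.hj1 h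
    rw [← h2, pos_ff_one h1]
    simp
  | succ c ih =>
    intro k s hc h
    obtain ⟨s', h1, h2⟩ := idx_succ hc h
    rw [← h2, ← pos_ff]
    have := ih (k + 1) s' (by omega) h1
    rwa [show k + (c + 1) + b.j = k + 1 + c + b.j by omega]

theorem FO_tj : ∀ s k, DD b.j s = (true, b.j) → b.l (k + b.j + b.j) ≤ b.pos k s := by
  intro s
  induction s using Nat.strong_induction_on with
  | _ s ih =>
  intro k h
  rcases cases_pos b.j s with ⟨t, τ, c, hc, h1, h2, h3⟩ | ⟨t, τ, h1, h2, h3, h4⟩ |
          ⟨t, τ, h1, h2, h3⟩ | ⟨t, τ, h1, h2, h3, h4⟩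
  · rw [h] at h3
    obtain ⟨rfl, h4⟩ := Prod.mk.inj h3
    rw [h2, ← pos_ff]
    have := FO_tc (b := b) c (k + 1) t hc h1
    rwa [show k + b.j + b.j = k + 1 + c + b.j by omega]
  · rw [h] at h3
    obtain ⟨rfl, _⟩ := Prod.mk.inj h3
    have ht : 1 ≤ t := by
      rcases Nat.eq_zero_or_pos t with h0 | h0
      · subst h0; rw [DD_zero] at h1; simp at h1
      · exact h0
    have h5 := ff_ge b.j ht
    have h6 := ih t (by omega) (k + 1) h1
    rw [h2, ← pos_ff]
    refine le_trans (b.l_mono (by omega) (by omega)) h6
  · rw [h] at h3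
    have := (Prod.mk.inj h3).2
    have := b.hj
    omega
  · rw [h] at h3
    obtain ⟨rfl, _⟩ := Prod.mk.inj h3
    have ht : 1 ≤ t := by
      rcases Nat.eq_zero_or_pos t with h0 | h0
      · subst h0; rw [DD_zero] at h1; simp at h1
      · exact h0
    have h5 := ff_ge b.j ht
    have h6 := ih t (by omega) (k + 1) h1
    have h7 := pos_mono (b := b) k (show ff b.j t ≤ s by omega)
    rw [← pos_ff] at h7
    refine le_trans (le_trans (b.l_mono (by omega) (by omega)) h6) h7

theorem FO_fc (c : ℕ) : ∀ k s, c < b.j → DD b.j s = (false, c) →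
    b.l (k + c + 1 + b.j + b.j) + b.l (k + c + b.j) ≤ b.pos k s := by
  induction c with
  | zero =>
    intro k s hc h
    obtain ⟨s', h1, h2⟩ := idx_zero b.hj1 h
    rw [← h2, pos_ff_one h1]
    have := FO_tj (b := b) s' (k + 1) h1
    simp only [add_zero]
    omega
  | succ c ih =>
    intro k s hc h
    obtain ⟨s', h1, h2⟩ := idx_succ hc h
    rw [← h2, ← pos_ff]
    have := ih (k + 1) s' (by omega) h1
    rwa [show k + (c + 1) + 1 + b.j + b.j = k + 1 + c + 1 + b.j + b.j by omega,
      show k + (c + 1) + b.j = k + 1 + c + b.j by omega]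

/-- an index `< j` letter, pulled down to index `0` -/
theorem down (c : ℕ) : ∀ (k s : ℕ) (σ : Bool), c < b.j → DD b.j s = (σ, c) →
    ∃ s', DD b.j s' = (!σ, b.j) ∧ b.pos k s = b.pos (k + c + 1) s' + b.l (k + c + b.j) := by
  induction c with
  | zero =>
    intro k s σ hc h
    obtain ⟨s', h1, h2⟩ := idx_zero b.hj1 h
    exact ⟨s', h1, by rw [← h2, pos_ff_one h1]; simp⟩
  | succ c ih =>
    intro k s σ hc h
    obtain ⟨s', h1, h2⟩ := idx_succ hc h
    obtain ⟨s'', h3, h4⟩ := ih (k + 1) s' σ (by omega) h1
    refine ⟨s'', h3, ?_⟩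
    rw [← h2, ← pos_ff, h4, show k + (c + 1) + 1 = k + 1 + c + 1 by omega,
      show k + (c + 1) + b.j = k + 1 + c + b.j by omega]

variable {x0 : α}

/-- Case A: the initial part ends inside the second half, the centre is the separator. -/
theorem new_A (h0 : b.NatBase x0) {k x : ℕ} (hk : b.j ≤ k) (hx : x ≤ b.l (k + b.j)) :
    New (b.u x0) (b.l (k + b.j) + b.l k + x) := by
  have hj := b.hj
  have hlk := b.l_pos hk
  have hL := b.l_succ (n := k + b.j) (by omega)
  rw [Nat.add_sub_cancel] at hL
  refine ⟨b.l (k + b.j) - x, by omega, ?_, ?_⟩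
  · intro t ht
    apply u_reflect x0 (k + 1)
    rw [show k + 1 + b.j = k + b.j + 1 by omega, hL]
    omega
  · intro a' ha' hmatch
    -- the separator occurs at a' + x
    have hocc1 : Occ (b.u x0) (b.l (k + b.j)) (b.W true k) := by
      have h1 := pos_block x0 (b := b) k 1
      rw [DD_one, pos_one] at h1
      simpa using h1
    have hocc : Occ (b.u x0) (a' + x) (b.W true k) := by
      apply Occ.of_get
      intro t ht
      rw [length_W] at ht
      rw [hocc1.get' (by rw [length_W]; exact ht)]
      have := hmatch (x + t) (by omega)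
      rw [show a' + x + t = a' + (x + t) by omega, this]
      congr 2
      omega
    obtain ⟨κ, rfl⟩ : ∃ κ, k = κ + b.j := ⟨k - b.j, by omega⟩
    obtain ⟨s, hs, hpos⟩ := nat_occ h0 κ true _ hocc
    have := FO_tj (b := b) s κ hs
    omega

/-- Case 2a -/
theorem new_B1 (h0 : b.NatBase x0) {k v : ℕ} (hv : 1 ≤ v) (hvk : v ≤ b.l (k + 1))
    (hpre : (b.W true (k + 1)).take v <+: b.W true k ++ b.W false (k + b.j)) :
    New (b.u x0) (b.l (k + 1 + b.j) + v) := by
  have hj := b.hj
  have hL := b.l_succ (n := k + b.j) (by omega)
  rw [Nat.add_sub_cancel] at hL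
  have hL' : b.l (k + 1 + b.j) = 2 * b.l (k + b.j) + b.l k := by
    rw [← hL]; congr 1; omega
  have hvle : v ≤ b.l k + b.l (k + b.j) := by
    have := hpre.length_le
    rw [List.length_take, List.length_append, length_W, length_W, length_W, min_eq_left hvk] at this
    exact this
  -- letters to the right of position L_{k+1}
  have hright : ∀ y < v, (b.W true (k + 1))[y]? = some (b.u x0 (b.l (k + 1 + b.j) + y)) := by
    intro y hy
    have h1 := pos_block x0 (b := b) (k + 1) 1
    rw [DD_one, pos_one] at h1
    simp only [add_zero] at h1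
    exact h1.get' (by rw [length_W]; omega)
  -- letters to the left of the last hub
  have hleft : ∀ y < v, (b.W true k ++ b.W false (k + b.j))[y]? =
      some (b.u x0 (b.l (k + b.j) + b.l k - 1 - y)) := by
    intro y hy
    have h1 : Occ (b.u x0) 0 (b.W false (k + b.j) ++ b.W true k) := by
      have h2 := u_occ (b := b) x0 (k + 1)
      rw [show k + 1 + b.j = k + b.j + 1 by omega, b.W_succ (by omega), Nat.add_sub_cancel] at h2
      exact (occ_append.1 h2).1
    have h3 : (b.W true k ++ b.W false (k + b.j)) =
        (b.W false (k + b.j) ++ b.W true k).reverse := by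
      rw [List.reverse_append, b.W_pal, b.W_pal]
    rw [h3, List.getElem?_reverse (by simp; omega), h1.get' (by simp; omega)]
    simp only [List.length_append, length_W, zero_add]
  refine ⟨b.l (k + b.j) + b.l k - v, by omega, ?_, ?_⟩
  · intro t ht
    rcases Nat.lt_or_ge t v with h1 | h1
    · -- left part against right part
      have e1 : b.l (k + b.j) + b.l k - v + t = b.l (k + b.j) + b.l k - 1 - (v - 1 - t) := by omega
      have e2 : b.l (k + 1 + b.j) + v - 1 - t = b.l (k + 1 + b.j) + (v - 1 - t) := by omega
      rw [e1, e2]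
      have h2 := hleft (v - 1 - t) (by omega)
      have h3 := hright (v - 1 - t) (by omega)
      have h4 : ((b.W true (k + 1)).take v)[v - 1 - t]? =
          some (b.u x0 (b.l (k + 1 + b.j) + (v - 1 - t))) := by
        rw [List.getElem?_take, if_pos (by omega), h3]
      rw [getElem?_of_isPre hpre h4] at h2
      exact (Option.some.inj h2).symm
    · rcases Nat.lt_or_ge t (v + b.l (k + b.j)) with h2 | h2
      · -- inside the hub
        have hh : Occ (b.u x0) (b.l (k + b.j) + b.l k) (b.W false (k + b.j)) := by
          have h3 := pos_block x0 (b := b) k 2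
          have h4 : DD b.j 2 = (false, b.j) := by
            have := (ff_hub (DD_zero b.j)).2.2.1
            simpa using this
          rw [h4, pos_two] at h3
          exact h3
        have hpal : (factor (b.u x0) (b.l (k + b.j) + b.l k) (b.l (k + b.j))).reverse =
            factor (b.u x0) (b.l (k + b.j) + b.l k) (b.l (k + b.j)) := by
          unfold Occ at hh
          rw [length_W] at hh
          rw [hh, b.W_pal]
        have := factor_reverse_iff.1 hpal (t - v) (by omega)
        have e1 : b.l (k + b.j) + b.l k - v + t = b.l (k + b.j) + b.l k + (t - v) := by omega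
        rw [e1, this]
        congr 1
        omega
      · -- right part against left part
        obtain ⟨y, hy⟩ : ∃ y, t = v + b.l (k + b.j) + y := ⟨t - (v + b.l (k + b.j)), by omega⟩
        have e1 : b.l (k + b.j) + b.l k - v + t = b.l (k + 1 + b.j) + y := by omega
        have e2 : b.l (k + 1 + b.j) + v - 1 - t = b.l (k + b.j) + b.l k - 1 - y := by omega
        rw [e1, e2]
        have h2 := hleft y (by omega)
        have h3 := hright y (by omega)
        have h4 : ((b.W true (k + 1)).take v)[y]? =
            some (b.u x0 (b.l (k + 1 + b.j) + y)) := by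
          rw [List.getElem?_take, if_pos (by omega), h3]
        rw [getElem?_of_isPre hpre h4] at h2
        exact Option.some.inj h2
  · intro a' ha' hmatch
    have hh : Occ (b.u x0) (b.l (k + b.j) + b.l k) (b.W false (k + b.j)) := by
      have h3 := pos_block x0 (b := b) k 2
      have h4 : DD b.j 2 = (false, b.j) := by
        have := (ff_hub (DD_zero b.j)).2.2.1
        simpa using this
      rw [h4, pos_two] at h3
      exact h3
    have hocc : Occ (b.u x0) (a' + v) (b.W false (k + b.j)) := by
      apply Occ.of_get
      intro t ht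
      rw [length_W] at ht
      rw [hh.get' (by rw [length_W]; exact ht)]
      have := hmatch (v + t) (by omega)
      rw [show a' + v + t = a' + (v + t) by omega, this]
      congr 2
      omega
    obtain ⟨s, hs, hpos⟩ := nat_occ h0 k false _ hocc
    have hs2 : 2 ≤ s := by
      by_contra hcon
      have : s = 0 ∨ s = 1 := by omega
      rcases this with rfl | rfl
      · rw [pos_zero] at hpos; omega
      · rw [DD_one] at hs; simp at hs
    have := pos_mono (b := b) k hs2
    rw [pos_two] at this
    omega

end Base

end Pool.Agent.Helper20.Rich
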