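import Pool.Agent.Helper20.Rich.RichPart

/-!
Richness of the limit word, second part.
-/

namespace Pool.Agent.Helper20.Rich

namespace Base

variable {α : Type*} {b : Base α} {x0 : α}

/-- neighbours of a hub. -/
theorem side_hub {s : ℕ} {σ : Bool} (hs : 1 ≤ s) (h : DD b.j s = (σ, b.j)) :
    ∃ c c', DD b.j (s - 1) = (!σ, c) ∧ DD b.j (s + 1) = (!σ, c') ∧
      ((c = 0 ∧ 1 ≤ c') ∨ (1 ≤ c ∧ c' = 0) ∨
        (c = b.j ∧ c' = b.j ∧ 2 ≤ s ∧ DD b.j (s - 2) = (σ, 0) ∧ DD b.j (s + 2) = (σ, 0))) := by
  rcases ctx b.hj1 hs with ⟨σ', c', hc', e1, e2, e3⟩ | ⟨σ', c1, c2, e1, e2, e3, e4⟩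
  · rw [h] at e1
    have := (Prod.mk.inj e1).2
    omega
  · rw [h] at e1
    obtain ⟨rfl, _⟩ := Prod.mk.inj e1
    exact ⟨c1, c2, e2, e3, e4⟩

/-- the letter after a hub is on the other side. -/
theorem side_right {s : ℕ} {σ : Bool} (h : DD b.j s = (σ, b.j)) :
    ∃ c', DD b.j (s + 1) = (!σ, c') ∧ c' ≤ b.j := by
  rcases Nat.eq_zero_or_pos s with h0 | h0
  · subst h0
    rw [DD_zero] at h
    obtain ⟨rfl, _⟩ := Prod.mk.inj h
    exact ⟨0, by rw [DD_one]; rfl, by omega⟩
  · obtain ⟨c, c', e1, e2, e3⟩ := side_hub (b := b) h0 h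
    refine ⟨c', e2, ?_⟩
    have := DD_le b.j (s + 1)
    rw [e2] at this
    exact this

/-- a separator is followed by a hub. -/
theorem sep_right {s c : ℕ} {σ : Bool} (hc : c < b.j) (h : DD b.j s = (σ, c)) :
    DD b.j (s + 1) = (!σ, b.j) := by
  have hs : 1 ≤ s := by
    rcases Nat.eq_zero_or_pos s with h0 | h0
    · subst h0
      rw [DD_zero] at h
      have := (Prod.mk.inj h).2
      omega
    · exact h0
  rcases ctx b.hj1 hs with ⟨σ', c', hc', e1, e2, e3⟩ | ⟨σ', c1, c2, e1, e2, e3, e4⟩
  · rw [h] at e1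
    obtain ⟨rfl, _⟩ := Prod.mk.inj e1
    exact e3
  · rw [h] at e1
    have := (Prod.mk.inj e1).2
    omega

theorem sep_left {s c : ℕ} {σ : Bool} (hc : c < b.j) (h : DD b.j s = (σ, c)) :
    1 ≤ s ∧ DD b.j (s - 1) = (!σ, b.j) := by
  have hs : 1 ≤ s := by
    rcases Nat.eq_zero_or_pos s with h0 | h0
    · subst h0
      rw [DD_zero] at h
      have := (Prod.mk.inj h).2
      omega
    · exact h0
  refine ⟨hs, ?_⟩
  rcases ctx b.hj1 hs with ⟨σ', c', hc', e1, e2, e3⟩ | ⟨σ', c1, c2, e1, e2, e3, e4⟩
  · rw [h] at e1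
    obtain ⟨rfl, _⟩ := Prod.mk.inj e1
    exact e2
  · rw [h] at e1
    have := (Prod.mk.inj e1).2
    omega

variable (b) in
/-- the word next to a hub of side `σ` at level `k`, when the neighbour has index `c`. -/
def nw (k : ℕ) (σ : Bool) (c : ℕ) : List α :=
  b.W (!σ) (k + c) ++ (if c < b.j then b.W σ (k + b.j) else [])

variable (b) in
/-- bound for the first difference of `nw k σ c` and `nw k σ c'`, `c < c'`. -/
def TT (k c c' : ℕ) : ℕ :=
  if k + c' < b.j then (if (k + c) % 2 = 1 ∧ c' = c + 1 then 1 else 0) else b.S (k + c)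

theorem nw_mis (k : ℕ) (σ : Bool) {c c' : ℕ} (h : c < c') (h' : c' ≤ b.j) :
    Mis (b.nw k σ c) (b.nw k σ c') (b.TT k c c') := by
  unfold nw TT
  rw [if_pos (show c < b.j by omega)]
  by_cases h2 : k + c' < b.j
  · rw [if_pos h2, if_pos (show c' < b.j by omega)]
    have := SM (b := b) (!σ) (r := k + c) (r' := k + c') (m := k + b.j) (n := k + b.j) (by omega) h2
      (by omega) (by omega)
    rw [Bool.not_not] at this
    convert this using 2
    omega
  · rw [if_neg h2]
    have := LCP (b := b) (k + c) (!σ) (N := k + c') (M := k + b.j) (by omega) (by omega)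
      (by omega) (by omega)
    rw [Bool.not_not] at this
    exact this.of_isPre (List.prefix_refl _) (List.prefix_append _ _)

theorem mis_of_not_pre {P Q : List α} {x t : ℕ} {a1 a2 : α} (hx : x ≤ P.length)
    (h : ¬ P.take x <+: Q) (h1 : Q[t]? = some a1) (h2 : P[t]? = some a2) (h3 : a1 ≠ a2) :
    ∃ t < x, ∃ a1 a2, Q[t]? = some a1 ∧ P[t]? = some a2 ∧ a1 ≠ a2 := by
  rcases Nat.lt_or_ge t x with htx | htx
  · exact ⟨t, htx, a1, a2, h1, h2, h3⟩
  · by_contra hcon
    push Not at hcon
    apply h
    have hQ : t < Q.length := by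
      rw [List.getElem?_eq_some_iff] at h1
      exact h1.1
    have : P.take x = Q.take x := by
      apply List.ext_getElem?
      intro y
      rw [List.getElem?_take, List.getElem?_take]
      split_ifs with hy
      · have e1 := List.getElem?_eq_getElem (l := P) (i := y) (by omega)
        have e2 := List.getElem?_eq_getElem (l := Q) (i := y) (by omega)
        rw [e1, e2]
        rw [hcon y hy _ _ e2 e1]
      · rfl
    rw [this]
    exact List.take_prefix _ _

theorem nw_right {k s c : ℕ} {σ : Bool} (h : DD b.j s = (σ, b.j))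
    (h' : DD b.j (s + 1) = (!σ, c)) :
    Occ (b.u x0) (b.pos k s + b.l (k + b.j)) (b.nw k σ c) := by
  have h1 := pos_block x0 (b := b) k (s + 1)
  rw [h'] at h1
  have h2 : b.pos k (s + 1) = b.pos k s + b.l (k + b.j) := by rw [pos_succ, h]
  rw [h2] at h1
  unfold nw
  rw [occ_append]
  refine ⟨h1, ?_⟩
  split_ifs with hc
  · have h3 := sep_right hc h'
    rw [Bool.not_not] at h3
    have h4 := pos_block x0 (b := b) k (s + 1 + 1)
    rw [h3, pos_succ, h', h2] at h4
    rw [length_W]
    exact h4
  · rfl

/-- letters to the left of a hub -/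
theorem nw_left {k s c : ℕ} {σ : Bool} (hs : 1 ≤ s)
    (h' : DD b.j (s - 1) = (!σ, c)) {t : ℕ} {a : α} (ha : (b.nw k σ c)[t]? = some a) :
    t < b.pos k s ∧ b.u x0 (b.pos k s - 1 - t) = a := by
  obtain ⟨s, rfl⟩ : ∃ r, s = r + 1 := ⟨s - 1, by omega⟩
  rw [Nat.add_sub_cancel] at h'
  have hrev : (b.nw k σ c).reverse =
      (if c < b.j then b.W σ (k + b.j) else []) ++ b.W (!σ) (k + c) := by
    unfold nw
    rw [List.reverse_append, b.W_pal]
    congr 1
    split_ifs
    · rw [b.W_pal]
    · rfl
  have hocc : ∃ q, b.pos k (s + 1) = q + (b.nw k σ c).length ∧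
      Occ (b.u x0) q (b.nw k σ c).reverse := by
    have h1 := pos_block x0 (b := b) k s
    rw [h'] at h1
    have h2 : b.pos k (s + 1) = b.pos k s + b.l (k + c) := by rw [pos_succ, h']
    rw [hrev]
    unfold nw
    split_ifs with hc
    · obtain ⟨h3, h4⟩ := sep_left hc h'
      obtain ⟨s, rfl⟩ : ∃ r, s = r + 1 := ⟨s - 1, by omega⟩
      rw [Nat.add_sub_cancel, Bool.not_not] at h4
      have h5 := pos_block x0 (b := b) k s
      rw [h4] at h5
      have h6 : b.pos k (s + 1) = b.pos k s + b.l (k + b.j) := by rw [pos_succ, h4]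
      refine ⟨b.pos k s, by simp; omega, ?_⟩
      rw [occ_append]
      refine ⟨h5, ?_⟩
      rw [length_W, ← h6]
      exact h1
    · refine ⟨b.pos k s, by simp; omega, ?_⟩
      rw [List.nil_append]
      exact h1
  obtain ⟨q, hq1, hq2⟩ := hocc
  have ht : t < (b.nw k σ c).length := by
    rw [List.getElem?_eq_some_iff] at ha
    exact ha.1
  refine ⟨by omega, ?_⟩
  rw [show b.pos k (s + 1) - 1 - t = q + ((b.nw k σ c).length - 1 - t) by omega]
  apply hq2.get
  rw [List.getElem?_reverse (by omega)]
  rw [show (b.nw k σ c).length - 1 - ((b.nw k σ c).length - 1 - t) = t by omega]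
  exact ha

/-- Case 2b -/
theorem new_B2 (h0 : b.NatBase x0) {κ x t0 : ℕ} (hx : x ≤ b.l (κ + 2 * b.j)) (ht : t0 < x)
    {a1 a2 : α} (h1 : (b.W true κ ++ b.W false (κ + b.j))[t0]? = some a1)
    (h2 : (b.W true (κ + 2 * b.j))[t0]? = some a2) (hne : a1 ≠ a2) :
    New (b.u x0) (b.l (κ + 2 * b.j + 1 + b.j) + b.l (κ + 2 * b.j) + b.l (κ + b.j) + x) := by
  have hj := b.hj
  -- block structure
  have hW : b.W true (κ + 2 * b.j + 1) =
      b.W true (κ + 2 * b.j) ++ b.W false (κ + b.j) ++ b.W true (κ + 2 * b.j) := by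
    rw [b.W_succ (by omega), show κ + 2 * b.j - b.j = κ + b.j by omega]; rfl
  have hl : b.l (κ + 2 * b.j + 1) = 2 * b.l (κ + 2 * b.j) + b.l (κ + b.j) := by
    rw [b.l_succ (by omega), show κ + 2 * b.j - b.j = κ + b.j by omega]
  have hblk : Occ (b.u x0) (b.l (κ + 2 * b.j + 1 + b.j)) (b.W true (κ + 2 * b.j + 1)) := by
    have h1 := pos_block x0 (b := b) (κ + 2 * b.j + 1) 1
    rw [DD_one, pos_one] at h1
    simpa using h1
  set P := b.l (κ + 2 * b.j + 1 + b.j) with hP
  set A := b.l (κ + 2 * b.j) with hA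
  set B := b.l (κ + b.j) with hB
  have hmid : Occ (b.u x0) (P + A) (b.W false (κ + b.j)) := by
    rw [hW, List.append_assoc] at hblk
    have h3 := (occ_append.1 hblk).2
    rw [length_W] at h3
    exact (occ_append.1 h3).1
  have hlast : Occ (b.u x0) (P + A + B) (b.W true (κ + 2 * b.j)) := by
    rw [hW] at hblk
    have h3 := (occ_append.1 hblk).2
    rw [List.length_append, length_W, length_W, ← Nat.add_assoc] at h3
    exact h3
  have hrefl : ∀ y z, y + z + 1 = b.l (κ + 2 * b.j + 1) → b.u x0 (P + y) = b.u x0 (P + z) := by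
    intro y z hyz
    have hpal : (factor (b.u x0) P (b.l (κ + 2 * b.j + 1))).reverse =
        factor (b.u x0) P (b.l (κ + 2 * b.j + 1)) := by
      unfold Occ at hblk
      rw [length_W] at hblk
      rw [hblk, b.W_pal]
    have := factor_reverse_iff.1 hpal y (by omega)
    rw [this]
    congr 1
    omega
  refine ⟨P + A - x, by omega, ?_, ?_⟩
  · intro t ht'
    have := hrefl (A - x + t) (A + B + x - 1 - t) (by omega)
    rw [show P + A - x + t = P + (A - x + t) by omega, this]
    congr 1
    omega
  · intro a' ha' hmatch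
    have hocc : Occ (b.u x0) (a' + x) (b.W false (κ + b.j)) := by
      apply Occ.of_get
      intro t ht'
      rw [length_W] at ht'
      rw [hmid.get' (by rw [length_W]; exact ht')]
      have := hmatch (x + t) (by omega)
      rw [show a' + x + t = a' + (x + t) by omega, this]
      congr 2
      omega
    obtain ⟨s, hs, hpos⟩ := nat_occ h0 κ false _ hocc
    have hs1 : 1 ≤ s := by
      rcases Nat.eq_zero_or_pos s with h | h
      · subst h; rw [pos_zero] at hpos; omega
      · exact h
    have hnw0 : b.nw κ false 0 = b.W true κ ++ b.W false (κ + b.j) := by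
      unfold nw
      rw [if_pos (by omega)]
      simp
    obtain ⟨c, c', e1, e2, e3⟩ := side_hub (b := b) hs1 hs
    have hc' : c' ≠ 0 := by
      rintro rfl
      have h3 := nw_right (x0 := x0) (k := κ) hs e2
      rw [hnw0] at h3
      have h4 := h3.get h1
      rw [hpos] at h4
      have h5 := hlast.get h2
      have h6 := hmatch (x + B + t0) (by omega)
      apply hne
      rw [← h4, ← h5]
      rw [show P + A - x + (x + B + t0) = P + A + B + t0 by omega,
        show a' + (x + B + t0) = a' + x + b.l (κ + b.j) + t0 by omega] at h6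
      exact h6
    have hc : c ≠ 0 := by
      rintro rfl
      have h3 := nw_left (x0 := x0) (k := κ) (σ := false) hs1 e1 (t := t0) (a := a1)
        (by rw [hnw0]; exact h1)
      rw [hpos] at h3
      have h5 := hlast.get h2
      have h6 := hmatch (x - 1 - t0) (by omega)
      have h7 := hrefl (A - 1 - t0) (A + B + t0) (by omega)
      apply hne
      rw [← h3.2, ← h5]
      rw [show P + A - x + (x - 1 - t0) = P + (A - 1 - t0) by omega, h7,
        show a' + (x - 1 - t0) = a' + x - 1 - t0 by omega,
        show P + (A + B + t0) = P + A + B + t0 by omega] at h6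
      exact h6
    obtain ⟨rfl, rfl, e4, e5, e6⟩ : c = b.j ∧ c' = b.j ∧ 2 ≤ s ∧ DD b.j (s - 2) = (false, 0) ∧
        DD b.j (s + 2) = (false, 0) := by
      rcases e3 with ⟨h, _⟩ | ⟨_, h⟩ | h
      · exact absurd h hc
      · exact absurd h hc'
      · exact h
    obtain ⟨s0, f1, f2⟩ := hub_jj b.hj1 hs1 hs e2 e1
    obtain ⟨s', g1, g2⟩ := down (b := b) (b.j - 1) (κ + 1) s0 false (by omega) f1
    have g3 := FO_tj (b := b) s' (κ + 1 + (b.j - 1) + 1) (by simpa using g1)
    have g4 : b.pos (κ + 1) s0 = b.pos κ s := by rw [pos_ff, f2]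
    rw [show κ + 1 + (b.j - 1) + 1 + b.j + b.j = κ + 2 * b.j + 1 + b.j by omega, ← hP] at g3
    rw [show κ + 1 + (b.j - 1) + b.j = κ + 2 * b.j by omega, ← hA] at g2
    omega

/-- the general induction step, away from the small levels -/
theorem new_step (h0 : b.NatBase x0) {K N : ℕ} (hK : b.j ≤ K) (hN : b.l (K + b.j) < N)
    (hN' : N ≤ b.l (K + 1 + b.j))
    (hj : ∀ M, b.l (b.j + b.j) < M → M < b.l (b.j + b.j) + b.l b.j → New (b.u x0) M)
    (hf : ∀ r < b.j, ∀ M, b.l (r + b.j + 1 + b.j) + b.l (r + b.j) < M →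
      M < b.l (r + b.j + 1 + b.j) + b.l (r + b.j + 1) → New (b.u x0) M) :
    New (b.u x0) N := by
  have hjj := b.hj
  have hL : b.l (K + 1 + b.j) = 2 * b.l (K + b.j) + b.l K := by
    rw [show K + 1 + b.j = K + b.j + 1 by omega, b.l_succ (by omega), Nat.add_sub_cancel]
  rcases Nat.lt_or_ge N (b.l (K + b.j) + b.l K) with h1 | h1
  · rcases Nat.eq_or_lt_of_le hK with h2 | h2
    · subst h2; exact hj N hN h1
    · obtain ⟨K', rfl⟩ : ∃ K', K = K' + 1 := ⟨K - 1, by omega⟩
      obtain ⟨v, rfl⟩ : ∃ v, N = b.l (K' + 1 + b.j) + v := ⟨N - b.l (K' + 1 + b.j), by omega⟩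
      have hK' : b.j ≤ K' := by omega
      have hWt := b.W_succ (σ := true) hK'
      have hlt := b.l_succ hK'
      rw [List.append_assoc] at hWt
      -- small `v`
      by_cases hv : v ≤ b.l K'
      · apply new_B1 h0 (by omega) (by omega)
        rw [hWt, List.take_append_of_le_length (by rw [length_W]; exact hv)]
        exact (List.take_prefix _ _).trans (List.prefix_append _ _)
      · push Not at hv
        obtain ⟨y, rfl⟩ : ∃ y, v = b.l K' + y := ⟨v - b.l K', by omega⟩
        rcases Nat.lt_or_ge (K' - b.j) b.j with h3 | h3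
        · -- small separator
          obtain ⟨r, rfl⟩ : ∃ r, K' = r + b.j := ⟨K' - b.j, by omega⟩
          exact hf r (by omega) _ (by omega) (by omega)
        · -- large separator
          obtain ⟨κ, rfl⟩ : ∃ κ, K' = κ + 2 * b.j := ⟨K' - 2 * b.j, by omega⟩
          rw [show κ + 2 * b.j - b.j = κ + b.j by omega] at hWt hlt
          have hpre : b.W false (κ + b.j) <+: b.W false (κ + 2 * b.j + b.j) :=
            b.W_isPre (by omega) (by omega)
          by_cases hy : y ≤ b.l (κ + b.j)
          · apply new_B1 h0 (by omega) (by omega)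
            rw [hWt, List.take_append, length_W, Nat.add_sub_cancel_left,
              List.take_of_length_le (by rw [length_W]; omega)]
            rw [List.prefix_append_right_inj]
            simp only [Bool.not_true]
            rw [List.take_append_of_le_length (by rw [length_W]; exact hy)]
            exact (List.take_prefix _ _).trans hpre
          · push Not at hy
            obtain ⟨x, rfl⟩ : ∃ x, y = b.l (κ + b.j) + x := ⟨y - b.l (κ + b.j), by omega⟩
            by_cases hX : (b.W true (κ + 2 * b.j)).take x <+: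
                b.W true κ ++ b.W false (κ + b.j)
            · apply new_B1 h0 (by omega) (by omega)
              rw [hWt, List.take_append, length_W, Nat.add_sub_cancel_left,
                List.take_of_length_le (by rw [length_W]; omega)]
              rw [List.prefix_append_right_inj]
              simp only [Bool.not_true]
              rw [List.take_append, length_W, Nat.add_sub_cancel_left,
                List.take_of_length_le (by rw [length_W]; omega)]
              refine ((List.prefix_append_right_inj _).2 hX).trans ?_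
              have h5 := b.W_succ (σ := false) (n := κ + b.j) (by omega)
              rw [Nat.add_sub_cancel, List.append_assoc] at h5
              rw [show true = !false by rfl, ← h5]
              exact b.W_isPre (by omega) (by omega)
            · -- there is a difference
              have hm := LCP (b := b) κ true (N := κ + 2 * b.j) (M := κ + b.j) (by omega) (by omega)
                (by omega) (by omega)
              rw [Bool.not_true] at hm
              obtain ⟨t, _, a1, a2, h4, h5, h6⟩ := hm
              obtain ⟨t, htx, a1, a2, h4, h5, h6⟩ :=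
                mis_of_not_pre (by rw [length_W]; omega) hX h4 h5 h6
              have := new_B2 (x0 := x0) h0 (κ := κ) (x := x) (t0 := t) (by omega) htx h4 h5 h6
              rw [← Nat.add_assoc, ← Nat.add_assoc]
              exact this
  · obtain ⟨x, rfl⟩ : ∃ x, N = b.l (K + b.j) + b.l K + x := ⟨N - (b.l (K + b.j) + b.l K), by omega⟩
    exact new_A h0 hK (by omega)

end Base

end Pool.Agent.Helper20.Rich
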