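import Pool.Agent.Helper20.Rich.Final

/-!
The sharp constant for four letters.
-/

open scoped ENNReal

namespace Pool.Agent.Helper20.Rich

theorem mu_bounds {μ : ℝ} (h2 : 2 < μ) (hμ : μ ^ 4 = 2 * μ ^ 3 + 1) :
    2.1069 < μ ∧ μ < 2.10693 := by
  constructor
  · by_contra hcon
    push Not at hcon
    have h1 : μ ^ 3 * (μ - 2) = 1 := by linear_combination hμ
    have h3 : μ ^ 3 ≤ 2.1069 ^ 3 := by gcongr
    have h4 : μ ^ 3 * (μ - 2) ≤ 2.1069 ^ 3 * (2.1069 - 2) := by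
      apply mul_le_mul h3 (by linarith) (by linarith) (by norm_num)
    norm_num at h4
    linarith
  · by_contra hcon
    push Not at hcon
    have h1 : μ ^ 3 * (μ - 2) = 1 := by linear_combination hμ
    have h3 : 2.10693 ^ 3 ≤ μ ^ 3 := by gcongr
    have h4 : (2.10693 : ℝ) ^ 3 * (2.10693 - 2) ≤ μ ^ 3 * (μ - 2) := by
      apply mul_le_mul h3 (by linarith) (by norm_num) (by positivity)
    norm_num at h4
    linarith

theorem seq_ident {t D : ℕ → ℝ} {μ : ℝ} (hμ : μ ^ 4 = 2 * μ ^ 3 + 1)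
    (ht : ∀ m, t (m + 4) = 2 * t (m + 3) + t m + 2 * D (m + 3)) (q : ℕ) :
    μ ^ 3 * (t (q + 6) - μ ^ 3 * t (q + 3)) + (t (q + 5) - μ ^ 3 * t (q + 2)) +
      μ * (t (q + 4) - μ ^ 3 * t (q + 1)) + μ ^ 2 * (t (q + 3) - μ ^ 3 * t q) =
      2 * μ ^ 3 * (μ ^ 2 * D (q + 3) + μ * D (q + 4) + D (q + 5)) := by
  have h4 := ht q
  have h5 := ht (q + 1)
  have h6 := ht (q + 2)
  rw [show q + 1 + 4 = q + 5 by ring, show q + 1 + 3 = q + 4 by ring] at h5
  rw [show q + 2 + 4 = q + 6 by ring, show q + 2 + 3 = q + 5 by ring] at h6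
  linear_combination μ ^ 3 * h6 + μ ^ 4 * h5 + μ ^ 5 * h4 - t (q + 5) * hμ - μ * t (q + 4) * hμ -
    μ ^ 2 * t (q + 3) * hμ

/-- the solution of the identity for `V (q + 3)`, with numeric bounds of the coefficients. -/
theorem seq_solve {V0 V1 V2 V3 μ d3 d4 d5 : ℝ} (h2 : 2 < μ) (hμ : μ ^ 4 = 2 * μ ^ 3 + 1)
    (h : μ ^ 3 * V3 + V2 + μ * V1 + μ ^ 2 * V0 = 2 * μ ^ 3 * (μ ^ 2 * d3 + μ * d4 + d5)) :
    V3 = 2 * (μ ^ 2 * d3 + μ * d4 + d5) - (μ - 2) * V2 - (μ ^ 2 - 2 * μ) * V1 -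
      (μ ^ 3 - 2 * μ ^ 2) * V0 := by
  have h3 : μ ^ 3 ≠ 0 := by positivity
  have h1 : μ ^ 3 * (V3 - (2 * (μ ^ 2 * d3 + μ * d4 + d5) - (μ - 2) * V2 -
      (μ ^ 2 - 2 * μ) * V1 - (μ ^ 3 - 2 * μ ^ 2) * V0)) = 0 := by
    linear_combination h + V2 * hμ + μ * V1 * hμ + μ ^ 2 * V0 * hμ
  have := (mul_eq_zero.1 h1).resolve_left h3
  linarith

theorem mul_bd {x y a b c d : ℝ} (ha : 0 ≤ a) (hc : 0 ≤ c) (h1 : a ≤ x) (h2 : x ≤ b) (h3 : c ≤ y)
    (h4 : y ≤ d) : a * c ≤ x * y ∧ x * y ≤ b * d :=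
  ⟨mul_le_mul h1 h3 hc (ha.trans h1), mul_le_mul h2 h4 (hc.trans h3) ((ha.trans h1).trans h2)⟩

theorem seq_pos {t D : ℕ → ℝ} {μ : ℝ} (h2 : 2 < μ) (hμ : μ ^ 4 = 2 * μ ^ 3 + 1)
    (ht : ∀ m, t (m + 4) = 2 * t (m + 3) + t m + 2 * D (m + 3))
    (hD0 : ∀ q, D (3 * q) = 0) (hD1 : ∀ q, D (3 * q + 1) = 1) (hD2 : ∀ q, D (3 * q + 2) = 3)
    (t0 : t 0 = 1) (t1 : t 1 = 2) (t2 : t 2 = 5) (t3 : t 3 = 14) :
    ∀ m, μ ^ 3 * t m ≤ t (m + 3) := by
  obtain ⟨b1, b2⟩ := mu_bounds h2 hμ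
  -- bounds for the coefficients
  have c1 : 0.1069 ≤ μ - 2 := by linarith
  have c1' : μ - 2 ≤ 0.10693 := by linarith
  have c2 : 0.2252 ≤ μ ^ 2 - 2 * μ := by nlinarith
  have c2' : μ ^ 2 - 2 * μ ≤ 0.2254 := by nlinarith
  have e2 : 4.439 ≤ μ ^ 2 := by nlinarith
  have e2' : μ ^ 2 ≤ 4.4392 := by nlinarith
  have c3 : 0.4744 ≤ μ ^ 3 - 2 * μ ^ 2 := by nlinarith
  have c3' : μ ^ 3 - 2 * μ ^ 2 ≤ 0.4749 := by nlinarith
  have e3 : 9.35 ≤ μ ^ 3 := by nlinarith
  have e3' : μ ^ 3 ≤ 9.354 := by nlinarith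
  set V : ℕ → ℝ := fun m => t (m + 3) - μ ^ 3 * t m with hV
  have rec1 : ∀ q, V (q + 3) = 2 * (μ ^ 2 * D (q + 3) + μ * D (q + 4) + D (q + 5)) -
      (μ - 2) * V (q + 2) - (μ ^ 2 - 2 * μ) * V (q + 1) - (μ ^ 3 - 2 * μ ^ 2) * V q := by
    intro q
    apply seq_solve h2 hμ
    exact seq_ident hμ ht q
  have t4 : t 4 = 29 := by
    have := ht 0
    have h0 := hD0 1
    norm_num at this h0
    rw [this, t3, t0, h0]; norm_num
  have t5 : t 5 = 62 := by
    have := ht 1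
    have h0 := hD1 1
    norm_num at this h0
    rw [this, t4, t1, h0]; norm_num
  have inv : ∀ q, (1 ≤ V (3 * q) ∧ V (3 * q) ≤ 6.7) ∧
      (8.7 ≤ V (3 * q + 1) ∧ V (3 * q + 1) ≤ 14.4) ∧
      (15.1 ≤ V (3 * q + 2) ∧ V (3 * q + 2) ≤ 20.9) := by
    intro q
    induction q with
    | zero =>
      simp only [hV, mul_zero, zero_add, t0, t1, t2, t3]
      norm_num
      rw [t4, t5]
      refine ⟨⟨?_, ?_⟩, ⟨?_, ?_⟩, ⟨?_, ?_⟩⟩ <;> linarith
    | succ q ih =>
      obtain ⟨⟨a1, a2⟩, ⟨a3, a4⟩, ⟨a5, a6⟩⟩ := ih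
      have r1 := rec1 (3 * q)
      have r2 := rec1 (3 * q + 1)
      have r3 := rec1 (3 * q + 2)
      have d3 : D (3 * q + 3) = 0 := hD0 (q + 1)
      have d4 : D (3 * q + 4) = 1 := hD1 (q + 1)
      have d5 : D (3 * q + 5) = 3 := hD2 (q + 1)
      have d6 : D (3 * q + 6) = 0 := hD0 (q + 2)
      have d7 : D (3 * q + 7) = 1 := hD1 (q + 2)
      rw [d3, d4, d5] at r1
      rw [show 3 * q + 1 + 3 = 3 * q + 4 by ring, show 3 * q + 1 + 4 = 3 * q + 5 by ring,
        show 3 * q + 1 + 5 = 3 * q + 6 by ring, show 3 * q + 1 + 2 = 3 * q + 3 by ring,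
        show 3 * q + 1 + 1 = 3 * q + 2 by ring, d4, d5, d6] at r2
      rw [show 3 * q + 2 + 3 = 3 * q + 5 by ring, show 3 * q + 2 + 4 = 3 * q + 6 by ring,
        show 3 * q + 2 + 5 = 3 * q + 7 by ring, show 3 * q + 2 + 2 = 3 * q + 4 by ring,
        show 3 * q + 2 + 1 = 3 * q + 3 by ring, d5, d6, d7] at r3
      rw [show 3 * (q + 1) = 3 * q + 3 by ring, show 3 * q + 3 + 1 = 3 * q + 4 by ring,
        show 3 * q + 3 + 2 = 3 * q + 5 by ring]
      have k1 := mul_bd (by norm_num) (by norm_num) c1 c1' a5 a6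
      have k2 := mul_bd (by norm_num) (by norm_num) c2 c2' a3 a4
      have k3 := mul_bd (by norm_num) (by norm_num) c3 c3' a1 a2
      norm_num at k1 k2 k3
      have g1 : 1 ≤ V (3 * q + 3) ∧ V (3 * q + 3) ≤ 6.7 := by
        constructor <;> linarith [k1.1, k1.2, k2.1, k2.2, k3.1, k3.2]
      obtain ⟨g1, g2⟩ := g1
      have k1 := mul_bd (by norm_num) (by norm_num) c1 c1' g1 g2
      have k2 := mul_bd (by norm_num) (by norm_num) c2 c2' a5 a6
      have k3 := mul_bd (by norm_num) (by norm_num) c3 c3' a3 a4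
      norm_num at k1 k2 k3
      have g3 : 8.7 ≤ V (3 * q + 4) ∧ V (3 * q + 4) ≤ 14.4 := by
        constructor <;> linarith [k1.1, k1.2, k2.1, k2.2, k3.1, k3.2]
      obtain ⟨g3, g4⟩ := g3
      have k1 := mul_bd (by norm_num) (by norm_num) c1 c1' g3 g4
      have k2 := mul_bd (by norm_num) (by norm_num) c2 c2' g1 g2
      have k3 := mul_bd (by norm_num) (by norm_num) c3 c3' a5 a6
      norm_num at k1 k2 k3
      have g5 : 15.1 ≤ V (3 * q + 5) ∧ V (3 * q + 5) ≤ 20.9 := by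
        constructor <;> linarith [k1.1, k1.2, k2.1, k2.2, k3.1, k3.2]
      exact ⟨⟨g1, g2⟩, ⟨g3, g4⟩, g5⟩
  intro m
  have : 0 ≤ V m := by
    have h1 := inv (m / 3)
    have h3 : m = 3 * (m / 3) ∨ m = 3 * (m / 3) + 1 ∨ m = 3 * (m / 3) + 2 := by omega
    rcases h3 with h | h | h <;> rw [h] <;> linarith [h1.1.1, h1.2.1.1, h1.2.2.1]
  simp only [hV] at this
  linarith

/-- the inhomogeneous part -/
def dd (n : ℕ) : ℕ := if n % 3 = 0 then 0 else if n % 3 = 1 then 1 else 3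

variable {α : Type*} {P : PB α} {x0 : α}

theorem S_rec (hP : P.j = 3) : ∀ n, 3 ≤ n →
    P.toBase.S (n + 1) = 2 * P.toBase.S n + P.toBase.S (n - 3) + dd n := by
  have hj : P.toBase.j = 3 := hP
  have l0 : P.toBase.l 0 = 0 := by rw [P.l_small (by omega)]; rfl
  have l1 : P.toBase.l 1 = 1 := by rw [P.l_small (by omega)]; rfl
  have l2 : P.toBase.l 2 = 2 := by rw [P.l_small (by omega)]; rfl
  have l3 : P.toBase.l 3 = 1 := by rw [P.l_small (by omega)]; rfl
  have s0 : P.toBase.S 0 = 0 := P.S_small (by omega)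
  have s1 : P.toBase.S 1 = 0 := P.S_small (by omega)
  have s2 : P.toBase.S 2 = 0 := P.S_small (by omega)
  have hS : ∀ n, 3 ≤ n → P.toBase.S n = P.toBase.l n + P.toBase.S (n - 3) := by
    intro n hn
    have := Base.S_ge (b := P.toBase) (n := n) (by omega)
    rwa [hj] at this
  have hl : ∀ n, 3 ≤ n → P.toBase.l (n + 1) = 2 * P.toBase.l n + P.toBase.l (n - 3) := by
    intro n hn
    have := P.toBase.l_succ (n := n) (by omega)
    rwa [hj] at this
  intro n
  induction n using Nat.strong_induction_on with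
  | _ n ih =>
  intro hn
  have h1 := hS (n + 1) (by omega)
  have h2 := hS n hn
  have h3 := hl n hn
  rcases Nat.lt_or_ge n 6 with h | h
  · have : n = 3 ∨ n = 4 ∨ n = 5 := by omega
    rcases this with rfl | rfl | rfl
    · have e : dd 3 = 0 := rfl
      norm_num at h1 h2 h3
      rw [e]
      norm_num
      omega
    · have e : dd 4 = 1 := rfl
      norm_num at h1 h2 h3
      rw [e]
      norm_num
      omega
    · have e : dd 5 = 3 := rfl
      have h4 := hS 3 le_rfl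
      norm_num at h1 h2 h3 h4
      rw [e]
      norm_num
      omega
  · have h4 := ih (n - 3) (by omega) (by omega)
    have h5 := hS (n - 3) (by omega)
    have h6 : dd (n - 3) = dd n := by
      unfold dd
      rw [show (n - 3) % 3 = n % 3 by omega]
    rw [show n - 3 + 1 = n + 1 - 3 by omega, h6] at h4
    omega

theorem expHyp_sharp (hP : P.j = 3) {μ : ℝ} (h2 : 2 < μ) (hμ : μ ^ 4 = 2 * μ ^ 3 + 1) :
    P.toBase.ExpHyp x0 (1 / (μ ^ 3 - 1)) := by
  have hj : P.toBase.j = 3 := hP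
  have hμ8 : 8 < μ ^ 3 := by
    have : (2 : ℝ) ^ 3 < μ ^ 3 := by gcongr
    linarith
  have hμ10 : μ ^ 3 < 10 := by
    have h := (mu_bounds h2 hμ).2
    have : μ ^ 3 < 2.10693 ^ 3 := by gcongr
    norm_num at this
    linarith
  have hε : (1 : ℝ) / 9 ≤ 1 / (μ ^ 3 - 1) := by
    apply one_div_le_one_div_of_le <;> linarith
  have hεμ : (1 / (μ ^ 3 - 1)) * (μ ^ 3 - 1) = 1 := by
    rw [one_div, inv_mul_cancel₀ (by linarith)]
  set ε := 1 / (μ ^ 3 - 1) with hεdef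
  have hS : ∀ n, 3 ≤ n → P.toBase.S n = P.toBase.l n + P.toBase.S (n - 3) := by
    intro n hn
    have := Base.S_ge (b := P.toBase) (n := n) (by omega)
    rwa [hj] at this
  have hl : ∀ n, 3 ≤ n → P.toBase.l (n + 1) = 2 * P.toBase.l n + P.toBase.l (n - 3) := by
    intro n hn
    have := P.toBase.l_succ (n := n) (by omega)
    rwa [hj] at this
  have l0 : P.toBase.l 0 = 0 := by rw [P.l_small (by omega)]; rfl
  have l1 : P.toBase.l 1 = 1 := by rw [P.l_small (by omega)]; rfl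
  have l2 : P.toBase.l 2 = 2 := by rw [P.l_small (by omega)]; rfl
  have l3 : P.toBase.l 3 = 1 := by rw [P.l_small (by omega)]; rfl
  have s0 : P.toBase.S 0 = 0 := P.S_small (by omega)
  have s1 : P.toBase.S 1 = 0 := P.S_small (by omega)
  have s2 : P.toBase.S 2 = 0 := P.S_small (by omega)
  have l4 := hl 3 le_rfl
  have l5 := hl 4 (by omega)
  have l6 := hl 5 (by omega)
  have s3 := hS 3 le_rfl
  have s4 := hS 4 (by omega)
  have s5 := hS 5 (by omega)
  have s6 := hS 6 (by omega)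
  norm_num at l4 l5 l6 s3 s4 s5 s6
  have hseq := seq_pos (t := fun m => (P.toBase.S (m + 3) + P.toBase.S m : ℝ))
    (D := fun m => (dd m : ℝ)) h2 hμ
    (by
      intro m
      have e1 := S_rec hP (m + 6) (by omega)
      have e2 := S_rec hP (m + 3) (by omega)
      have e3 : dd (m + 6) = dd (m + 3) := by
        unfold dd
        rw [show (m + 6) % 3 = (m + 3) % 3 by omega]
      rw [e3, show m + 6 + 1 = m + 7 by ring, show m + 6 - 3 = m + 3 by omega] at e1
      rw [show m + 3 + 1 = m + 4 by ring, show m + 3 - 3 = m by omega] at e2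
      have e1' : (P.toBase.S (m + 7) : ℝ) = 2 * P.toBase.S (m + 6) + P.toBase.S (m + 3) +
        dd (m + 3) := by exact_mod_cast e1
      have e2' : (P.toBase.S (m + 4) : ℝ) = 2 * P.toBase.S (m + 3) + P.toBase.S m +
        dd (m + 3) := by exact_mod_cast e2
      rw [show m + 4 + 3 = m + 7 by ring, show m + 3 + 3 = m + 6 by ring, e1', e2']
      ring)
    (by intro q; simp [dd])
    (by intro q; have : (3 * q + 1) % 3 = 1 := by omega
        simp [dd, this])
    (by intro q; have : (3 * q + 2) % 3 = 2 := by omega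
        simp [dd, this])
    (by
      have : P.toBase.S 3 + P.toBase.S 0 = 1 := by omega
      exact_mod_cast this)
    (by
      have : P.toBase.S 4 + P.toBase.S 1 = 2 := by omega
      exact_mod_cast this)
    (by
      have : P.toBase.S 5 + P.toBase.S 2 = 5 := by omega
      exact_mod_cast this)
    (by
      have : P.toBase.S 6 + P.toBase.S 3 = 14 := by omega
      exact_mod_cast this)
  have hcr := PB.S_crude (P := P) (ε := 1 / 7) (by norm_num) (by rw [hP]; norm_num)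
  apply PB.expHyp (by linarith)
  · intro k hk
    rw [hP] at hk ⊢
    obtain ⟨m, rfl⟩ : ∃ m, k = m + 3 := ⟨k - 3, by omega⟩
    have h3 := hseq m
    have e1 := hS (m + 3 + 3) (by omega)
    have e2 := hS (m + 3) (by omega)
    rw [Nat.add_sub_cancel] at e1 e2
    have e1' : (P.toBase.S (m + 3 + 3) : ℝ) = P.toBase.l (m + 3 + 3) + P.toBase.S (m + 3) := by
      exact_mod_cast e1
    have e2' : (P.toBase.S (m + 3) : ℝ) = P.toBase.l (m + 3) + P.toBase.S m := by
      exact_mod_cast e2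
    set A := (P.toBase.l (m + 3 + 3) : ℝ)
    set B := (P.toBase.l (m + 3) : ℝ)
    set C := (P.toBase.S m : ℝ)
    rw [e1', e2'] at h3
    rw [e2']
    have h4 : 0 ≤ ε * (A + (B + C) + (B + C) - μ ^ 3 * (B + C + C)) := by
      apply mul_nonneg (by linarith)
      linarith
    have h5 : ε * μ ^ 3 = 1 + ε := by linear_combination hεμ
    have h6 : ε * (A + (B + C) + (B + C) - μ ^ 3 * (B + C + C)) =
        ε * (A + 2 * (B + C)) - (1 + ε) * (B + 2 * C) := by
      linear_combination (-(B + 2 * C)) * h5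
    rw [h6] at h4
    nlinarith
  · intro n hn
    rw [hP] at hn
    have e1 := hS n hn
    have e2 := hl n hn
    have e1' : (P.toBase.S n : ℝ) = P.toBase.l n + P.toBase.S (n - 3) := by exact_mod_cast e1
    have e2' : (P.toBase.l (n + 1) : ℝ) = 2 * P.toBase.l n + P.toBase.l (n - 3) := by
      exact_mod_cast e2
    have hnn : (0 : ℝ) ≤ P.toBase.l n := by positivity
    have hnn3 : (0 : ℝ) ≤ P.toBase.l (n - 3) := by positivity
    rcases Nat.lt_or_ge (n - 3) 3 with h | h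
    · have h5 : P.toBase.S (n - 3) = 0 := P.S_small (by omega)
      rw [e1', e2', h5]
      push_cast
      nlinarith
    · have h5 := hcr (n - 3) (by omega)
      have h6 := Base.l_pow (b := P.toBase) (n := n - 3) (by omega) 3
      rw [Nat.sub_add_cancel hn] at h6
      have h7 : (8 : ℝ) * P.toBase.l (n - 3) ≤ P.toBase.l n := by
        have : 8 * P.toBase.l (n - 3) ≤ P.toBase.l n := by omega
        exact_mod_cast this
      rw [e1', e2']
      nlinarith

/-- upper bound for four letters -/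
theorem RT_four {μ : ℝ} (h2 : 2 < μ) (hμ : μ ^ 4 = 2 * μ ^ 3 + 1) :
    RT 4 ≤ ENNReal.ofReal (1 + 1 / (3 - μ)) := by
  have hb := mu_bounds h2 hμ
  have hμ8 : 8 < μ ^ 3 := by
    have : (2 : ℝ) ^ 3 < μ ^ 3 := by gcongr
    linarith
  have e : 1 + 1 / (3 - μ) = 2 + 1 / (μ ^ 3 - 1) := by
    have h1 : 3 - μ ≠ 0 := by linarith [hb.2]
    have h3 : μ ^ 3 - 1 ≠ 0 := by linarith
    field_simp
    linear_combination hμ
  rw [e]
  apply RT_le (PF 2 4 le_rfl (Or.inl rfl)).toBase ⟨0, by omega⟩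
  · exact expHyp_sharp rfl h2 hμ
  · exact PB.rich
  · exact PF_surj _ _ _

end Pool.Agent.Helper20.Rich
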